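import Mathlib

/-!
Levels and holonomies along a braid word. `col m` is the column of the letter (band) number `m`: it
joins the levels `col m` and `col m + 1`.
-/

namespace Pool.Agent.H.MP_1611f1_gt.PB

open Set Filter Topology

/-- the level after passing a band of column `k` -/
def stepLev (k l : ℕ) : ℕ := if l = k then k + 1 else if l = k + 1 then k else l

/-- the holonomy of passing a band of column `k` with the map `A` -/
noncomputable def stepHol (A : ℝ ≃o ℝ) (k l : ℕ) : ℝ ≃o ℝ :=
  if l = k then A else if l = k + 1 then A.symm else OrderIso.refl ℝ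

/-- the level after the first `m` bands, starting at the level `l` -/
def lev (col : ℕ → ℕ) (l : ℕ) : ℕ → ℕ
  | 0 => l
  | m + 1 => stepLev (col m) (lev col l m)

/-- the holonomy of the first `m` bands, starting at the level `l` -/
noncomputable def hol (col : ℕ → ℕ) (A : ℕ → ℝ ≃o ℝ) (l : ℕ) : ℕ → (ℝ ≃o ℝ)
  | 0 => OrderIso.refl ℝ
  | m + 1 => (hol col A l m).trans (stepHol (A m) (col m) (lev col l m))

/-- the number of bands among the first `m` which are passed upwards -/
def ups (col : ℕ → ℕ) (l : ℕ) : ℕ → ℕ
  | 0 => 0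
  | m + 1 => ups col l m + (if lev col l m = col m then 1 else 0)

theorem stepLev_stepLev (k l : ℕ) : stepLev k (stepLev k l) = l := by
  unfold stepLev
  split_ifs <;> omega

theorem stepLev_inj (k : ℕ) : Function.Injective (stepLev k) := fun a b h => by
  rw [← stepLev_stepLev k a, h, stepLev_stepLev]

theorem stepLev_lt {n k l : ℕ} (hk : k + 1 < n) (hl : l < n) : stepLev k l < n := by
  unfold stepLev
  split_ifs <;> omega

theorem lev_inj (col : ℕ → ℕ) (m : ℕ) : Function.Injective (fun l => lev col l m) := by
  induction m with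
  | zero => exact fun a b h => h
  | succ m ih => exact fun a b h => ih (stepLev_inj _ h)

theorem lev_lt {n : ℕ} {col : ℕ → ℕ} {M : ℕ} (hcol : ∀ m < M, col m + 1 < n) {l : ℕ} (hl : l < n) :
    ∀ m ≤ M, lev col l m < n := by
  intro m hm
  induction m with
  | zero => exact hl
  | succ m ih => exact stepLev_lt (hcol m (by omega)) (ih (by omega))

theorem lev_add (col : ℕ → ℕ) (l a m : ℕ) :
    lev col l (a + m) = lev (fun k => col (a + k)) (lev col l a) m := by
  induction m with
  | zero => rfl
  | succ m ih => rw [← add_assoc, lev, ih]; rfl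

theorem hol_add (col : ℕ → ℕ) (A : ℕ → ℝ ≃o ℝ) (l a m : ℕ) (t : ℝ) :
    hol col A l (a + m) t =
      hol (fun k => col (a + k)) (fun k => A (a + k)) (lev col l a) m (hol col A l a t) := by
  induction m with
  | zero => rfl
  | succ m ih =>
    show stepHol (A (a + m)) (col (a + m)) (lev col l (a + m)) (hol col A l (a + m) t) = _
    rw [ih, lev_add]
    rfl

theorem stepHol_add {A : ℝ ≃o ℝ} {P : ℝ} (hA : ∀ t, A (t + P) = A t + P) (k l : ℕ) (t : ℝ) :
    stepHol A k l (t + P) = stepHol A k l t + P := by
  unfold stepHol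
  split_ifs
  · exact hA t
  · apply A.injective
    rw [hA, OrderIso.apply_symm_apply, OrderIso.apply_symm_apply]
  · rfl

theorem hol_per {col : ℕ → ℕ} {A : ℕ → ℝ ≃o ℝ} {P : ℝ} (hA : ∀ m t, A m (t + P) = A m t + P)
    (l m : ℕ) (t : ℝ) : hol col A l m (t + P) = hol col A l m t + P := by
  induction m with
  | zero => rfl
  | succ m ih =>
    show stepHol _ _ _ (hol col A l m (t + P)) = _
    rw [ih, stepHol_add (hA m)]
    rfl

theorem lev_congr {col col' : ℕ → ℕ} {M : ℕ} (h : ∀ m < M, col m = col' m) (l : ℕ) :
    ∀ m ≤ M, lev col l m = lev col' l m := by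
  intro m hm
  induction m with
  | zero => rfl
  | succ m ih => rw [lev, lev, ih (by omega), h m (by omega)]

theorem hol_congr {col col' : ℕ → ℕ} {A A' : ℕ → ℝ ≃o ℝ} {M : ℕ} (h : ∀ m < M, col m = col' m)
    (hA : ∀ m < M, A m = A' m) (l : ℕ) : ∀ m ≤ M, hol col A l m = hol col' A' l m := by
  intro m hm
  induction m with
  | zero => rfl
  | succ m ih =>
    rw [hol, hol, ih (by omega), lev_congr h l m (by omega), h m (by omega), hA m (by omega)]

/-- every band is passed upwards from exactly one starting level -/
theorem sum_ups {n : ℕ} {col : ℕ → ℕ} {M : ℕ} (hcol : ∀ m < M, col m + 1 < n) :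
    ∀ m ≤ M, ∑ l ∈ Finset.range n, ups col l m = m := by
  intro m hm
  induction m with
  | zero => simp [ups]
  | succ m ih =>
    simp only [ups]
    rw [Finset.sum_add_distrib, ih (by omega)]
    congr 1
    -- the map `l ↦ lev col l m` is a bijection of `range n`
    have hmaps : ∀ l ∈ Finset.range n, lev col l m ∈ Finset.range n := fun l hl => by
      rw [Finset.mem_range] at hl ⊢
      exact lev_lt hcol hl m (by omega)
    have hsurj : ∃ l ∈ Finset.range n, lev col l m = col m := by
      have := Finset.surj_on_of_inj_on_of_card_le (s := Finset.range n) (t := Finset.range n)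
        (fun l _ => lev col l m) (fun l hl => hmaps l hl) (fun a b _ _ h => lev_inj col m h) le_rfl
        (col m) (Finset.mem_range.2 (by have := hcol m (by omega); omega))
      obtain ⟨l, hl, h⟩ := this
      exact ⟨l, hl, h.symm⟩
    obtain ⟨l0, hl0, h0⟩ := hsurj
    rw [Finset.sum_eq_single l0]
    · rw [if_pos h0]
    · intro b _ hb
      rw [if_neg]
      intro h
      exact hb (lev_inj col m (h.trans h0.symm))
    · intro h
      exact absurd hl0 h

end Pool.Agent.H.MP_1611f1_gt.PB
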