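import Pool.Agent.H.MP_1611f1_gt.PB.Stmt
import Pool.Agent.H.MP_1611f1_gt.PB.Braid
import Pool.Agent.H.MP_1611f1_gt.G2.GenMain

/-!
From the arc system of a positive braid to the general arc systems.
-/

namespace Pool.Agent.H.MP_1611f1_gt.PB

open Topology Set Filter

section

variable {k c : ℕ} [NeZero c] (β : Fin c → ℕ)

/-- the column of the letter number `m` (taken mod `c`) -/
def colN (m : ℕ) : ℕ := β (Fin.ofNat c m)

theorem colN_mod (m : ℕ) : colN β (m % c) = colN β m := by
  unfold colN
  congr 1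
  ext
  simp [Fin.ofNat]

theorem level_eq (t : ℕ) : level β t = lev (fun m => colN β (m % c)) 0 t := by
  induction t with
  | zero => rfl
  | succ t ih =>
    rw [level, lev, ih]
    simp only [colN_mod]
    unfold stepLev colN
    split_ifs with h1 h2
    · rw [h1, Equiv.swap_apply_left]
    · rw [h2, Equiv.swap_apply_right]
    · rw [Equiv.swap_apply_of_ne_of_ne h1 h2]

variable (k) in
/-- the letter of the boundary word at the time `t` -/
def letter (t : ℤ) : Option (Fin c × Bool) :=
  if level β (t % (k * c : ℕ)).toNat = β (Fin.ofNat c (t % (k * c : ℕ)).toNat) then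
    some (Fin.ofNat c (t % (k * c : ℕ)).toNat, true) else
  if level β (t % (k * c : ℕ)).toNat = β (Fin.ofNat c (t % (k * c : ℕ)).toNat) + 1 then
    some (Fin.ofNat c (t % (k * c : ℕ)).toNat, false) else none

theorem letter_per (t : ℤ) : letter k β (t + (k * c : ℕ)) = letter k β t := by
  unfold letter
  rw [Int.add_emod_right]

theorem letter_nat {t : ℕ} (ht : t < k * c) : letter k β (t : ℤ) =
    if level β t = β (Fin.ofNat c t) then some (Fin.ofNat c t, true) else
      if level β t = β (Fin.ofNat c t) + 1 then some (Fin.ofNat c t, false) else none := by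
  have h : ((t : ℤ) % (k * c : ℕ)).toNat = t := by
    rw [Int.emod_eq_of_lt (by positivity) (by exact_mod_cast ht)]
    simp
  unfold letter
  rw [h]

end

section

variable {S : Type*} [TopologicalSpace S] {E : Surf S Unit} {k c : ℕ} [NeZero c]
  {β : Fin c → ℕ}

theorem sector_eq (hk : 0 < k) (t : ℤ) (u : ℝ) : ((((t : ℝ) + u) / (k * c) : ℝ) :
    AddCircle (1 : ℝ)) = (((((t % (k * c : ℕ)).toNat : ℝ) + u) / (k * c) : ℝ) :
      AddCircle (1 : ℝ)) := by
  have hc : 0 < c := Nat.pos_of_ne_zero (NeZero.ne c)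
  have hkc : (0 : ℤ) < (k * c : ℕ) := by exact_mod_cast Nat.mul_pos hk hc
  have hkc' : ((k : ℝ) * c) ≠ 0 := by positivity
  have h1 : (((t % (k * c : ℕ)).toNat : ℤ) : ℤ) = t % (k * c : ℕ) :=
    Int.toNat_of_nonneg (Int.emod_nonneg _ hkc.ne')
  have h2 : (((t % (k * c : ℕ)).toNat : ℕ) : ℝ) = ((t % (k * c : ℕ) : ℤ) : ℝ) := by
    exact_mod_cast congrArg (fun z : ℤ => (z : ℝ)) h1
  have h3 : (t : ℝ) = ((t % (k * c : ℕ) : ℤ) : ℝ) + (k * c) * ((t / (k * c : ℕ) : ℤ) : ℝ) := by
    have := Int.emod_add_mul_ediv t (k * c : ℕ)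
    have h4 : (t : ℝ) = ((t % (k * c : ℕ) + (k * c : ℕ) * (t / (k * c : ℕ)) : ℤ) : ℝ) := by
      exact_mod_cast congrArg (fun z : ℤ => (z : ℝ)) this.symm
    rw [h4]
    push_cast
    ring
  rw [h2]
  have h5 : ((t : ℝ) + u) / (k * c) = (((t % (k * c : ℕ) : ℤ) : ℝ) + u) / (k * c) +
      ((t / (k * c : ℕ) : ℤ) : ℝ) := by
    rw [h3]
    field_simp
    ring
  rw [h5, AddCircle.coe_add]
  have h6 : ((((t / (k * c : ℕ) : ℤ) : ℝ)) : AddCircle (1 : ℝ)) = 0 := by
    rw [AddCircle.coe_eq_zero_iff]
    exact ⟨t / (k * c : ℕ), by simp⟩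
  rw [h6, add_zero]

/-- the arc system as a general arc system -/
def Bands.arcs (A : Bands E k β) (hk : 0 < k) :
    G2.Arcs E (fun _ => k * c) (fun _ => letter k β) where
  kap := A.kap
  disj := A.disj
  pos := by
    intro j t e u r hw hu
    have h1 := A.ends e (t % (k * c : ℕ)).toNat u r hu
    rw [← sector_eq hk] at h1
    push_cast
    rw [h1]
    unfold letter at hw
    split_ifs at hw with h2 h3
    · simp only [Option.some.injEq, Prod.mk.injEq, and_true] at hw
      rw [if_pos ⟨hw, by rw [← hw]; exact h2⟩]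
    · simp at hw
  neg := by
    intro j t e u r hw hu
    have h1 := A.ends e (t % (k * c : ℕ)).toNat u r hu
    rw [← sector_eq hk] at h1
    push_cast
    rw [h1]
    unfold letter at hw
    split_ifs at hw with h2 h3
    · simp at hw
    · simp only [Option.some.injEq, Prod.mk.injEq, and_true] at hw
      rw [if_neg, if_pos ⟨hw, by rw [← hw]; exact h3⟩]
      rintro ⟨-, h4⟩
      rw [← hw] at h4
      exact h2 h4
  zero := by
    intro j t e u r hw hu
    have h1 := A.ends e (t % (k * c : ℕ)).toNat u r hu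
    rw [← sector_eq hk] at h1
    push_cast
    rw [h1]
    unfold letter at hw
    rw [if_neg, if_neg]
    · exact AddCircle.coe_zero ..
    · rintro ⟨h4, h5⟩
      apply hw false
      rw [h4, if_neg (by omega), if_pos h5]
    · rintro ⟨h4, h5⟩
      apply hw true
      rw [h4, if_pos h5]
  reach := fun x hx => by
    obtain ⟨z, hz⟩ := A.reach x hx
    exact ⟨(), z, hz⟩

/-- the holonomy of the boundary word -/
theorem hol_letter (iso : ℕ → ℝ ≃o ℝ) : ∀ n ≤ k * c, ∀ t,
    G2.prodDown (fun i => G2.lett (fun e : Fin c => iso e) (letter k β i)) (-1) n t =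
      hol (fun m => colN β (m % c)) (fun m => iso (m % c)) 0 n t := by
  intro n
  induction n with
  | zero => intro _ t; rfl
  | succ n ih =>
    intro hn t
    rw [G2.prodDown_succ, RelIso.mul_apply, ih (by omega)]
    have h : (-1 : ℤ) + n + 1 = n := by ring
    rw [h, letter_nat β (by omega)]
    show _ = stepHol (iso (n % c)) (colN β (n % c)) (lev (fun m => colN β (m % c)) 0 n)
      (hol (fun m => colN β (m % c)) (fun m => iso (m % c)) 0 n t)
    rw [colN_mod β n, ← level_eq]
    unfold stepHol colN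
    split_ifs with h1 h2
    · rfl
    · rfl
    · rfl

end

end Pool.Agent.H.MP_1611f1_gt.PB
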