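import Mathlib

/-! Heaps of pieces and their conjugation by whole layers. -/

namespace Pool.Agent.H.MP_1611f1_gt.PB

section Trace

variable {G : Type*} [Group G]

/-- If `R x y` says that `x` may stand before `y`, and any two elements which may stand
in both orders commute, then two `R`-compatible arrangements have the same product. -/
theorem trace_prod {κ : Type*} (g : κ → G) (R : κ → κ → Prop)
    (hR : ∀ x y, R x y → R y x → Commute (g x) (g y)) :
    ∀ (L₁ L₂ : List κ), L₁.Perm L₂ → L₁.Pairwise R → L₂.Pairwise R →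
      (L₁.map g).prod = (L₂.map g).prod := by
  intro L₁
  induction L₁ with
  | nil =>
    intro L₂ hp _ _
    have : L₂ = [] := List.Perm.nil_eq hp |>.symm
    subst this
    rfl
  | cons x L ih =>
    intro L₂ hp h1 h2
    have hx : x ∈ L₂ := hp.subset (List.mem_cons_self)
    obtain ⟨A, B, rfl⟩ := List.append_of_mem hx
    have hp' : L.Perm (A ++ B) := by
      have h3 : (x :: L).Perm (x :: (A ++ B)) := hp.trans List.perm_middle
      exact (List.perm_cons x).1 h3
    rw [List.pairwise_cons] at h1
    have h2' : (A ++ B).Pairwise R := by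
      refine h2.sublist ?_
      exact List.Sublist.append (List.Sublist.refl A) (List.sublist_cons_self x B)
    have e1 := ih (A ++ B) hp' h1.2 h2'
    have hcomm : ∀ a ∈ A, Commute (g a) (g x) := by
      intro a ha
      have hxa : R x a := h1.1 a (hp'.symm.subset (List.mem_append_left _ ha))
      have hax : R a x := by
        rw [List.pairwise_append] at h2
        exact h2.2.2 a ha x (List.mem_cons_self)
      exact hR a x hax hxa
    have hA : Commute ((A.map g).prod) (g x) := by
      clear h2 h2' e1 hp' hp hx ih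
      induction A with
      | nil => simp
      | cons a A ihA =>
        rw [List.map_cons, List.prod_cons]
        exact Commute.mul_left (hcomm a (List.mem_cons_self))
          (ihA (fun b hb => hcomm b (List.mem_cons_of_mem _ hb)))
    rw [List.map_cons, List.prod_cons, e1, List.map_append, List.prod_append, List.map_append,
      List.prod_append, List.map_cons, List.prod_cons, ← mul_assoc, ← mul_assoc, hA.eq]

end Trace

section Heap

variable {G : Type*} [Group G] {ι : Type*} [Fintype ι] [DecidableEq ι]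

/-- A list without repetition of the elements of a finite set, sorted by decreasing value. -/
theorem exists_sorted_list {κ : Type*} [DecidableEq κ] (f : κ → ℤ) (S : Finset κ) :
    ∃ M : List κ, M.Nodup ∧ (∀ p, p ∈ M ↔ p ∈ S) ∧ M.Pairwise (fun p q => f q ≤ f p) := by
  refine Finset.induction_on_max_value f S
    (motive := fun S => ∃ M : List κ, M.Nodup ∧ (∀ p, p ∈ M ↔ p ∈ S) ∧
      M.Pairwise (fun p q => f q ≤ f p)) ?_ ?_
  · exact ⟨[], List.nodup_nil, by simp, List.Pairwise.nil⟩
  · rintro a s ha hmax ⟨M, hM1, hM2, hM3⟩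
    refine ⟨a :: M, ?_, ?_, ?_⟩
    · rw [List.nodup_cons]
      exact ⟨fun h => ha ((hM2 a).1 h), hM1⟩
    · intro p
      rw [List.mem_cons, Finset.mem_insert, hM2]
    · rw [List.pairwise_cons]
      exact ⟨fun b hb => hmax b ((hM2 b).1 hb), hM3⟩

/-- The main step, for nonnegative times. -/
theorem heap_conj_nonneg (g : ι → G) (cross : ι → ι → Prop)
    (hsymm : ∀ x y, cross x y → cross y x)
    (hcomm : ∀ x y, ¬ cross x y → x = y ∨ Commute (g x) (g y))
    (τ : ι → ℤ) (P : ℕ) (hP : 0 < P) (hτ : ∀ x, 0 ≤ τ x) (L : List ι) (hnd : L.Nodup)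
    (hall : ∀ x, x ∈ L)
    (hord : L.Pairwise (fun x y => cross x y → 0 < τ x - τ y ∧ τ x - τ y < P))
    (C : List ι) (hCnd : C.Nodup) (hCall : ∀ x, x ∈ C)
    (hC : C.Pairwise (fun x y => τ y % P ≤ τ x % P)) :
    ∃ u ∈ Subgroup.closure (Set.range g), u * (L.map g).prod * u⁻¹ = (C.map g).prod := by
  classical
  have hP' : (0 : ℤ) < P := by exact_mod_cast hP
  -- the compatibility relation on pieces
  set R : ι × ℤ → ι × ℤ → Prop := fun p q => cross p.1 q.1 → q.2 < p.2 with hRdef
  set g' : ι × ℤ → G := fun p => g p.1 with hg'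
  have hR : ∀ p q, R p q → R q p → Commute (g' p) (g' q) := by
    intro p q h1 h2
    by_cases hc : cross p.1 q.1
    · have := h1 hc
      have := h2 (hsymm _ _ hc)
      omega
    · rcases hcomm p.1 q.1 hc with h | h
      · show Commute (g p.1) (g q.1)
        rw [h]
      · exact h
  -- crossing pairs
  have hcr : ∀ x y, cross x y → x ≠ y → (0 < τ x - τ y ∧ τ x - τ y < P) ∨
      (0 < τ y - τ x ∧ τ y - τ x < P) := by
    intro x y hxy hne
    obtain ⟨A, B, hAB⟩ := List.append_of_mem (hall x)
    rw [hAB, List.pairwise_append, List.pairwise_cons] at hord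
    have hy := hall y
    rw [hAB, List.mem_append, List.mem_cons] at hy
    rcases hy with hy | hy | hy
    · right
      exact hord.2.2 y hy x (List.mem_cons_self) (hsymm _ _ hxy)
    · exact absurd hy.symm hne
    · left
      exact hord.2.1.1 y hy hxy
  have hmodne : ∀ x y, cross x y → x ≠ y → ∀ s t : ℤ, (P : ℤ) ∣ τ x - s → (P : ℤ) ∣ τ y - t →
      s ≠ t := by
    rintro x y hxy hne s t ⟨a, ha⟩ ⟨b, hb⟩ rfl
    have h1 : τ x - τ y = P * (a - b) := by
      rw [mul_sub]; omega
    rcases hcr x y hxy hne with ⟨h2, h3⟩ | ⟨h2, h3⟩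
    · rw [h1] at h2 h3
      have h4 : 0 < a - b := by
        by_contra h
        have : (P : ℤ) * (a - b) ≤ 0 := mul_nonpos_of_nonneg_of_nonpos hP'.le (by omega)
        omega
      have : (P : ℤ) * 1 ≤ P * (a - b) := mul_le_mul_of_nonneg_left (by omega) hP'.le
      omega
    · have h1' : τ y - τ x = P * (b - a) := by
        rw [mul_sub]; rw [mul_sub] at h1; omega
      rw [h1'] at h2 h3
      have h4 : 0 < b - a := by
        by_contra h
        have : (P : ℤ) * (b - a) ≤ 0 := mul_nonpos_of_nonneg_of_nonpos hP'.le (by omega)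
        omega
      have : (P : ℤ) * 1 ≤ P * (b - a) := mul_le_mul_of_nonneg_left (by omega) hP'.le
      omega
  -- sorted lists of pieces are compatible
  have hsorted : ∀ N : List (ι × ℤ), N.Nodup → (∀ p ∈ N, (P : ℤ) ∣ τ p.1 - p.2) →
      N.Pairwise (fun p q => q.2 ≤ p.2) → N.Pairwise R := by
    intro N hN hdiv hs
    have h0 : N.Pairwise (fun p q => p ≠ q ∧ q.2 ≤ p.2) := List.Pairwise.and hN hs
    refine List.Pairwise.imp_of_mem ?_ h0
    intro p q hp hq hpq hc
    rcases lt_or_eq_of_le hpq.2 with h | h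
    · exact h
    · exfalso
      by_cases he : p.1 = q.1
      · exact hpq.1 (Prod.ext he h.symm)
      · exact hmodne p.1 q.1 hc he p.2 q.2 (hdiv p hp) (hdiv q hq) h.symm
  -- the finite set of lower pieces
  obtain ⟨T, hT⟩ : ∃ T : ℤ, ∀ x, τ x ≤ T := by
    refine ⟨∑ x, τ x, fun x => ?_⟩
    exact Finset.single_le_sum (fun y _ => hτ y) (Finset.mem_univ x)
  set S : Finset (ι × ℤ) := ((Finset.univ : Finset ι) ×ˢ Finset.Ico (0 : ℤ) T).filter
    (fun p => p.2 < τ p.1 ∧ (P : ℤ) ∣ τ p.1 - p.2) with hSdef
  have hSmem : ∀ p : ι × ℤ, p ∈ S ↔ 0 ≤ p.2 ∧ p.2 < τ p.1 ∧ (P : ℤ) ∣ τ p.1 - p.2 := by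
    intro p
    rw [hSdef, Finset.mem_filter, Finset.mem_product, Finset.mem_Ico]
    constructor
    · rintro ⟨⟨-, h1, h2⟩, h3, h4⟩
      exact ⟨h1, h3, h4⟩
    · rintro ⟨h1, h3, h4⟩
      exact ⟨⟨Finset.mem_univ _, h1, lt_of_lt_of_le h3 (hT _)⟩, h3, h4⟩
  obtain ⟨M, hM1, hM2, hM3⟩ := exists_sorted_list (fun p : ι × ℤ => p.2) S
  set up : ι × ℤ → ι × ℤ := fun p => (p.1, p.2 + P) with hup
  have hupinj : Function.Injective up := by
    rintro ⟨x, s⟩ ⟨y, t⟩ h
    simp only [hup, Prod.mk.injEq, add_left_inj] at h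
    exact Prod.ext h.1 h.2
  set W : List (ι × ℤ) := L.map (fun x => (x, τ x)) with hW
  set C' : List (ι × ℤ) := C.map (fun x => (x, τ x % P)) with hC'
  set M' : List (ι × ℤ) := M.map up with hM'
  have hWnd : W.Nodup := hnd.map (fun x y h => (Prod.mk.inj h).1)
  have hC'nd : C'.Nodup := hCnd.map (fun x y h => (Prod.mk.inj h).1)
  have hM'nd : M'.Nodup := hM1.map hupinj
  have hWmem : ∀ p : ι × ℤ, p ∈ W ↔ p.2 = τ p.1 := by
    intro p
    rw [hW, List.mem_map]
    constructor
    · rintro ⟨x, -, rfl⟩
      rfl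
    · intro h
      exact ⟨p.1, hall _, Prod.ext rfl h.symm⟩
  have hC'mem : ∀ p : ι × ℤ, p ∈ C' ↔ p.2 = τ p.1 % P := by
    intro p
    rw [hC', List.mem_map]
    constructor
    · rintro ⟨x, -, rfl⟩
      rfl
    · intro h
      exact ⟨p.1, hCall _, Prod.ext rfl h.symm⟩
  have hM'mem : ∀ p : ι × ℤ, p ∈ M' ↔ P ≤ p.2 ∧ p.2 - P < τ p.1 ∧ (P : ℤ) ∣ τ p.1 - p.2 := by
    intro p
    rw [hM', List.mem_map]
    constructor
    · rintro ⟨q, hq, rfl⟩
      have := (hSmem q).1 ((hM2 q).1 hq)
      obtain ⟨h1, h2, h3⟩ := this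
      refine ⟨by simp only [hup]; omega, by simp only [hup]; omega, ?_⟩
      simp only [hup]
      have : τ q.1 - (q.2 + P) = (τ q.1 - q.2) - P := by ring
      rw [this]
      exact dvd_sub h3 (dvd_refl _)
    · rintro ⟨h1, h2, h3⟩
      refine ⟨(p.1, p.2 - P), ?_, ?_⟩
      · rw [hM2, hSmem]
        refine ⟨by simp only; omega, by simp only; omega, ?_⟩
        simp only
        have : τ p.1 - (p.2 - P) = (τ p.1 - p.2) + P := by ring
        rw [this]
        exact dvd_add h3 (dvd_refl _)
      · simp [hup]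
  -- list 1
  have hWM : (W ++ M).Pairwise R := by
    rw [List.pairwise_append]
    refine ⟨?_, ?_, ?_⟩
    · rw [hW, List.pairwise_map]
      exact hord.imp (fun {x y} h hc => by
        have := (h hc).1
        show τ y < τ x
        omega)
    · exact hsorted M hM1 (fun p hp => ((hSmem p).1 ((hM2 p).1 hp)).2.2) hM3
    · intro p hp q hq hc
      have h1 := (hWmem p).1 hp
      obtain ⟨h2, h3, k, h4⟩ := (hSmem q).1 ((hM2 q).1 hq)
      show q.2 < p.2
      have hk : 0 < k := by
        by_contra h
        have : (P : ℤ) * k ≤ 0 := mul_nonpos_of_nonneg_of_nonpos hP'.le (by omega)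
        omega
      have hk' : (P : ℤ) * 1 ≤ P * k := mul_le_mul_of_nonneg_left (by omega) hP'.le
      by_cases he : p.1 = q.1
      · rw [h1, he]; omega
      · rcases hcr _ _ hc he with ⟨h5, h6⟩ | ⟨h5, h6⟩ <;> omega
  -- list 2
  have hMC : (M' ++ C').Pairwise R := by
    rw [List.pairwise_append]
    refine ⟨?_, ?_, ?_⟩
    · refine hsorted M' hM'nd (fun p hp => ((hM'mem p).1 hp).2.2) ?_
      rw [hM', List.pairwise_map]
      exact hM3.imp (fun {p q} h => by
        show q.2 + P ≤ p.2 + P
        exact add_le_add_left h _)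
    · refine hsorted C' hC'nd ?_ ?_
      · intro p hp
        rw [(hC'mem p).1 hp]
        exact Int.dvd_self_sub_emod
      · rw [hC', List.pairwise_map]
        exact hC
    · intro p hp q hq hc
      have h1 := ((hM'mem p).1 hp).1
      have h2 := (hC'mem q).1 hq
      have h3 : τ q.1 % P < P := Int.emod_lt_of_pos _ hP'
      show q.2 < p.2
      omega
  -- permutation
  have hperm : (W ++ M).Perm (M' ++ C') := by
    have hn1 : (W ++ M).Nodup := by
      rw [List.nodup_append]
      refine ⟨hWnd, hM1, ?_⟩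
      rintro p hp q hq rfl
      have h1 := (hWmem p).1 hp
      have h2 := ((hSmem p).1 ((hM2 p).1 hq)).2.1
      omega
    have hn2 : (M' ++ C').Nodup := by
      rw [List.nodup_append]
      refine ⟨hM'nd, hC'nd, ?_⟩
      rintro p hp q hq rfl
      have h1 := ((hM'mem p).1 hp).1
      have h2 := (hC'mem p).1 hq
      have h3 : τ p.1 % P < P := Int.emod_lt_of_pos _ hP'
      omega
    rw [List.perm_ext_iff_of_nodup hn1 hn2]
    intro p
    rw [List.mem_append, List.mem_append, hWmem, hM2, hSmem, hM'mem, hC'mem]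
    have hmod0 : 0 ≤ τ p.1 % P := Int.emod_nonneg _ (by omega)
    have hmod1 : τ p.1 % P < P := Int.emod_lt_of_pos _ hP'
    have hmod2 : (P : ℤ) ∣ τ p.1 - τ p.1 % P := Int.dvd_self_sub_emod
    have hmodle : τ p.1 % P ≤ τ p.1 := by
      have h1 : 0 ≤ τ p.1 / P := Int.ediv_nonneg (hτ _) hP'.le
      have h2 := Int.emod_add_mul_ediv (τ p.1) P
      have h3 : 0 ≤ (P : ℤ) * (τ p.1 / P) := mul_nonneg hP'.le h1
      omega
    constructor
    · rintro (h | ⟨h1, h2, h3⟩)
      · by_cases hlt : p.2 < P
        · right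
          rw [h]
          exact (Int.emod_eq_of_lt (hτ _) (by omega)).symm
        · left
          refine ⟨by omega, by omega, ?_⟩
          rw [h]; simp
      · by_cases hlt : p.2 < P
        · right
          have h4 : (τ p.1) % P = p.2 % P := (Int.modEq_iff_dvd.2 h3).symm
          rw [h4]
          exact (Int.emod_eq_of_lt h1 hlt).symm
        · left
          exact ⟨by omega, by omega, h3⟩
    · rintro (⟨h1, h2, h3⟩ | h)
      · by_cases he : p.2 = τ p.1
        · left; exact he
        · right
          refine ⟨by omega, ?_, h3⟩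
          obtain ⟨k, hk⟩ := h3
          by_contra hcon
          have hk1 : k < 0 := by
            by_contra h
            have : (P : ℤ) * 0 ≤ P * k := mul_le_mul_of_nonneg_left (by omega) hP'.le
            omega
          have hk2 : (P : ℤ) * k ≤ P * (-1) := mul_le_mul_of_nonneg_left (by omega) hP'.le
          omega
      · by_cases he : p.2 = τ p.1
        · left; exact he
        · right
          rw [h]
          exact ⟨hmod0, by omega, hmod2⟩
  have key := trace_prod g' R hR _ _ hperm hWM hMC
  rw [List.map_append, List.prod_append, List.map_append, List.prod_append] at key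
  have e1 : W.map g' = L.map g := by
    rw [hW, List.map_map]; rfl
  have e2 : C'.map g' = C.map g := by
    rw [hC', List.map_map]; rfl
  have e3 : M'.map g' = M.map g' := by
    rw [hM', List.map_map]; rfl
  rw [e1, e2, e3] at key
  refine ⟨((M.map g').prod)⁻¹, ?_, ?_⟩
  · refine Subgroup.inv_mem _ (Subgroup.list_prod_mem _ ?_)
    intro z hz
    rw [List.mem_map] at hz
    obtain ⟨p, -, rfl⟩ := hz
    exact Subgroup.subset_closure ⟨p.1, rfl⟩
  · rw [inv_inv, mul_assoc, key, inv_mul_cancel_left]

/-- The heap of `L` is conjugate to the heap whose times are reduced modulo `P`. -/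
theorem heap_conj_sorted (g : ι → G) (cross : ι → ι → Prop)
    (hsymm : ∀ x y, cross x y → cross y x)
    (hcomm : ∀ x y, ¬ cross x y → x = y ∨ Commute (g x) (g y))
    (τ : ι → ℤ) (P : ℕ) (hP : 0 < P) (L : List ι) (hnd : L.Nodup)
    (hall : ∀ x, x ∈ L)
    (hord : L.Pairwise (fun x y => cross x y → 0 < τ x - τ y ∧ τ x - τ y < P))
    (C : List ι) (hCnd : C.Nodup) (hCall : ∀ x, x ∈ C)
    (hC : C.Pairwise (fun x y => τ y % P ≤ τ x % P)) :
    ∃ u ∈ Subgroup.closure (Set.range g), u * (L.map g).prod * u⁻¹ = (C.map g).prod := by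
  classical
  have hP' : (0 : ℤ) < P := by exact_mod_cast hP
  set K : ℤ := ∑ x, |τ x| with hK
  have hKx : ∀ x, |τ x| ≤ K := fun x =>
    Finset.single_le_sum (fun y _ => abs_nonneg (τ y)) (Finset.mem_univ x)
  have hK0 : 0 ≤ K := Finset.sum_nonneg (fun y _ => abs_nonneg (τ y))
  refine heap_conj_nonneg g cross hsymm hcomm (fun x => τ x + K * P) P hP ?_ L hnd hall ?_ C hCnd
    hCall ?_
  · intro x
    have h1 := hKx x
    have h2 := neg_abs_le (τ x)
    have h3 : K * 1 ≤ K * P := mul_le_mul_of_nonneg_left (by omega) hK0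
    show 0 ≤ τ x + K * P
    omega
  · exact hord.imp (fun {x y} h hc => by
      have := h hc
      constructor
      · show 0 < τ x + K * P - (τ y + K * P)
        omega
      · show τ x + K * P - (τ y + K * P) < P
        omega)
  · exact hC.imp (fun {x y} h => by
      show (τ y + K * P) % P ≤ (τ x + K * P) % P
      rw [Int.add_mul_emod_self_right, Int.add_mul_emod_self_right]
      exact h)

/-- Version with blocks: `B i` lists the elements of residue `i`. -/
theorem heap_conj_blocks (g : ι → G) (cross : ι → ι → Prop)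
    (hsymm : ∀ x y, cross x y → cross y x)
    (hcomm : ∀ x y, ¬ cross x y → x = y ∨ Commute (g x) (g y))
    (τ : ι → ℤ) (P : ℕ) (hP : 0 < P) (L : List ι) (hnd : L.Nodup)
    (hall : ∀ x, x ∈ L)
    (hord : L.Pairwise (fun x y => cross x y → 0 < τ x - τ y ∧ τ x - τ y < P))
    (B : ℕ → List ι) (hBnd : ∀ i, i < P → (B i).Nodup)
    (hBmem : ∀ i, i < P → ∀ x, x ∈ B i ↔ τ x % P = i) :
    ∃ u ∈ Subgroup.closure (Set.range g), u * (L.map g).prod * u⁻¹ =
      ((List.range P).reverse.map (fun i => ((B i).map g).prod)).prod := by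
  classical
  have hP' : (0 : ℤ) < P := by exact_mod_cast hP
  set C : List ι := (List.range P).reverse.flatMap B with hCdef
  have hmemC : ∀ x, x ∈ C ↔ ∃ i, i < P ∧ x ∈ B i := by
    intro x
    rw [hCdef, List.mem_flatMap]
    constructor
    · rintro ⟨i, hi, hx⟩
      rw [List.mem_reverse, List.mem_range] at hi
      exact ⟨i, hi, hx⟩
    · rintro ⟨i, hi, hx⟩
      exact ⟨i, by rw [List.mem_reverse, List.mem_range]; exact hi, hx⟩
  have hCall : ∀ x, x ∈ C := by
    intro x
    rw [hmemC]
    have h1 : 0 ≤ τ x % P := Int.emod_nonneg _ (by omega)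
    have h2 : τ x % P < P := Int.emod_lt_of_pos _ hP'
    refine ⟨(τ x % P).toNat, by omega, ?_⟩
    rw [hBmem _ (by omega)]
    omega
  have hCnd : C.Nodup := by
    rw [hCdef, List.nodup_flatMap]
    refine ⟨fun i hi => hBnd i ?_, ?_⟩
    · rw [List.mem_reverse, List.mem_range] at hi
      exact hi
    · have h0 : ((List.range P).reverse).Nodup := List.nodup_reverse.2 List.nodup_range
      refine List.Pairwise.imp_of_mem ?_ h0
      intro i j hi hj hij
      rw [List.mem_reverse, List.mem_range] at hi hj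
      show List.Disjoint (B i) (B j)
      intro x hx1 hx2
      rw [hBmem i hi] at hx1
      rw [hBmem j hj] at hx2
      apply hij
      omega
  have hC : C.Pairwise (fun x y => τ y % P ≤ τ x % P) := by
    rw [hCdef, List.pairwise_flatMap]
    constructor
    · intro i hi
      rw [List.mem_reverse, List.mem_range] at hi
      refine List.Pairwise.imp_of_mem ?_ (hBnd i hi)
      intro x y hx hy _
      rw [hBmem i hi] at hx hy
      omega
    · have h0 : ((List.range P).reverse).Pairwise (fun i j => j < i) := by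
        rw [List.pairwise_reverse]
        exact List.pairwise_lt_range
      refine List.Pairwise.imp_of_mem ?_ h0
      intro i j hi hj hij x hx y hy
      rw [List.mem_reverse, List.mem_range] at hi hj
      rw [hBmem i hi] at hx
      rw [hBmem j hj] at hy
      omega
  obtain ⟨u, hu, h⟩ := heap_conj_sorted g cross hsymm hcomm τ P hP L hnd hall hord C hCnd hCall hC
  refine ⟨u, hu, ?_⟩
  rw [h, hCdef]
  clear_value C
  clear h hu hC hCnd hCall hmemC
  generalize (List.range P).reverse = N
  induction N with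
  | nil => simp
  | cons a N ih =>
    rw [List.flatMap_cons, List.map_append, List.prod_append, ih, List.map_cons, List.prod_cons]

/-- Version with the filtered blocks of the full finite set. -/
theorem heap_conj (g : ι → G) (cross : ι → ι → Prop)
    (hsymm : ∀ x y, cross x y → cross y x)
    (hcomm : ∀ x y, ¬ cross x y → x = y ∨ Commute (g x) (g y))
    (τ : ι → ℤ) (P : ℕ) (hP : 0 < P) (L : List ι) (hnd : L.Nodup)
    (hall : ∀ x, x ∈ L)
    (hord : L.Pairwise (fun x y => cross x y → 0 < τ x - τ y ∧ τ x - τ y < P)) :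
    ∃ u ∈ Subgroup.closure (Set.range g), u * (L.map g).prod * u⁻¹ =
      ((List.range P).reverse.map (fun i : ℕ =>
        (((Finset.univ.filter (fun x => τ x % P = (i : ℤ))).toList).map g).prod)).prod := by
  refine heap_conj_blocks g cross hsymm hcomm τ P hP L hnd hall hord
    (fun i => (Finset.univ.filter (fun x => τ x % P = (i : ℤ))).toList) ?_ ?_
  · intro i _
    exact Finset.nodup_toList _
  · intro i _ x
    rw [Finset.mem_toList, Finset.mem_filter]
    simp

end Heap

end Pool.Agent.H.MP_1611f1_gt.PB
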