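import Pool.Agent.H.MP_1611f1_gt.PB.Stmt
import Pool.Agent.H.MP_1611f1_gt.PB.Heap
import Pool.Agent.H.MP_1611f1_gt.G2.GenMain

/-!
The factors of the monodromy sorted by the times.
-/

namespace Pool.Agent.H.MP_1611f1_gt.PB

open Topology Set Filter

section

variable {c : ℕ} (β : Fin c → ℕ)

/-- the type of the bricks (given by the lower letter) -/
abbrev BrickT : Type := {m : Fin c // ∃ m', Brick β m m'}

theorem Brick.unique {β : Fin c → ℕ} {m a b : Fin c} (ha : Brick β m a) (hb : Brick β m b) :
    a = b := by
  rcases lt_trichotomy a b with h | h | h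
  · exact absurd ha.2.1 (hb.2.2 a ha.1 h)
  · exact h
  · exact absurd hb.2.1 (ha.2.2 b hb.1 h)

/-- crossing of bricks -/
def crossT (x y : BrickT β) : Prop :=
  ∃ x' y', Brick β x.1 x' ∧ Brick β y.1 y' ∧ Cross β x.1 x' y.1 y'

theorem Cross.symm' {β : Fin c → ℕ} {m m' d d' : Fin c} (h : Cross β m m' d d') :
    Cross β d d' m m' := by
  rcases h with h | h | ⟨h1, h2⟩
  · exact Or.inr (Or.inl h)
  · exact Or.inl h
  · exact Or.inr (Or.inr ⟨h1.symm, h2.symm⟩)

theorem crossT_symm (x y : BrickT β) (h : crossT β x y) : crossT β y x := by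
  obtain ⟨x', y', h1, h2, h3⟩ := h
  exact ⟨y', x', h2, h1, h3.symm'⟩

open Classical in
/-- the bricks of the column `i` in the order of the word -/
noncomputable def colList (i : ℕ) : List (BrickT β) :=
  ((List.finRange c).filter fun m => β m = i ∧ ∃ m', Brick β m m').attach.map
    fun m => ⟨m.1, by
      have := m.2
      rw [List.mem_filter] at this
      simpa using (of_decide_eq_true this.2).2⟩

/-- all bricks in the order of the columns -/
noncomputable def allList (k : ℕ) : List (BrickT β) :=
  (List.range (k - 1)).flatMap (colList β)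

theorem mem_colList {i : ℕ} {x : BrickT β} : x ∈ colList β i ↔ β x.1 = i := by
  classical
  unfold colList
  rw [List.mem_map]
  constructor
  · rintro ⟨m, -, rfl⟩
    have := m.2
    rw [List.mem_filter] at this
    exact (of_decide_eq_true this.2).1
  · intro h
    refine ⟨⟨x.1, ?_⟩, List.mem_attach _ _, rfl⟩
    rw [List.mem_filter]
    exact ⟨List.mem_finRange _, decide_eq_true ⟨h, x.2⟩⟩

theorem colList_pairwise (i : ℕ) : (colList β i).Pairwise fun x y => x.1 < y.1 := by
  classical
  unfold colList
  rw [List.pairwise_map]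
  have h1 : ((List.finRange c).filter fun m => β m = i ∧ ∃ m', Brick β m m').Pairwise
      fun x y => x < y := (List.pairwise_lt_finRange c).filter _
  rw [← List.attach_map_subtype_val
    ((List.finRange c).filter fun m => β m = i ∧ ∃ m', Brick β m m'), List.pairwise_map] at h1
  exact h1

theorem mem_allList {k : ℕ} (hβ : ∀ m, β m + 1 < k) (x : BrickT β) : x ∈ allList β k := by
  unfold allList
  rw [List.mem_flatMap]
  have := hβ x.1
  exact ⟨β x.1, List.mem_range.2 (by omega), (mem_colList β).2 rfl⟩

theorem allList_pairwise (k : ℕ) : (allList β k).Pairwise fun x y =>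
    β x.1 < β y.1 ∨ (β x.1 = β y.1 ∧ x.1 < y.1) := by
  unfold allList
  rw [List.pairwise_flatMap]
  constructor
  · intro i _
    refine (List.pairwise_iff_forall_sublist.2 fun {a b} hab => ?_)
    have ha : a ∈ colList β i := hab.subset (by simp)
    have hb : b ∈ colList β i := hab.subset (by simp)
    rw [mem_colList] at ha hb
    exact Or.inr ⟨ha.trans hb.symm,
      List.pairwise_iff_forall_sublist.1 (colList_pairwise β i) hab⟩
  · refine (List.pairwise_lt_range (n := k - 1)).imp fun {a b} hab x hx y hy => ?_
    rw [mem_colList] at hx hy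
    left
    omega

theorem allList_nodup (k : ℕ) : (allList β k).Nodup := by
  refine (allList_pairwise β k).imp fun {a b} h => ?_
  rintro rfl
  rcases h with h | ⟨-, h⟩
  · exact lt_irrefl _ h
  · exact lt_irrefl _ h

end

section

variable {S : Type*} [TopologicalSpace S] {E : Surf S Unit} {k c : ℕ} [NeZero c]
  {β : Fin c → ℕ} {A : Bands E k β} (H : Bricks A)

theorem prod_flatMap' {G ι : Type*} [Monoid G] (l : List ι) {κ : Type*} (f : ι → List κ)
    (g : κ → G) : ((l.flatMap f).map g).prod = (l.map fun i => ((f i).map g).prod).prod := by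
  induction l with
  | nil => rfl
  | cons a l ih => simp [List.flatMap_cons, ih]

theorem allList_prod : ((allList β k).map fun x => H.h x.1).prod = H.phi := by
  classical
  unfold allList Bricks.phi
  rw [prod_flatMap']
  congr 1
  refine List.map_congr_left fun i _ => ?_
  congr 1
  unfold colList
  rw [List.map_map]
  conv_rhs => rw [← List.attach_map_subtype_val
    ((List.finRange c).filter fun m => β m = i ∧ ∃ m', Brick β m m')]
  rw [List.map_map]
  rfl

open Classical in
/-- the factor of the monodromy at the time `i`: the bricks of this time modulo `T` -/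
noncomputable def factor (τ : BrickT β → ℤ) (T : ℕ) (i : ℤ) : S ≃ₜ S :=
  (((Finset.univ.filter fun b : BrickT β => τ b % T = i % T).toList).map
    fun b => H.h b.1).prod

theorem factor_per (τ : BrickT β → ℤ) (T : ℕ) (i : ℤ) :
    factor H τ T (i + T) = factor H τ T i := by
  unfold factor
  rw [Int.add_emod_right]

theorem factor_collar (τ : BrickT β → ℤ) (T : ℕ) (i : ℤ) (z) :
    factor H τ T i (E.collar () z) = E.collar () z := by
  classical
  unfold factor
  generalize (Finset.univ.filter fun b : BrickT β => τ b % T = i % T).toList = l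
  induction l with
  | nil => rfl
  | cons b l ih =>
    rw [List.map_cons, List.prod_cons]
    show (H.h b.1) ((l.map fun b => H.h b.1).prod (E.collar () z)) = _
    rw [ih, H.h_collar]

theorem factor_kap (τ : BrickT β → ℤ) (T : ℕ) (i : ℤ) (e : Fin c)
    (he : ∀ b : BrickT β, τ b % T = i % T → b.1 ≠ e ∧ ∀ b', Brick β b.1 b' → b' ≠ e) (y : S) :
    A.kap e (factor H τ T i y) = A.kap e y := by
  classical
  unfold factor
  have hl : ∀ b ∈ (Finset.univ.filter fun b : BrickT β => τ b % T = i % T).toList,
      b.1 ≠ e ∧ ∀ b', Brick β b.1 b' → b' ≠ e := fun b hb => by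
    rw [Finset.mem_toList, Finset.mem_filter] at hb
    exact he b hb.2
  generalize (Finset.univ.filter fun b : BrickT β => τ b % T = i % T).toList = l at hl
  induction l generalizing y with
  | nil => rfl
  | cons b l ih =>
    rw [List.map_cons, List.prod_cons]
    show A.kap e ((H.h b.1) ((l.map fun b => H.h b.1).prod y)) = _
    obtain ⟨b', hb'⟩ := b.2
    have h1 := hl b (by simp)
    rw [H.h_kap b.1 b' hb' e h1.1.symm (h1.2 b' hb').symm]
    exact ih (y := y) fun b hb => hl b (by simp [hb])

/-- sorting the factors by the times -/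
theorem exists_sorted (hβ : ∀ m, β m + 1 < k) (τ : BrickT β → ℤ) {T : ℕ} (hT : 0 < T)
    (h1 : ∀ x y : BrickT β, Brick β x.1 y.1 → τ y < τ x ∧ τ x < τ y + T)
    (h2 : ∀ (x y : BrickT β) (x' y' : Fin c), Brick β x.1 x' → Brick β y.1 y' →
      β y.1 = β x.1 + 1 → x.1 < y' → y.1 < x' → τ y < τ x ∧ τ x < τ y + T) :
    ∃ u ∈ Subgroup.closure (Set.range fun x : BrickT β => H.h x.1),
      u * H.phi * u⁻¹ = G2.prodDown (factor H τ T) (-1) T := by
  classical
  have key := heap_conj (fun x : BrickT β => H.h x.1) (crossT β) (crossT_symm β)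
    (fun x y hxy => by
      by_cases hx : x = y
      · exact Or.inl hx
      right
      obtain ⟨x', hx'⟩ := x.2
      obtain ⟨y', hy'⟩ := y.2
      exact H.comm x.1 x' y.1 y' hx' hy' fun hc => hxy ⟨x', y', hx', hy', hc⟩)
    τ T hT (allList β k) (allList_nodup β k) (mem_allList β hβ) (by
      refine (allList_pairwise β k).imp fun {x y} hxy hc => ?_
      obtain ⟨x', y', hx', hy', hc⟩ := hc
      have goal : τ y < τ x ∧ τ x < τ y + T → 0 < τ x - τ y ∧ τ x - τ y < T := fun h =>
        ⟨by omega, by omega⟩
      apply goal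
      rcases hc with hc | hc | ⟨hc, hc'⟩
      · -- `x' = y`
        exact h1 x y (hc ▸ hx')
      · -- `y' = x`: impossible
        exfalso
        have h3 := hy'.1
        have h4 := hy'.2.1
        rw [hc] at h3 h4
        rcases hxy with h | ⟨-, h⟩
        · omega
        · exact lt_irrefl _ (h.trans h3)
      · rcases hxy with h | ⟨h, -⟩
        · refine h2 x y x' y' hx' hy' (by omega) ?_ ?_
          · rcases hc' with ⟨ha, hb, hd⟩ | ⟨ha, hb, hd⟩
            · exact ha.trans hy'.1
            · exact hb
          · rcases hc' with ⟨ha, hb, hd⟩ | ⟨ha, hb, hd⟩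
            · exact hb
            · exact ha.trans hx'.1
        · exfalso
          omega)
  obtain ⟨u, hu, hu'⟩ := key
  refine ⟨u, hu, ?_⟩
  rw [allList_prod] at hu'
  rw [hu', G2.prodDown_list]
  congr 1
  refine List.map_congr_left fun i hi => ?_
  have hiT : i < T := by simpa using hi
  unfold factor
  rw [Int.emod_eq_of_lt (a := (i : ℤ)) (by positivity) (by exact_mod_cast hiT)]

end

end Pool.Agent.H.MP_1611f1_gt.PB
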