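import Pool.Agent.H.MP_1611f1_gt.Defs

/-!
Dehn fillings under conjugation of the monodromy.
-/

namespace Pool.Agent.H.MP_1611f1_gt.PB

open Set Filter Topology

/-- If `Y` is a filling of the mapping torus of `phi` and `u` is the identity on the collars, then
`Y` is also the filling of the mapping torus of `u * phi * u⁻¹` (same `q`, `p' (x, t) = p (u⁻¹ x, t)`). -/
theorem filling_conj {S : Type*} [TopologicalSpace S] {J : Type*} {E : Surf S J} {phi : S ≃ₜ S}
    {al be ga de : J → ℤ} {Y : Type*} [TopologicalSpace Y] (Fl : Filling E phi al be ga de Y)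
    (u : S ≃ₜ S) (hu : ∀ j z, u (E.collar j z) = E.collar j z) :
    Nonempty (Filling E (u * phi * u⁻¹) al be ga de Y) := by
  have hu' : ∀ j z, u.symm (E.collar j z) = E.collar j z := fun j z => by
    rw [u.symm_apply_eq, hu]
  refine ⟨⟨fun z => Fl.p (u.symm z.1, z.2), Fl.q, ?_, ?_, Fl.q_emb, Fl.q_disj, ?_, ?_, ?_⟩⟩
  · exact Fl.p_loc.comp (u.symm.prodCongr (Homeomorph.refl ℝ)).isLocalHomeomorph
  · intro x t x' t'
    change Fl.p (u.symm x, t) = Fl.p (u.symm x', t') ↔ _
    rw [Fl.p_eq]
    apply exists_congr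
    intro k
    apply and_congr_right
    intro _
    rw [conj_zpow]
    change u.symm x = (phi ^ k) (u.symm x') ↔ x = u ((phi ^ k) (u.symm x'))
    exact u.symm_apply_eq
  · intro j θ r t
    change Fl.p (u.symm (E.collar j (θ, r)), t) = _
    rw [hu', Fl.glue]
  · intro x t j z h
    obtain ⟨w, hw⟩ := Fl.overlap (u.symm x) t j z h
    refine ⟨w, ?_⟩
    rw [u.symm_apply_eq] at hw
    rw [hw, hu]
  · intro y
    rcases Fl.cover y with ⟨z, hz⟩ | h
    · refine Or.inl ⟨(u z.1, z.2), ?_⟩
      change Fl.p (u.symm (u z.1), z.2) = y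
      rw [u.symm_apply_apply]
      exact hz
    · exact Or.inr h

/-- the homeomorphisms which are the identity on the collars form a subgroup. -/
theorem closure_collar {S : Type*} [TopologicalSpace S] {J : Type*} {E : Surf S J}
    {ι : Type*} {g : ι → (S ≃ₜ S)} (hg : ∀ i j z, g i (E.collar j z) = E.collar j z) {u : S ≃ₜ S}
    (hu : u ∈ Subgroup.closure (Set.range g)) (j : J) (z : AddCircle (1 : ℝ) × Ioo (1 : ℝ) 2) :
    u (E.collar j z) = E.collar j z := by
  induction hu using Subgroup.closure_induction with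
  | mem x hx =>
    obtain ⟨i, rfl⟩ := hx
    exact hg i j z
  | one => rfl
  | mul x y _ _ h1 h2 =>
    change x (y (E.collar j z)) = _
    rw [h2, h1]
  | inv x _ h =>
    change x.symm (E.collar j z) = _
    rw [x.symm_apply_eq, h]

end Pool.Agent.H.MP_1611f1_gt.PB
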