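import Mathlib

/-!
Two homeomorphisms of the line commuting with the translation by one, each with exactly two
orbits of fixed points (one repelling, one attracting), are conjugate by a homeomorphism
commuting with the translation by one.
-/

namespace Pool.Agent.H.MP_1611f1_gt.PB

open Set

/-- a homeomorphism moving every point of an interval to the right is conjugate there to the
translation by one -/
theorem exists_param (f : ℝ ≃o ℝ) {a b : ℝ} (fa : f a = a) (fb : f b = b)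
    (f1 : ∀ x ∈ Ioo a b, x < f x) (x0 : ℝ) (hx0m : x0 ∈ Ioo a b) :
    ∃ G : ℝ → ℝ, StrictMono G ∧ range G = Ioo a b ∧ G 0 = x0 ∧ ∀ t, G (t + 1) = f (G t) := by
  classical
  set c : ℝ := f x0 - x0 with hc
  have hcpos : 0 < c := by have := f1 x0 hx0m; rw [hc]; linarith
  have hmaps : ∀ x ∈ Ioo a b, f x ∈ Ioo a b := fun x hx =>
    ⟨by rw [← fa]; exact f.strictMono hx.1, by rw [← fb]; exact f.strictMono hx.2⟩
  have hmaps' : ∀ x ∈ Ioo a b, f.symm x ∈ Ioo a b := by
    intro x hx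
    have e1 : f.symm a = a := by rw [OrderIso.symm_apply_eq, fa]
    have e2 : f.symm b = b := by rw [OrderIso.symm_apply_eq, fb]
    exact ⟨by rw [← e1]; exact f.symm.strictMono hx.1, by rw [← e2]; exact f.symm.strictMono hx.2⟩
  have hsucc : ∀ (n : ℤ) (x : ℝ), (f ^ (n + 1)) x = f ((f ^ n) x) := by
    intro n x
    rw [add_comm n 1, zpow_one_add]; rfl
  have hmem : ∀ (n : ℤ) (x : ℝ), x ∈ Ioo a b → (f ^ n) x ∈ Ioo a b := by
    intro n x hx
    induction n using Int.induction_on with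
    | zero => simpa using hx
    | succ n ih => rw [hsucc]; exact hmaps _ ih
    | pred n ih =>
      have h := hsucc (-(n : ℤ) - 1) x
      rw [sub_add_cancel] at h
      have h2 : (f ^ (-(n : ℤ) - 1)) x = f.symm ((f ^ (-(n : ℤ))) x) := by
        rw [h, OrderIso.symm_apply_apply]
      rw [h2]
      exact hmaps' _ ih
  have hseq : StrictMono fun n : ℤ => (f ^ n) x0 := by
    apply strictMono_int_of_lt_succ
    intro n
    change (f ^ n) x0 < (f ^ (n + 1)) x0
    rw [hsucc]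
    exact f1 _ (hmem n x0 hx0m)
  have hup : ∀ y ∈ Ioo a b, ∃ n : ℤ, y < (f ^ n) x0 := by
    intro y hy
    by_contra hcon
    push Not at hcon
    have hbdd : BddAbove (range fun n : ℤ => (f ^ n) x0) := ⟨y, by rintro _ ⟨n, rfl⟩; exact hcon n⟩
    set L := ⨆ n : ℤ, (f ^ n) x0 with hL
    have hle : ∀ n : ℤ, (f ^ n) x0 ≤ L := fun n => le_ciSup hbdd n
    have hLy : L ≤ y := ciSup_le hcon
    have hLm : L ∈ Ioo a b := ⟨lt_of_lt_of_le hx0m.1 (by simpa using hle 0), lt_of_le_of_lt hLy hy.2⟩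
    have h1 : L ≤ f.symm L := by
      apply ciSup_le
      intro n
      rw [OrderIso.le_symm_apply]
      rw [← hsucc]
      exact hle (n + 1)
    have h2 := f1 _ (hmaps' _ hLm)
    rw [OrderIso.apply_symm_apply] at h2
    linarith
  have hlow : ∀ y ∈ Ioo a b, ∃ n : ℤ, (f ^ n) x0 ≤ y := by
    intro y hy
    by_contra hcon
    push Not at hcon
    have hbdd : BddBelow (range fun n : ℤ => (f ^ n) x0) :=
      ⟨y, by rintro _ ⟨n, rfl⟩; exact (hcon n).le⟩
    set L := ⨅ n : ℤ, (f ^ n) x0 with hL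
    have hle : ∀ n : ℤ, L ≤ (f ^ n) x0 := fun n => ciInf_le hbdd n
    have hLy : y ≤ L := le_ciInf fun n => (hcon n).le
    have hLm : L ∈ Ioo a b := ⟨lt_of_lt_of_le hy.1 hLy, lt_of_le_of_lt (by simpa using hle 0) hx0m.2⟩
    have h1 : f L ≤ L := by
      apply le_ciInf
      intro n
      have h := hsucc (n - 1) x0
      rw [sub_add_cancel] at h
      rw [h]
      exact f.monotone (hle (n - 1))
    have h2 := f1 _ hLm
    linarith
  have hfr : ∀ t : ℝ, x0 + Int.fract t * c ∈ Ioo a b := by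
    intro t
    have h0 := Int.fract_nonneg t
    have h1 := Int.fract_lt_one t
    have h2 : Int.fract t * c < c := by nlinarith
    have h3 : 0 ≤ Int.fract t * c := mul_nonneg h0 hcpos.le
    have h4 := (hmaps x0 hx0m).2
    refine ⟨by linarith [hx0m.1], ?_⟩
    have : x0 + c = f x0 := by rw [hc]; ring
    linarith
  refine ⟨fun t => (f ^ ⌊t⌋) (x0 + Int.fract t * c), ?_, ?_, by simp, ?_⟩
  · intro t t' htt'
    rcases (Int.floor_mono htt'.le).eq_or_lt with h | h
    · change (f ^ ⌊t⌋) (x0 + Int.fract t * c) < (f ^ ⌊t'⌋) (x0 + Int.fract t' * c)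
      rw [h]
      apply (f ^ ⌊t'⌋).strictMono
      have h1 : Int.fract t < Int.fract t' := by
        rw [Int.fract, Int.fract, h]; linarith
      nlinarith
    · have h1 : (f ^ ⌊t⌋) (x0 + Int.fract t * c) < (f ^ (⌊t⌋ + 1)) x0 := by
        have e : (f ^ (⌊t⌋ + 1)) x0 = (f ^ ⌊t⌋) (f x0) := by
          rw [zpow_add_one]; rfl
        rw [e]
        apply (f ^ ⌊t⌋).strictMono
        have h1 := Int.fract_lt_one t
        have : x0 + c = f x0 := by rw [hc]; ring
        nlinarith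
      have h2 : (f ^ (⌊t⌋ + 1)) x0 ≤ (f ^ ⌊t'⌋) x0 := hseq.monotone (by omega)
      have h3 : (f ^ ⌊t'⌋) x0 ≤ (f ^ ⌊t'⌋) (x0 + Int.fract t' * c) := by
        apply (f ^ ⌊t'⌋).monotone
        have := mul_nonneg (Int.fract_nonneg t') hcpos.le
        linarith
      exact lt_of_lt_of_le h1 (h2.trans h3)
  · ext y
    constructor
    · rintro ⟨t, rfl⟩
      exact hmem _ _ (hfr t)
    · intro hy
      obtain ⟨n1, hn1⟩ := hup y hy
      have hex : ∃ n : ℤ, (f ^ n) x0 ≤ y ∧ y < (f ^ (n + 1)) x0 := by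
        have hbd : ∃ b : ℤ, ∀ z : ℤ, (f ^ z) x0 ≤ y → z ≤ b :=
          ⟨n1, fun z hz => (hseq.lt_iff_lt.mp (lt_of_le_of_lt hz hn1)).le⟩
        obtain ⟨m, hm1, hm2⟩ := Int.exists_greatest_of_bdd hbd (hlow y hy)
        refine ⟨m, hm1, ?_⟩
        by_contra hcon
        push Not at hcon
        have := hm2 (m + 1) hcon
        omega
      obtain ⟨n, hn, hn'⟩ := hex
      set z := (f ^ n).symm y with hz
      have hz1 : x0 ≤ z := by rw [hz, OrderIso.le_symm_apply]; exact hn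
      have hz2 : z < x0 + c := by
        rw [hz, OrderIso.symm_apply_lt]
        have e : x0 + c = f x0 := by rw [hc]; ring
        rw [e]
        have e2 : (f ^ (n + 1)) x0 = (f ^ n) (f x0) := by
          rw [zpow_add_one]; rfl
        rw [← e2]
        exact hn'
      refine ⟨n + (z - x0) / c, ?_⟩
      have hq0 : 0 ≤ (z - x0) / c := div_nonneg (by linarith) hcpos.le
      have hq1 : (z - x0) / c < 1 := by rw [div_lt_one hcpos]; linarith
      have hfl : ⌊(n : ℝ) + (z - x0) / c⌋ = n := by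
        rw [Int.floor_eq_iff]; constructor <;> linarith
      have hfrac : Int.fract ((n : ℝ) + (z - x0) / c) = (z - x0) / c := by
        rw [Int.fract, hfl]; ring
      change (f ^ ⌊(n : ℝ) + (z - x0) / c⌋) (x0 + Int.fract ((n : ℝ) + (z - x0) / c) * c) = y
      rw [hfrac, hfl]
      have : x0 + (z - x0) / c * c = z := by field_simp; ring
      rw [this, hz, OrderIso.apply_symm_apply]
  · intro t
    change (f ^ ⌊t + 1⌋) (x0 + Int.fract (t + 1) * c) = f ((f ^ ⌊t⌋) (x0 + Int.fract t * c))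
    rw [Int.floor_add_one, Int.fract_add_one, hsucc]

/-- conjugacy on one interval, points moving to the right -/
theorem exists_conj_Ioo (f g : ℝ ≃o ℝ) {a b a' b' : ℝ}
    (fa : f a = a) (fb : f b = b) (ga : g a' = a') (gb : g b' = b')
    (f1 : ∀ x ∈ Ioo a b, x < f x) (g1 : ∀ x ∈ Ioo a' b', x < g x)
    (c c' : ℝ) (hc : c ∈ Ioo a b) (hc' : c' ∈ Ioo a' b') :
    ∃ U : ℝ → ℝ, StrictMonoOn U (Ioo a b) ∧ U '' Ioo a b = Ioo a' b' ∧ U c = c' ∧
      ∀ x ∈ Ioo a b, U (f x) = g (U x) := by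
  classical
  obtain ⟨F, F1, F2, F4, F3⟩ := exists_param f fa fb f1 c hc
  obtain ⟨G, G1, G2, G4, G3⟩ := exists_param g ga gb g1 c' hc'
  have hinv : ∀ t, Function.invFun F (F t) = t := Function.leftInverse_invFun F1.injective
  refine ⟨fun x => G (Function.invFun F x), ?_, ?_, ?_, ?_⟩
  · intro x hx y hy hxy
    rw [← F2] at hx hy
    obtain ⟨s, rfl⟩ := hx
    obtain ⟨t, rfl⟩ := hy
    change G (Function.invFun F (F s)) < G (Function.invFun F (F t))
    rw [hinv, hinv]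
    exact G1 (F1.lt_iff_lt.mp hxy)
  · rw [← F2, ← G2, ← Set.range_comp]
    congr 1
    ext t
    change G (Function.invFun F (F t)) = G t
    rw [hinv]
  · change G (Function.invFun F c) = c'
    rw [← F4, hinv, G4]
  · intro x hx
    rw [← F2] at hx
    obtain ⟨s, rfl⟩ := hx
    change G (Function.invFun F (f (F s))) = g (G (Function.invFun F (F s)))
    rw [← F3, hinv, hinv, G3]

/-- conjugacy on one interval, points moving to the left -/
theorem exists_conj_Ioo' (f g : ℝ ≃o ℝ) {a b a' b' : ℝ}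
    (fa : f a = a) (fb : f b = b) (ga : g a' = a') (gb : g b' = b')
    (f1 : ∀ x ∈ Ioo a b, f x < x) (g1 : ∀ x ∈ Ioo a' b', g x < x)
    (c c' : ℝ) (hc : c ∈ Ioo a b) (hc' : c' ∈ Ioo a' b') :
    ∃ U : ℝ → ℝ, StrictMonoOn U (Ioo a b) ∧ U '' Ioo a b = Ioo a' b' ∧ U c = c' ∧
      ∀ x ∈ Ioo a b, U (f x) = g (U x) := by
  have key : ∀ (f : ℝ ≃o ℝ) {a b : ℝ}, f a = a → f b = b → (∀ x ∈ Ioo a b, f x < x) →
      ∀ x ∈ Ioo a b, x < f.symm x := by
    intro f a b fa fb f1 x hx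
    have e1 : f.symm a = a := by rw [OrderIso.symm_apply_eq, fa]
    have e2 : f.symm b = b := by rw [OrderIso.symm_apply_eq, fb]
    have hm : f.symm x ∈ Ioo a b :=
      ⟨by rw [← e1]; exact f.symm.strictMono hx.1, by rw [← e2]; exact f.symm.strictMono hx.2⟩
    have := f1 _ hm
    rwa [OrderIso.apply_symm_apply] at this
  obtain ⟨U, U1, U2, U4, U3⟩ := exists_conj_Ioo f.symm g.symm
    (by rw [OrderIso.symm_apply_eq, fa]) (by rw [OrderIso.symm_apply_eq, fb])
    (by rw [OrderIso.symm_apply_eq, ga]) (by rw [OrderIso.symm_apply_eq, gb])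
    (key f fa fb f1) (key g ga gb g1) c c' hc hc'
  refine ⟨U, U1, U2, U4, ?_⟩
  intro x hx
  have hm : f x ∈ Ioo a b := ⟨by rw [← fa]; exact f.strictMono hx.1, by rw [← fb]; exact f.strictMono hx.2⟩
  have h := U3 _ hm
  rw [OrderIso.symm_apply_apply] at h
  rw [h, OrderIso.apply_symm_apply]

/-- extend a map of a fundamental domain -/
theorem exists_extend (k : ℝ → ℝ) (a a' : ℝ) (hk : StrictMonoOn k (Ico a (a + 1)))
    (hs : k '' Ico a (a + 1) = Ico a' (a' + 1)) :
    ∃ h : ℝ ≃o ℝ, (∀ x, h (x + 1) = h x + 1) ∧ ∀ x ∈ Ico a (a + 1), h x = k x := by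
  classical
  set H : ℝ → ℝ := fun x => k (x - ⌊x - a⌋) + ⌊x - a⌋ with hH
  have hm : ∀ x : ℝ, x - ⌊x - a⌋ ∈ Ico a (a + 1) := by
    intro x
    have h1 := Int.floor_le (x - a)
    have h2 := Int.lt_floor_add_one (x - a)
    exact ⟨by linarith, by linarith⟩
  have hk2 : ∀ x ∈ Ico a (a + 1), k x ∈ Ico a' (a' + 1) := fun x hx => by
    rw [← hs]; exact mem_image_of_mem _ hx
  have hadd : ∀ x, H (x + 1) = H x + 1 := by
    intro x
    have e : ⌊x + 1 - a⌋ = ⌊x - a⌋ + 1 := by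
      rw [show x + 1 - a = (x - a) + 1 by ring, Int.floor_add_one]
    simp only [hH]
    rw [e]
    push_cast
    rw [show x + 1 - ((⌊x - a⌋ : ℝ) + 1) = x - ⌊x - a⌋ by ring]
    ring
  have hadd' : ∀ (x : ℝ) (n : ℤ), H (x + n) = H x + n := by
    intro x n
    have e : ⌊x + n - a⌋ = ⌊x - a⌋ + n := by
      rw [show x + n - a = (x - a) + n by ring, Int.floor_add_intCast]
    simp only [hH]
    rw [e]
    push_cast
    rw [show x + n - ((⌊x - a⌋ : ℝ) + n) = x - ⌊x - a⌋ by ring]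
    ring
  have heq : ∀ x ∈ Ico a (a + 1), H x = k x := by
    intro x hx
    have e : ⌊x - a⌋ = 0 := by
      rw [Int.floor_eq_zero_iff]; exact ⟨by linarith [hx.1], by linarith [hx.2]⟩
    simp only [hH]
    rw [e]; simp
  have hmono : StrictMono H := by
    intro x y hxy
    rcases (Int.floor_mono (show x - a ≤ y - a by linarith)).eq_or_lt with h | h
    · simp only [hH]
      rw [h]
      have h1 := hm x
      rw [h] at h1
      have := hk h1 (hm y) (by linarith)
      linarith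
    · have h1 := (hk2 _ (hm x)).2
      have h2 := (hk2 _ (hm y)).1
      have h3 : (⌊x - a⌋ : ℝ) + 1 ≤ ⌊y - a⌋ := by exact_mod_cast h
      simp only [hH]
      linarith
  have hsurj : Function.Surjective H := by
    intro y
    have hy : y - ⌊y - a'⌋ ∈ Ico a' (a' + 1) := by
      have h1 := Int.floor_le (y - a')
      have h2 := Int.lt_floor_add_one (y - a')
      exact ⟨by linarith, by linarith⟩
    rw [← hs] at hy
    obtain ⟨x, hx, hxy⟩ := hy
    refine ⟨x + ⌊y - a'⌋, ?_⟩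
    rw [hadd', heq x hx, hxy]
    ring
  exact ⟨StrictMono.orderIsoOfSurjective H hmono hsurj, hadd, heq⟩

/-- a map commuting with the translation by one commutes with all integer translations -/
theorem map_add_int (f : ℝ → ℝ) (hf : ∀ x, f (x + 1) = f x + 1) (x : ℝ) (n : ℤ) :
    f (x + n) = f x + n := by
  induction n using Int.induction_on with
  | zero => simp
  | succ n ih =>
    have := hf (x + n)
    push_cast at ih ⊢
    rw [show x + ((n : ℝ) + 1) = x + n + 1 by ring, this, ih]; ring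
  | pred n ih =>
    have := hf (x + (-(n : ℝ) - 1))
    push_cast at ih ⊢
    rw [show x + (-(n : ℝ) - 1) + 1 = x + -(n : ℝ) by ring, ih] at this
    linarith

/-- MAIN, with one prescribed value in each of the two intervals -/
theorem conj_two_fixed_norm (f g : ℝ ≃o ℝ) (hf : ∀ x, f (x + 1) = f x + 1)
    (hg : ∀ x, g (x + 1) = g x + 1) {a b a' b' : ℝ} (hab : a < b) (hba : b < a + 1)
    (hab' : a' < b') (hba' : b' < a' + 1) (fa : f a = a) (fb : f b = b) (ga : g a' = a')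
    (gb : g b' = b') (f1 : ∀ x ∈ Ioo a b, x < f x) (f2 : ∀ x ∈ Ioo b (a + 1), f x < x)
    (g1 : ∀ x ∈ Ioo a' b', x < g x) (g2 : ∀ x ∈ Ioo b' (a' + 1), g x < x)
    (c c' : ℝ) (hc : c ∈ Ioo a b) (hc' : c' ∈ Ioo a' b')
    (d d' : ℝ) (hd : d ∈ Ioo b (a + 1)) (hd' : d' ∈ Ioo b' (a' + 1)) :
    ∃ h : ℝ ≃o ℝ, (∀ x, h (x + 1) = h x + 1) ∧ h a = a' ∧ h b = b' ∧ h c = c' ∧ h d = d' ∧
      ∀ x, h (f x) = g (h x) := by
  classical
  have fa1 : f (a + 1) = a + 1 := by rw [hf, fa]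
  have ga1 : g (a' + 1) = a' + 1 := by rw [hg, ga]
  obtain ⟨U, U1, U2, U4, U3⟩ := exists_conj_Ioo f g fa fb ga gb f1 g1 c c' hc hc'
  obtain ⟨V, V1, V2, V4, V3⟩ := exists_conj_Ioo' f g fb fa1 gb ga1 f2 g2 d d' hd hd'
  set k : ℝ → ℝ := fun x => if x ≤ a then a' else if x < b then U x else if x = b then b' else V x
    with hk
  have ka : k a = a' := by simp [hk]
  have kb : k b = b' := by simp [hk, hab]
  have kU : ∀ x ∈ Ioo a b, k x = U x := by
    intro x hx
    simp only [hk]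
    rw [if_neg (not_le.mpr hx.1), if_pos hx.2]
  have kV : ∀ x ∈ Ioo b (a + 1), k x = V x := by
    intro x hx
    simp only [hk]
    rw [if_neg (not_le.mpr (hab.trans hx.1)), if_neg (not_lt.mpr hx.1.le), if_neg hx.1.ne']
  have Um : ∀ x ∈ Ioo a b, U x ∈ Ioo a' b' := fun x hx => by
    rw [← U2]; exact mem_image_of_mem _ hx
  have Vm : ∀ x ∈ Ioo b (a + 1), V x ∈ Ioo b' (a' + 1) := fun x hx => by
    rw [← V2]; exact mem_image_of_mem _ hx
  have hcases : ∀ x ∈ Ico a (a + 1), x = a ∨ x ∈ Ioo a b ∨ x = b ∨ x ∈ Ioo b (a + 1) := by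
    intro x hx
    rcases hx.1.eq_or_lt with h | h
    · exact Or.inl h.symm
    · rcases lt_trichotomy x b with h' | h' | h'
      · exact Or.inr (Or.inl ⟨h, h'⟩)
      · exact Or.inr (Or.inr (Or.inl h'))
      · exact Or.inr (Or.inr (Or.inr ⟨h', hx.2⟩))
  have hmono : StrictMonoOn k (Ico a (a + 1)) := by
    intro x hx y hy hxy
    rcases hcases x hx with h | h | h | h
    · subst h
      rcases hcases y hy with h' | h' | h' | h'
      · exact absurd h' hxy.ne'
      · rw [ka, kU y h']; exact (Um y h').1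
      · rw [h', ka, kb]; exact hab'
      · rw [ka, kV y h']; exact hab'.trans (Vm y h').1
    · rcases hcases y hy with h' | h' | h' | h'
      · exact absurd (h' ▸ hxy) (not_lt.mpr h.1.le)
      · rw [kU x h, kU y h']; exact U1 h h' hxy
      · rw [h', kU x h, kb]; exact (Um x h).2
      · rw [kU x h, kV y h']; exact (Um x h).2.trans (Vm y h').1
    · subst h
      rcases hcases y hy with h' | h' | h' | h'
      · exact absurd (h' ▸ hxy) (not_lt.mpr hab.le)
      · exact absurd hxy (not_lt.mpr h'.2.le)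
      · exact absurd h' hxy.ne'
      · rw [kb, kV y h']; exact (Vm y h').1
    · rcases hcases y hy with h' | h' | h' | h'
      · exact absurd (h' ▸ hxy) (not_lt.mpr (hab.trans h.1).le)
      · exact absurd hxy (not_lt.mpr (h'.2.trans h.1).le)
      · exact absurd (h' ▸ hxy) (not_lt.mpr h.1.le)
      · rw [kV x h, kV y h']; exact V1 h h' hxy
  have himg : k '' Ico a (a + 1) = Ico a' (a' + 1) := by
    ext y
    constructor
    · rintro ⟨x, hx, rfl⟩
      rcases hcases x hx with h | h | h | h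
      · rw [h, ka]; exact ⟨le_rfl, by linarith⟩
      · rw [kU x h]; exact ⟨(Um x h).1.le, (Um x h).2.trans hba'⟩
      · rw [h, kb]; exact ⟨hab'.le, hba'⟩
      · rw [kV x h]; exact ⟨(hab'.trans (Vm x h).1).le, (Vm x h).2⟩
    · intro hy
      rcases hy.1.eq_or_lt with h | h
      · exact ⟨a, ⟨le_rfl, by linarith⟩, by rw [ka, h]⟩
      · rcases lt_trichotomy y b' with h' | h' | h'
        · have : y ∈ U '' Ioo a b := by rw [U2]; exact ⟨h, h'⟩
          obtain ⟨x, hx, rfl⟩ := this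
          exact ⟨x, ⟨hx.1.le, hx.2.trans hba⟩, kU x hx⟩
        · exact ⟨b, ⟨hab.le, hba⟩, by rw [kb, h']⟩
        · have : y ∈ V '' Ioo b (a + 1) := by rw [V2]; exact ⟨h', hy.2⟩
          obtain ⟨x, hx, rfl⟩ := this
          exact ⟨x, ⟨(hab.trans hx.1).le, hx.2⟩, kV x hx⟩
  obtain ⟨h, h1, h2⟩ := exists_extend k a a' hmono himg
  have ha : h a = a' := by rw [h2 a ⟨le_rfl, by linarith⟩, ka]
  have hb : h b = b' := by rw [h2 b ⟨hab.le, hba⟩, kb]
  have hcc : h c = c' := by rw [h2 c ⟨hc.1.le, hc.2.trans hba⟩, kU c hc, U4]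
  have hdd : h d = d' := by rw [h2 d ⟨(hab.trans hd.1).le, hd.2⟩, kV d hd, V4]
  refine ⟨h, h1, ha, hb, hcc, hdd, ?_⟩
  have hbase : ∀ x ∈ Ico a (a + 1), h (f x) = g (h x) := by
    intro x hx
    rcases hcases x hx with e | e | e | e
    · rw [e, fa, ha, ga]
    · have hm : f x ∈ Ioo a b :=
        ⟨by rw [← fa]; exact f.strictMono e.1, by rw [← fb]; exact f.strictMono e.2⟩
      rw [h2 _ ⟨hm.1.le, hm.2.trans hba⟩, h2 x hx, kU _ hm, kU x e, U3 x e]
    · rw [e, fb, hb, gb]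
    · have hm : f x ∈ Ioo b (a + 1) :=
        ⟨by rw [← fb]; exact f.strictMono e.1, by rw [← fa1]; exact f.strictMono e.2⟩
      rw [h2 _ ⟨(hab.trans hm.1).le, hm.2⟩, h2 x hx, kV _ hm, kV x e, V3 x e]
  intro x
  have hx : x - ⌊x - a⌋ ∈ Ico a (a + 1) := by
    have h1 := Int.floor_le (x - a)
    have h2 := Int.lt_floor_add_one (x - a)
    exact ⟨by linarith, by linarith⟩
  have e := hbase _ hx
  have e1 : f x = f (x - ⌊x - a⌋) + ⌊x - a⌋ := by
    rw [← map_add_int f hf]; congr 1; ring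
  have e2 : h x = h (x - ⌊x - a⌋) + ⌊x - a⌋ := by
    rw [← map_add_int h h1]; congr 1; ring
  rw [e1, e2, map_add_int h h1, map_add_int g hg, e]

/-- MAIN, without normalisation -/
theorem conj_two_fixed (f g : ℝ ≃o ℝ) (hf : ∀ x, f (x + 1) = f x + 1)
    (hg : ∀ x, g (x + 1) = g x + 1) {a b a' b' : ℝ} (hab : a < b) (hba : b < a + 1)
    (hab' : a' < b') (hba' : b' < a' + 1) (fa : f a = a) (fb : f b = b) (ga : g a' = a')
    (gb : g b' = b') (f1 : ∀ x ∈ Ioo a b, x < f x) (f2 : ∀ x ∈ Ioo b (a + 1), f x < x)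
    (g1 : ∀ x ∈ Ioo a' b', x < g x) (g2 : ∀ x ∈ Ioo b' (a' + 1), g x < x) :
    ∃ h : ℝ ≃o ℝ, (∀ x, h (x + 1) = h x + 1) ∧ h a = a' ∧ h b = b' ∧ ∀ x, h (f x) = g (h x) := by
  obtain ⟨h, h1, h2, h3, -, -, h6⟩ := conj_two_fixed_norm f g hf hg hab hba hab' hba' fa fb ga gb
    f1 f2 g1 g2 ((a + b) / 2) ((a' + b') / 2) ⟨by linarith, by linarith⟩ ⟨by linarith, by linarith⟩
    ((b + (a + 1)) / 2) ((b' + (a' + 1)) / 2) ⟨by linarith, by linarith⟩
    ⟨by linarith, by linarith⟩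
  exact ⟨h, h1, h2, h3, h6⟩

/-- the form with one prescribed value -/
theorem conj_two_fixed_c (f g : ℝ ≃o ℝ) (hf : ∀ x, f (x + 1) = f x + 1)
    (hg : ∀ x, g (x + 1) = g x + 1) {a b a' b' : ℝ} (hab : a < b) (hba : b < a + 1)
    (hab' : a' < b') (hba' : b' < a' + 1) (fa : f a = a) (fb : f b = b) (ga : g a' = a')
    (gb : g b' = b') (f1 : ∀ x ∈ Ioo a b, x < f x) (f2 : ∀ x ∈ Ioo b (a + 1), f x < x)
    (g1 : ∀ x ∈ Ioo a' b', x < g x) (g2 : ∀ x ∈ Ioo b' (a' + 1), g x < x)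
    {c c' : ℝ} (hc : c ∈ Ioo a b) (hc' : c' ∈ Ioo a' b') :
    ∃ h : ℝ ≃o ℝ, (∀ x, h (x + 1) = h x + 1) ∧ h a = a' ∧ h b = b' ∧ h c = c' ∧
      ∀ x, h (f x) = g (h x) := by
  obtain ⟨h, h1, h2, h3, h4, -, h6⟩ := conj_two_fixed_norm f g hf hg hab hba hab' hba' fa fb ga gb
    f1 f2 g1 g2 c c' hc hc'
    ((b + (a + 1)) / 2) ((b' + (a' + 1)) / 2) ⟨by linarith, by linarith⟩
    ⟨by linarith, by linarith⟩
  exact ⟨h, h1, h2, h3, h4, h6⟩

/-- a homeomorphism of the line moving every point to the right is conjugate to the translation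
by one -/
theorem conj_fpf (f : ℝ ≃o ℝ) (f1 : ∀ x, x < f x) :
    ∃ G : ℝ ≃o ℝ, ∀ t, G (t + 1) = f (G t) := by
  classical
  set c : ℝ := f 0 with hc
  have hcpos : 0 < c := f1 0
  have hsucc : ∀ (n : ℤ) (x : ℝ), (f ^ (n + 1)) x = f ((f ^ n) x) := by
    intro n x
    rw [add_comm n 1, zpow_one_add]; rfl
  have hseq : StrictMono fun n : ℤ => (f ^ n) 0 := by
    apply strictMono_int_of_lt_succ
    intro n
    change (f ^ n) 0 < (f ^ (n + 1)) 0
    rw [hsucc]
    exact f1 _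
  have hup : ∀ y : ℝ, ∃ n : ℤ, y < (f ^ n) 0 := by
    intro y
    by_contra hcon
    push Not at hcon
    have hbdd : BddAbove (range fun n : ℤ => (f ^ n) 0) := ⟨y, by rintro _ ⟨n, rfl⟩; exact hcon n⟩
    have hle : ∀ n : ℤ, (f ^ n) 0 ≤ ⨆ n : ℤ, (f ^ n) 0 := fun n => le_ciSup hbdd n
    have h1 : (⨆ n : ℤ, (f ^ n) 0) ≤ f.symm (⨆ n : ℤ, (f ^ n) 0) := by
      apply ciSup_le
      intro n
      rw [OrderIso.le_symm_apply]
      rw [← hsucc]
      exact hle (n + 1)
    have h2 := f1 (f.symm (⨆ n : ℤ, (f ^ n) 0))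
    rw [OrderIso.apply_symm_apply] at h2
    linarith
  have hlow : ∀ y : ℝ, ∃ n : ℤ, (f ^ n) 0 ≤ y := by
    intro y
    by_contra hcon
    push Not at hcon
    have hbdd : BddBelow (range fun n : ℤ => (f ^ n) 0) :=
      ⟨y, by rintro _ ⟨n, rfl⟩; exact (hcon n).le⟩
    have hle : ∀ n : ℤ, (⨅ n : ℤ, (f ^ n) 0) ≤ (f ^ n) 0 := fun n => ciInf_le hbdd n
    have h1 : f (⨅ n : ℤ, (f ^ n) 0) ≤ ⨅ n : ℤ, (f ^ n) 0 := by
      apply le_ciInf
      intro n
      have h := hsucc (n - 1) 0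
      rw [sub_add_cancel] at h
      rw [h]
      exact f.monotone (hle (n - 1))
    have h2 := f1 (⨅ n : ℤ, (f ^ n) 0)
    linarith
  set G : ℝ → ℝ := fun t => (f ^ ⌊t⌋) (Int.fract t * c) with hG
  have hmono : StrictMono G := by
    intro t t' htt'
    rcases (Int.floor_mono htt'.le).eq_or_lt with h | h
    · change (f ^ ⌊t⌋) (Int.fract t * c) < (f ^ ⌊t'⌋) (Int.fract t' * c)
      rw [h]
      apply (f ^ ⌊t'⌋).strictMono
      have h1 : Int.fract t < Int.fract t' := by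
        rw [Int.fract, Int.fract, h]; linarith
      nlinarith
    · have h1 : (f ^ ⌊t⌋) (Int.fract t * c) < (f ^ (⌊t⌋ + 1)) 0 := by
        have e : (f ^ (⌊t⌋ + 1)) 0 = (f ^ ⌊t⌋) (f 0) := by
          rw [zpow_add_one]; rfl
        rw [e]
        apply (f ^ ⌊t⌋).strictMono
        have h1 := Int.fract_lt_one t
        rw [← hc]
        nlinarith
      have h2 : (f ^ (⌊t⌋ + 1)) 0 ≤ (f ^ ⌊t'⌋) 0 := hseq.monotone (by omega)
      have h3 : (f ^ ⌊t'⌋) 0 ≤ (f ^ ⌊t'⌋) (Int.fract t' * c) := by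
        apply (f ^ ⌊t'⌋).monotone
        exact mul_nonneg (Int.fract_nonneg t') hcpos.le
      exact lt_of_lt_of_le h1 (h2.trans h3)
  have hsurj : Function.Surjective G := by
    intro y
    obtain ⟨n1, hn1⟩ := hup y
    have hex : ∃ n : ℤ, (f ^ n) 0 ≤ y ∧ y < (f ^ (n + 1)) 0 := by
      have hbd : ∃ b : ℤ, ∀ z : ℤ, (f ^ z) 0 ≤ y → z ≤ b :=
        ⟨n1, fun z hz => (hseq.lt_iff_lt.mp (lt_of_le_of_lt hz hn1)).le⟩
      obtain ⟨m, hm1, hm2⟩ := Int.exists_greatest_of_bdd hbd (hlow y)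
      refine ⟨m, hm1, ?_⟩
      by_contra hcon
      push Not at hcon
      have := hm2 (m + 1) hcon
      omega
    obtain ⟨n, hn, hn'⟩ := hex
    set z := (f ^ n).symm y with hz
    have hz1 : 0 ≤ z := by rw [hz, OrderIso.le_symm_apply]; exact hn
    have hz2 : z < c := by
      rw [hz, OrderIso.symm_apply_lt, hc]
      have e2 : (f ^ (n + 1)) 0 = (f ^ n) (f 0) := by
        rw [zpow_add_one]; rfl
      rw [← e2]
      exact hn'
    refine ⟨n + z / c, ?_⟩
    have hq0 : 0 ≤ z / c := div_nonneg hz1 hcpos.le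
    have hq1 : z / c < 1 := by rw [div_lt_one hcpos]; exact hz2
    have hfl : ⌊(n : ℝ) + z / c⌋ = n := by
      rw [Int.floor_eq_iff]; constructor <;> linarith
    have hfrac : Int.fract ((n : ℝ) + z / c) = z / c := by
      rw [Int.fract, hfl]; ring
    change (f ^ ⌊(n : ℝ) + z / c⌋) (Int.fract ((n : ℝ) + z / c) * c) = y
    rw [hfrac, hfl]
    have : z / c * c = z := by field_simp
    rw [this, hz, OrderIso.apply_symm_apply]
  refine ⟨StrictMono.orderIsoOfSurjective G hmono hsurj, ?_⟩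
  intro t
  change (f ^ ⌊t + 1⌋) (Int.fract (t + 1) * c) = f ((f ^ ⌊t⌋) (Int.fract t * c))
  rw [Int.floor_add_one, Int.fract_add_one, hsucc]

end Pool.Agent.H.MP_1611f1_gt.PB
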