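import Mathlib

/-!
Dehn twists.
-/

namespace Pool.Agent.H.MP_1611f1_gt.PB

open Topology Set

/-- `h` is the `e`-th power of the Dehn twist along the annulus `a` embedded in the surface `S`:
`h` is `(θ, r) ↦ (θ + e (1 + r) / 2, r)` on the annulus, and the identity outside of it. -/
structure IsTwist {S : Type*} [TopologicalSpace S]
    (a : AddCircle (1 : ℝ) × Icc (-1 : ℝ) 1 → S) (e : ℤ) (h : S ≃ₜ S) : Prop where
  emb : IsClosedEmbedding a
  inner : IsOpen (a '' {z | |(z.2 : ℝ)| < 1})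
  on_annulus : ∀ (θ : AddCircle (1 : ℝ)) (r : Icc (-1 : ℝ) 1), h (a (θ, r)) =
    a (θ + (((e : ℝ) * ((1 + r) / 2) : ℝ) : AddCircle (1 : ℝ)), r)
  outside : ∀ x ∉ range a, h x = x

end Pool.Agent.H.MP_1611f1_gt.PB
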