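import Pool.Agent.H.MP_1611f1_gt.PB.Stmt
import Pool.Agent.H.MP_1611f1_gt.PB.Twist

/-!
Cores of bricks; words which end in a square.
-/

namespace Pool.Agent.H.MP_1611f1_gt.PB

open Topology Set

/-- The last two letters of the word are equal. -/
def EndsInSquare {c : ℕ} (β : Fin c → ℕ) : Prop :=
  ∃ m m' : Fin c, (m : ℕ) + 2 = c ∧ (m' : ℕ) + 1 = c ∧ β m' = β m

/-- The surface is the interior of a compact surface: it is Hausdorff, and compact if one removes the part
`r < ρ` of the collar. -/
structure CompactType {S : Type*} [TopologicalSpace S] (E : Surf S Unit) : Prop where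
  haus : T2Space S
  core : ∀ ρ : ℝ, 1 < ρ → ρ < 2 → IsCompact (E.collar () '' {z | (z.2 : ℝ) < ρ})ᶜ

/-- The circles `r = const` of the annulus `a` run once through the bands `m` and `m'` (they meet
the cocore of the band `m` in the point `θ = 0` only, and the cocore of the band `m'` in the
point `θ = 1 / 2` only) and through no other band (the annulus is disjoint from all other
strips). -/
structure IsCore {S : Type*} [TopologicalSpace S] {E : Surf S Unit} {k c : ℕ} [NeZero c]
    {β : Fin c → ℕ} (A : Bands E k β) (m m' : Fin c)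
    (a : AddCircle (1 : ℝ) × Icc (-1 : ℝ) 1 → S) : Prop where
  other : ∀ z, z ≠ m → z ≠ m' → ∀ x, A.kap z (a x) = 0
  fst : ∀ θ r, A.kap m (a (θ, r)) = ((1 / 2 : ℝ) : AddCircle (1 : ℝ)) ↔ θ = 0
  snd : ∀ θ r, A.kap m' (a (θ, r)) = ((1 / 2 : ℝ) : AddCircle (1 : ℝ)) ↔
    θ = ((1 / 2 : ℝ) : AddCircle (1 : ℝ))

end Pool.Agent.H.MP_1611f1_gt.PB
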