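import Pool.Agent.H.MP_1611f1_gt.G2.PlA

/-!
Interpolation, gauge maps and integer times (section 5 of h49_1611f1_PB.md).
-/

namespace Pool.Agent.H.MP_1611f1_gt.PB

open Set Filter Topology

theorem Gauge_symm_add {f : ℝ ≃o ℝ} {a b : ℝ} (h : ∀ x, f (x + a) = f x + b) (y : ℝ) :
    f.symm (y + b) = f.symm y + a := by
  apply f.injective
  rw [OrderIso.apply_symm_apply, h, OrderIso.apply_symm_apply]

/-- PROOF: let `q = Q.card`, `e : Fin q ↪o ℕ` the increasing enumeration of `Q`
(`Q.orderEmbOfFin`), `m r = e r`. Put `S n = X (m ((-n) % q)) - ((-n) / q)` (`n : ℤ`, Euclidean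
division). `S` is strictly increasing (`S n < S (n+1)`: inside a block by `X m' < X m`, at the
end of a block by `X m < X m' + 1`), `S (n + q) = S n + 1`, `S (-r) = X (m r)` for `0 ≤ r < q`.
`Γ = (plIso S).symm` (`G2/PlA.lean`), `plf_int`. The rank of `m r` in `Q` is `r`. -/
theorem exists_rank_iso (Q : Finset ℕ) (hQ : Q.Nonempty) (X : ℕ → ℝ)
    (hX : ∀ m ∈ Q, ∀ m' ∈ Q, m < m' → X m' < X m ∧ X m < X m' + 1) :
    ∃ Γ : ℝ ≃o ℝ, (∀ x, Γ (x + 1) = Γ x + Q.card) ∧
      ∀ m ∈ Q, Γ (X m) = -((Q.filter (· < m)).card : ℝ) := by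
  obtain ⟨q, hq⟩ : ∃ q, q = Q.card := ⟨_, rfl⟩
  have hq0 : 0 < q := hq ▸ Finset.card_pos.2 hQ
  have hqz : (0 : ℤ) < q := by exact_mod_cast hq0
  set e : Fin q ↪o ℕ := Q.orderEmbOfFin hq.symm with he
  have hmem : ∀ r, e r ∈ Q := fun r => Finset.orderEmbOfFin_mem Q hq.symm r
  set R : ℤ → Fin q := fun k => ⟨(k % q).toNat, by
    have h1 := Int.emod_nonneg k hqz.ne'
    have h2 := Int.emod_lt_of_pos k hqz
    omega⟩ with hR
  set S : ℤ → ℝ := fun n => X (e (R (-n))) - ((-n / q : ℤ) : ℝ) with hS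
  have hS1 : ∀ n, S n < S (n + 1) := by
    intro n
    obtain ⟨k, hk⟩ : ∃ k, k = -n := ⟨_, rfl⟩
    have hk1 : -(n + 1) = k - 1 := by omega
    simp only [hS]
    rw [hk1, ← hk]
    have h1 := Int.emod_nonneg k hqz.ne'
    have h2 := Int.emod_lt_of_pos k hqz
    rcases eq_or_lt_of_le h1 with h | h
    · have hkq : k - 1 = (q : ℤ) * (k / q - 1) + (q - 1) := by
        have := Int.mul_ediv_add_emod k q
        rw [← h, add_zero] at this
        linear_combination -this
      have h3 : (k - 1) / q = k / q - 1 := by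
        rw [hkq, Int.add_comm, Int.add_mul_ediv_left _ _ hqz.ne',
          Int.ediv_eq_zero_of_lt (by omega) (by omega)]
        rw [zero_add]
      have h4 : (k - 1) % q = q - 1 := by
        rw [hkq, Int.add_comm, Int.add_mul_emod_self_left]
        exact Int.emod_eq_of_lt (by omega) (by omega)
      rw [h3]
      push_cast
      have hR0 : R k = ⟨0, hq0⟩ := by
        apply Fin.ext
        simp only [hR]
        rw [← h]; rfl
      have hR1 : R (k - 1) = ⟨q - 1, by omega⟩ := by
        apply Fin.ext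
        simp only [hR]
        rw [h4]; omega
      rw [hR0, hR1]
      rcases eq_or_lt_of_le (show 1 ≤ q from hq0) with h5 | h5
      · have h6 : (⟨q - 1, by omega⟩ : Fin q) = ⟨0, hq0⟩ := Fin.ext (by simp; omega)
        rw [h6]; linarith
      · have h6 := (hX _ (hmem ⟨0, hq0⟩) _ (hmem ⟨q - 1, by omega⟩)
          (e.lt_iff_lt.2 (Fin.mk_lt_mk.2 (by omega)))).2
        linarith
    · have hkq : k - 1 = (q : ℤ) * (k / q) + (k % q - 1) := by
        have := Int.mul_ediv_add_emod k q
        linear_combination -this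
      have h3 : (k - 1) / q = k / q := by
        rw [hkq, Int.add_comm, Int.add_mul_ediv_left _ _ hqz.ne',
          Int.ediv_eq_zero_of_lt (by omega) (by omega)]
        rw [zero_add]
      have h4 : (k - 1) % q = k % q - 1 := by
        rw [hkq, Int.add_comm, Int.add_mul_emod_self_left]
        exact Int.emod_eq_of_lt (by omega) (by omega)
      rw [h3]
      have h5 : R (k - 1) < R k := by
        show ((k - 1) % q).toNat < (k % q).toNat
        rw [h4]; omega
      have h6 := (hX _ (hmem (R (k - 1))) _ (hmem (R k)) (e.lt_iff_lt.2 h5)).1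
      linarith
  have hS2 : ∀ n, S (n + q) = S n + 1 := by
    intro n
    have h1 : -(n + (q : ℤ)) = -n + q * (-1) := by ring
    have h2 : R (-n + q * (-1)) = R (-n) := by
      apply Fin.ext
      simp only [hR]
      rw [Int.add_mul_emod_self_left]
    simp only [hS]
    rw [h1, h2, Int.add_mul_ediv_left _ _ hqz.ne']
    push_cast; ring
  set P : ℝ ≃o ℝ := plIso S hS1 q hqz 1 hS2 with hP
  have hPq : ∀ x, P (x + (q : ℝ)) = P x + 1 := by
    intro x
    have := plf_shift hS2 x
    push_cast at this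
    exact this
  refine ⟨P.symm, fun x => ?_, fun m hm => ?_⟩
  · rw [← hq]
    exact Gauge_symm_add hPq x
  · obtain ⟨r, rfl⟩ : ∃ r, e r = m := by
      have : m ∈ Set.range e := by
        rw [he, Finset.range_orderEmbOfFin]; exact hm
      exact this
    have hcard : (Q.filter (· < e r)).card = r := by
      have h1 : Q.filter (· < e r) = (Finset.Iio r).map e.toEmbedding := by
        ext x
        simp only [Finset.mem_filter, Finset.mem_map, Finset.mem_Iio]
        constructor
        · rintro ⟨hx, hx2⟩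
          obtain ⟨s, rfl⟩ : ∃ s, e s = x := by
            have : x ∈ Set.range e := by
              rw [he, Finset.range_orderEmbOfFin]; exact hx
            exact this
          exact ⟨s, e.lt_iff_lt.1 hx2, rfl⟩
        · rintro ⟨s, hs, rfl⟩
          exact ⟨hmem s, e.lt_iff_lt.2 hs⟩
      rw [h1, Finset.card_map, Fin.card_Iio]
    rw [hcard]
    apply P.injective
    rw [OrderIso.apply_symm_apply]
    have h2 : P (-((r : ℕ) : ℝ)) = S (-(r : ℕ)) := by
      have := plf_int S (-((r : ℕ) : ℤ))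
      push_cast at this
      exact this
    rw [h2]
    simp only [hS]
    have h3 : (-(-((r : ℕ) : ℤ))) = ((r : ℕ) : ℤ) := neg_neg _
    have h4 : ((r : ℕ) : ℤ) < q := by exact_mod_cast r.2
    rw [h3, Int.ediv_eq_zero_of_lt (by positivity) h4]
    have h5 : R ((r : ℕ) : ℤ) = r := by
      apply Fin.ext
      simp only [hR]
      rw [Int.emod_eq_of_lt (by positivity) h4]
      simp
    rw [h5]
    push_cast; ring

/-- PROOF: `Γ_X` and `Γ_Y` of `exists_rank_iso` take the same values at `X m` and `Y m`; the map is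
`Γ_Y.symm ∘ Γ_X` (identity if `Q` is empty). -/
theorem exists_interp (Q : Finset ℕ) (X Y : ℕ → ℝ)
    (hX : ∀ m ∈ Q, ∀ m' ∈ Q, m < m' → X m' < X m ∧ X m < X m' + 1)
    (hY : ∀ m ∈ Q, ∀ m' ∈ Q, m < m' → Y m' < Y m ∧ Y m < Y m' + 1) :
    ∃ g : ℝ ≃o ℝ, (∀ x, g (x + 1) = g x + 1) ∧ ∀ m ∈ Q, g (X m) = Y m := by
  rcases Q.eq_empty_or_nonempty with h | h
  · subst h
    exact ⟨OrderIso.refl ℝ, fun x => rfl, fun m hm => absurd hm (Finset.notMem_empty m)⟩
  · obtain ⟨Γ, h1, h2⟩ := exists_rank_iso Q h X hX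
    obtain ⟨Γ', h1', h2'⟩ := exists_rank_iso Q h Y hY
    refine ⟨Γ.trans Γ'.symm, fun x => ?_, fun m hm => ?_⟩
    · show Γ'.symm (Γ (x + 1)) = Γ'.symm (Γ x) + 1
      rw [h1, Gauge_symm_add h1']
    · show Γ'.symm (Γ (X m)) = Y m
      rw [h2 m hm, ← h2' m hm, OrderIso.symm_apply_apply]

/-- GAUGE MAPS. PROOF: recursion on the level: `G 0 = refl`; given `G k`, apply `exists_interp` to
`Q = B.filter (col · = k)`, `X = U`, `Y m = G k (T m)` (the order conditions for `Y` follow from
those of `T` because `G k` is increasing and commutes with `+1`). -/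
theorem exists_gauge (col : ℕ → ℕ) (B : Finset ℕ) (T U : ℕ → ℝ)
    (hT : ∀ m ∈ B, ∀ m' ∈ B, col m = col m' → m < m' → T m' < T m ∧ T m < T m' + 1)
    (hU : ∀ m ∈ B, ∀ m' ∈ B, col m = col m' → m < m' → U m' < U m ∧ U m < U m' + 1) :
    ∃ G : ℕ → (ℝ ≃o ℝ), (∀ k x, G k (x + 1) = G k x + 1) ∧
      ∀ m ∈ B, G (col m + 1) (U m) = G (col m) (T m) := by
  have hstep : ∀ (k : ℕ) (g : {g : ℝ ≃o ℝ // ∀ x, g (x + 1) = g x + 1}),
      ∃ g' : {g : ℝ ≃o ℝ // ∀ x, g (x + 1) = g x + 1},
        ∀ m ∈ B, col m = k → g'.1 (U m) = g.1 (T m) := by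
    intro k g
    obtain ⟨g', h1, h2⟩ := exists_interp (B.filter (col · = k)) U (fun m => g.1 (T m))
      (fun m hm m' hm' hlt => by
        rw [Finset.mem_filter] at hm hm'
        exact hU m hm.1 m' hm'.1 (hm.2.trans hm'.2.symm) hlt)
      (fun m hm m' hm' hlt => by
        rw [Finset.mem_filter] at hm hm'
        have h := hT m hm.1 m' hm'.1 (hm.2.trans hm'.2.symm) hlt
        exact ⟨g.1.strictMono h.1, by rw [← g.2]; exact g.1.strictMono h.2⟩)
    exact ⟨⟨g', h1⟩, fun m hm hk => h2 m (Finset.mem_filter.2 ⟨hm, hk⟩)⟩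
  choose st hst using hstep
  let G : ℕ → {g : ℝ ≃o ℝ // ∀ x, g (x + 1) = g x + 1} := fun k =>
    Nat.rec (motive := fun _ => {g : ℝ ≃o ℝ // ∀ x, g (x + 1) = g x + 1})
      ⟨OrderIso.refl ℝ, fun _ => rfl⟩ (fun k g => st k g) k
  exact ⟨fun k => (G k).1, fun k => (G k).2, fun m hm => hst (col m) (G (col m)) m hm rfl⟩

/-- INTEGER TIMES. PROOF: let `V` be the finite set of the numbers `Int.fract (v m)`, `m ∈ Q`,
together with `0`, `q = V.card`; `exists_rank_iso` for `Finset.range q` and `X r` = the `r`-th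
largest element of `V` (all in `[0,1)`); multiply the result by `2`: `T = 2 q`. -/
theorem exists_int_times (Q : Finset ℕ) (v : ℕ → ℝ) :
    ∃ (T : ℕ) (Γ : ℝ ≃o ℝ), 2 ≤ T ∧ (∀ x, Γ (x + 1) = Γ x + T) ∧
      ∀ m ∈ Q, ∃ z : ℤ, Γ (v m) = z := by
  classical
  set V : Finset ℝ := insert 0 (Q.image fun m => Int.fract (v m)) with hV
  have hV1 : ∀ x ∈ V, 0 ≤ x ∧ x < 1 := by
    intro x hx
    rw [hV, Finset.mem_insert, Finset.mem_image] at hx
    rcases hx with rfl | ⟨m, _, rfl⟩
    · norm_num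
    · exact ⟨Int.fract_nonneg _, Int.fract_lt_one _⟩
  obtain ⟨q, hq⟩ : ∃ q, q = V.card := ⟨_, rfl⟩
  have hq0 : 0 < q := hq ▸ Finset.card_pos.2 ⟨0, Finset.mem_insert_self _ _⟩
  have hqz : (0 : ℤ) < q := by exact_mod_cast hq0
  set e : Fin q ↪o ℝ := V.orderEmbOfFin hq.symm with he
  have hmem : ∀ r, e r ∈ V := fun r => Finset.orderEmbOfFin_mem V hq.symm r
  set R : ℤ → Fin q := fun k => ⟨(k % q).toNat, by
    have h1 := Int.emod_nonneg k hqz.ne'
    have h2 := Int.emod_lt_of_pos k hqz
    omega⟩ with hR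
  set S : ℤ → ℝ := fun k => e (R k) + ((k / q : ℤ) : ℝ) with hS
  have hS1 : ∀ k, S k < S (k + 1) := by
    intro k
    simp only [hS]
    have h1 := Int.emod_nonneg k hqz.ne'
    have h2 := Int.emod_lt_of_pos k hqz
    rcases eq_or_lt_of_le (show k % q + 1 ≤ q by omega) with h | h
    · have hkq : k + 1 = (q : ℤ) * (k / q + 1) + 0 := by
        have := Int.mul_ediv_add_emod k q
        linear_combination -this + h
      have h3 : (k + 1) / q = k / q + 1 := by
        rw [hkq, add_zero, Int.mul_ediv_cancel_left _ hqz.ne']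
      rw [h3]
      push_cast
      have h5 := (hV1 _ (hmem (R k))).2
      have h6 := (hV1 _ (hmem (R (k + 1)))).1
      linarith
    · have hkq : k + 1 = (q : ℤ) * (k / q) + (k % q + 1) := by
        have := Int.mul_ediv_add_emod k q
        linear_combination -this
      have h3 : (k + 1) / q = k / q := by
        rw [hkq, Int.add_comm, Int.add_mul_ediv_left _ _ hqz.ne',
          Int.ediv_eq_zero_of_lt (by omega) (by omega)]
        rw [zero_add]
      have h4 : (k + 1) % q = k % q + 1 := by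
        rw [hkq, Int.add_comm, Int.add_mul_emod_self_left]
        exact Int.emod_eq_of_lt (by omega) (by omega)
      rw [h3]
      have h5 : R k < R (k + 1) := by
        show (k % q).toNat < ((k + 1) % q).toNat
        rw [h4]; omega
      have h6 := e.lt_iff_lt.2 h5
      linarith
  have hS2 : ∀ n, S (n + q) = S n + 1 := by
    intro n
    have h1 : n + (q : ℤ) = n + q * 1 := by ring
    have h2 : R (n + q * 1) = R n := by
      apply Fin.ext
      simp only [hR]
      rw [Int.add_mul_emod_self_left]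
    simp only [hS]
    rw [h1, h2, Int.add_mul_ediv_left _ _ hqz.ne']
    push_cast; ring
  set P : ℝ ≃o ℝ := plIso S hS1 q hqz 1 hS2 with hP
  have hPq : ∀ x, P (x + (q : ℝ)) = P x + 1 := by
    intro x
    have := plf_shift hS2 x
    push_cast at this
    exact this
  have hs := Gauge_symm_add hPq
  have hsz : ∀ (k : ℤ) (x : ℝ), P.symm (x + k) = P.symm x + k * q := by
    intro k x
    induction k using Int.induction_on with
    | zero => simp
    | succ i ih =>
      push_cast at ih ⊢
      rw [← add_assoc, hs, ih]; ring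
    | pred i ih =>
      have h1 := hs (x + (-(i : ℝ) - 1))
      push_cast at ih ⊢
      rw [show x + (-(i : ℝ) - 1) + 1 = x + -(i : ℝ) by ring, ih] at h1
      linarith
  refine ⟨2 * q, P.symm.trans (OrderIso.mulLeft₀ (2 : ℝ) two_pos), by omega, fun x => ?_,
    fun m hm => ?_⟩
  · show 2 * P.symm (x + 1) = 2 * P.symm x + ((2 * q : ℕ) : ℝ)
    rw [hs]; push_cast; ring
  · obtain ⟨r, hr⟩ : ∃ r, e r = Int.fract (v m) := by
      have h0 : Int.fract (v m) ∈ V :=
        Finset.mem_insert_of_mem (Finset.mem_image_of_mem _ hm)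
      have : Int.fract (v m) ∈ Set.range e := by
        rw [he, Finset.range_orderEmbOfFin]; exact h0
      exact this
    have h1 : P.symm (Int.fract (v m)) = (r : ℕ) := by
      apply P.injective
      rw [OrderIso.apply_symm_apply]
      have h2 : P (((r : ℕ) : ℤ) : ℝ) = S (r : ℕ) := plf_int S ((r : ℕ) : ℤ)
      rw [Int.cast_natCast] at h2
      rw [h2]
      simp only [hS]
      have h4 : ((r : ℕ) : ℤ) < q := by exact_mod_cast r.2
      have h5 : R ((r : ℕ) : ℤ) = r := by
        apply Fin.ext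
        simp only [hR]
        rw [Int.emod_eq_of_lt (by positivity) h4]
        simp
      rw [h5, Int.ediv_eq_zero_of_lt (by positivity) h4, hr]
      simp
    refine ⟨2 * ((r : ℕ) + ⌊v m⌋ * q), ?_⟩
    show 2 * P.symm (v m) = _
    have h3 : v m = Int.fract (v m) + ⌊v m⌋ := (Int.fract_add_floor _).symm
    rw [h3, hsz, h1, ← h3]
    push_cast; ring

end Pool.Agent.H.MP_1611f1_gt.PB
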