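import Pool.Agent.H.MP_1611f1_gt.PB.Turns

/-!
The boundary path of the closed braid and its base points.
-/

namespace Pool.Agent.H.MP_1611f1_gt.PB

open Set Filter Topology

theorem path_mod (N j m : ℕ) : (j * (N + 2) + m) % (N + 2) = m % (N + 2) := by
  rw [Nat.add_comm, Nat.add_mul_mod_self_right]

theorem path_mod2 (N j m : ℕ) : (j * (N + 2) + N + m) % (N + 2) = (N + m) % (N + 2) := by
  rw [add_assoc, path_mod]

theorem path_mod3 (N m : ℕ) : (N + (2 + m)) % (N + 2) = m % (N + 2) := by
  rw [← add_assoc, Nat.add_comm, Nat.add_mod_right]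

theorem path_shift {α : Type*} (N j : ℕ) (f : ℕ → α) :
    (fun m => f ((j * (N + 2) + m) % (N + 2))) = fun m => f (m % (N + 2)) := by
  funext m
  rw [path_mod]

theorem path_shift2 {α : Type*} (N j : ℕ) (f : ℕ → α) :
    (fun m => f ((j * (N + 2) + N + m) % (N + 2))) = fun m => f ((N + m) % (N + 2)) := by
  funext m
  rw [path_mod2]

theorem path_shift3 {α : Type*} (N : ℕ) (f : ℕ → α) :
    (fun m => f ((N + (2 + m)) % (N + 2))) = fun m => f (m % (N + 2)) := by
  funext m
  rw [path_mod3]

theorem path_levN (N : ℕ) (col : ℕ → ℕ) (L : ℕ) :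
    lev (fun m => col (m % (N + 2))) L N = lev col L N :=
  lev_congr (M := N) (fun m hm => by rw [Nat.mod_eq_of_lt (by omega)]) L N le_rfl

theorem path_holN (N : ℕ) (col : ℕ → ℕ) (A : ℕ → ℝ ≃o ℝ) (L : ℕ) :
    hol (fun m => col (m % (N + 2))) (fun m => A (m % (N + 2))) L N = hol col A L N :=
  hol_congr (M := N) (fun m hm => by rw [Nat.mod_eq_of_lt (by omega)])
    (fun m hm => by rw [Nat.mod_eq_of_lt (by omega)]) L N le_rfl

theorem path_up {D : ℕ → ℕ} {E : ℕ → ℝ ≃o ℝ} {i : ℕ} (h0 : D 0 = i) (h1 : D 1 = i) (t : ℝ) :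
    hol D E i 2 t = (E 1).symm (E 0 t) ∧ lev D i 2 = i := by
  have e1 : lev D i 1 = i + 1 := by
    show stepLev (D 0) i = i + 1
    rw [h0]; unfold stepLev; rw [if_pos rfl]
  constructor
  · show stepHol (E 1) (D 1) (lev D i 1) (stepHol (E 0) (D 0) i t) = _
    rw [e1, h0, h1]
    unfold stepHol
    rw [if_neg (by omega), if_pos rfl, if_pos rfl]
  · show stepLev (D 1) (lev D i 1) = i
    rw [e1, h1]
    unfold stepLev
    rw [if_neg (by omega), if_pos rfl]

theorem path_down {D : ℕ → ℕ} {E : ℕ → ℝ ≃o ℝ} {i : ℕ} (h0 : D 0 = i) (h1 : D 1 = i) (t : ℝ) :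
    hol D E (i + 1) 2 t = E 1 ((E 0).symm t) ∧ lev D (i + 1) 2 = i + 1 := by
  have e1 : lev D (i + 1) 1 = i := by
    show stepLev (D 0) (i + 1) = i
    rw [h0]; unfold stepLev; rw [if_neg (by omega), if_pos rfl]
  constructor
  · show stepHol (E 1) (D 1) (lev D (i + 1) 1) (stepHol (E 0) (D 0) (i + 1) t) = _
    rw [e1, h0, h1]
    unfold stepHol
    rw [if_pos rfl, if_neg (by omega), if_pos rfl]
  · show stepLev (D 1) (lev D (i + 1) 1) = i + 1
    rw [e1, h1]
    unfold stepLev
    rw [if_pos rfl]

theorem path_neutral {D : ℕ → ℕ} {E : ℕ → ℝ ≃o ℝ} {i L : ℕ} (h0 : D 0 = i) (h1 : D 1 = i)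
    (hL : L ≠ i) (hL' : L ≠ i + 1) (t : ℝ) : hol D E L 2 t = t := by
  have e1 : lev D L 1 = L := by
    show stepLev (D 0) L = L
    rw [h0]; unfold stepLev; rw [if_neg hL, if_neg hL']
  show stepHol (E 1) (D 1) (lev D L 1) (stepHol (E 0) (D 0) L t) = t
  rw [e1, h0, h1]
  unfold stepHol
  rw [if_neg hL, if_neg hL', if_neg hL, if_neg hL']
  rfl

/-- a full turn (with two equal last letters) acts on the levels as the first `N` letters -/
theorem lev_turn {N : ℕ} {col : ℕ → ℕ} (hlast : col (N + 1) = col N) (l j : ℕ) :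
    lev (fun m => col (m % (N + 2))) l (j * (N + 2)) = tlev col N l j := by
  induction j with
  | zero => rw [zero_mul]; rfl
  | succ j ih =>
    rw [add_mul, one_mul, lev_add, path_shift, ih]
    show stepLev (col ((N + 1) % (N + 2))) (stepLev (col (N % (N + 2)))
      (lev (fun m => col (m % (N + 2))) (tlev col N l j) N)) = lev col (tlev col N l j) N
    rw [Nat.mod_eq_of_lt (by omega), Nat.mod_eq_of_lt (by omega), hlast, stepLev_stepLev,
      path_levN]

/-- the level at the band `N` of a turn -/
theorem path_lev_at {N : ℕ} {col : ℕ → ℕ} (hlast : col (N + 1) = col N) (l q : ℕ) :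
    lev (fun m => col (m % (N + 2))) l (q * (N + 2) + N) = tlev col N l (q + 1) := by
  rw [lev_add, path_shift, lev_turn hlast, path_levN, tlev]

/-- if the levels `tlev col N l 1, …, tlev col N l (k-1)` are different from `i` and `i + 1`, then
the last two bands are neutral in the first `k - 1` turns and the holonomy up to the band `N` of the
`k`-th turn is `thol`. PROOF: induction on `k` with `hol_add`, `hol_congr`. -/
theorem hol_turns {N : ℕ} {col : ℕ → ℕ} {A : ℕ → ℝ ≃o ℝ} (hlast : col (N + 1) = col N) (l k : ℕ)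
    (hk : 0 < k) (hne : ∀ j, 0 < j → j < k → tlev col N l j ≠ col N ∧ tlev col N l j ≠ col N + 1)
    (t : ℝ) :
    hol (fun m => col (m % (N + 2))) (fun m => A (m % (N + 2))) l ((k - 1) * (N + 2) + N) t =
      thol col A N l k t := by
  induction k with
  | zero => omega
  | succ k ih =>
    rcases Nat.eq_zero_or_pos k with h0 | h0
    · subst h0
      have e : (0 + 1 - 1) * (N + 2) + N = N := by simp
      rw [e, path_holN]
      rfl
    · have ih' := ih h0 (fun j hj hjk => hne j hj (by omega))
      obtain ⟨q, rfl⟩ : ∃ q, k = q + 1 := ⟨k - 1, by omega⟩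
      have e1 : (q + 1 + 1 - 1) * (N + 2) + N = (q + 1) * (N + 2) + N := by
        rw [Nat.add_sub_cancel]
      have e2 : (q + 1) * (N + 2) = (q * (N + 2) + N) + 2 := by ring
      have e3 : (q + 1 - 1) * (N + 2) + N = q * (N + 2) + N := by rw [Nat.add_sub_cancel]
      rw [e3] at ih'
      have h2 : hol (fun m => col (m % (N + 2))) (fun m => A (m % (N + 2))) l
          ((q + 1) * (N + 2)) t = thol col A N l (q + 1) t := by
        rw [e2, hol_add, path_shift2, path_shift2, path_lev_at hlast, ih']
        obtain ⟨n1, n2⟩ := hne (q + 1) (by omega) (by omega)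
        exact path_neutral (i := col N)
          (by show col ((N + 0) % (N + 2)) = col N
              rw [Nat.add_zero, Nat.mod_eq_of_lt (by omega)])
          (by show col ((N + 1) % (N + 2)) = col N
              rw [Nat.mod_eq_of_lt (by omega), hlast]) n1 n2 _
      rw [e1, hol_add, path_shift, path_shift, lev_turn hlast, path_holN, h2]
      rfl

/-- THE BOUNDARY WORD. `a` is a time `≡ N` modulo `N + 2` at which the path starting at `l0` is at the
level `col N`. PROOF: cut the `n` turns starting at the time `a` (level `i = col N`) into: band `N` up,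
band `N+1` down; `k` turns of `N` letters (`hol_turns` from the level `i`); at the level `i + 1`: band `N`
down, band `N + 1` up; `k'` turns from the level `i + 1` (`hol_turns`). Uses `hol_add`, `lev_add` and the
periodicity of the word (`hol_congr`, `lev_congr`). -/
theorem exists_base {n N : ℕ} {col : ℕ → ℕ} {A : ℕ → ℝ ≃o ℝ} (hlast : col (N + 1) = col N)
    {l0 : ℕ} {k k' : ℕ} (hk0 : 0 < k) (hk0' : 0 < k') (hkk : k + k' = n)
    (h1 : tlev col N (col N) k = col N + 1) (h2 : tlev col N (col N + 1) k' = col N)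
    (hne : ∀ j, 0 < j → j < n → j ≠ k → tlev col N (col N) j ≠ col N ∧
      tlev col N (col N) j ≠ col N + 1)
    (hreach : ∃ j, tlev col N l0 j = col N) :
    ∃ a, lev (fun m => col (m % (N + 2))) l0 a = col N ∧
      ∀ t, hol (fun m => col ((a + m) % (N + 2))) (fun m => A ((a + m) % (N + 2))) (col N)
        (n * (N + 2)) t =
        thol col A N (col N + 1) k' (A (N + 1) ((A N).symm (thol col A N (col N) k
          ((A (N + 1)).symm (A N t))))) := by
  -- the time `a`
  obtain ⟨q, hq⟩ : ∃ q, tlev col N l0 (q + 1) = col N := by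
    obtain ⟨j, hj⟩ := hreach
    rcases Nat.eq_zero_or_pos j with h | h
    · subst h
      have h3 : l0 = col N := hj
      refine ⟨n - 1, ?_⟩
      rw [show n - 1 + 1 = k + k' by omega, tlev_add, h3, h1, h2]
    · exact ⟨j - 1, by rw [show j - 1 + 1 = j by omega]; exact hj⟩
  refine ⟨q * (N + 2) + N, ?_, fun t => ?_⟩
  · rw [path_lev_at hlast, hq]
  rw [path_shift2, path_shift2]
  have d0 : (fun m => col ((N + m) % (N + 2))) 0 = col N := by
    show col ((N + 0) % (N + 2)) = col N
    rw [Nat.add_zero, Nat.mod_eq_of_lt (by omega)]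
  have d1 : (fun m => col ((N + m) % (N + 2))) 1 = col N := by
    show col ((N + 1) % (N + 2)) = col N
    rw [Nat.mod_eq_of_lt (by omega), hlast]
  have a0 : A ((N + 0) % (N + 2)) = A N := by
    rw [Nat.add_zero, Nat.mod_eq_of_lt (by omega)]
  have a1 : A ((N + 1) % (N + 2)) = A (N + 1) := by
    rw [Nat.mod_eq_of_lt (by omega)]
  have hu := fun t => path_up (D := fun m => col ((N + m) % (N + 2))) (E := fun m => A ((N + m) % (N + 2))) d0 d1 t
  have hd := fun t => path_down (D := fun m => col ((N + m) % (N + 2))) (E := fun m => A ((N + m) % (N + 2))) d0 d1 t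
  rw [a0, a1] at hu hd
  have etot : n * (N + 2) = 2 + (((k - 1) * (N + 2) + N) + (2 + ((k' - 1) * (N + 2) + N))) := by
    obtain ⟨r, rfl⟩ : ∃ r, k = r + 1 := ⟨k - 1, by omega⟩
    obtain ⟨r', rfl⟩ : ∃ r', k' = r' + 1 := ⟨k' - 1, by omega⟩
    rw [← hkk, Nat.add_sub_cancel, Nat.add_sub_cancel]
    ring
  rw [etot, hol_add, path_shift3, path_shift3, (hu t).2, (hu t).1, hol_add, path_shift2,
    path_shift2, path_lev_at hlast, Nat.sub_add_cancel (show 1 ≤ k by omega), h1, hol_add,
    path_shift3, path_shift3, (hd t).2, (hd _).1]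
  have g1 : ∀ s, hol (fun m => col (m % (N + 2))) (fun m => A (m % (N + 2))) (col N)
      ((k - 1) * (N + 2) + N) s = thol col A N (col N) k s :=
    hol_turns hlast (col N) k hk0 (fun j hj hjk => hne j hj (by omega) (by omega))
  have g2 : ∀ s, hol (fun m => col (m % (N + 2))) (fun m => A (m % (N + 2))) (col N + 1)
      ((k' - 1) * (N + 2) + N) s = thol col A N (col N + 1) k' s :=
    hol_turns hlast (col N + 1) k' hk0' (fun j hj hjk => by
      have h3 := hne (k + j) (by omega) (by omega) (by omega)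
      rw [tlev_add, h1] at h3
      exact h3)
  rw [g1, g2]

/-- change of the base point of a closed path of a periodic word. PROOF: compute
`hol … (a + K) t = hol … (K + a) t` in two ways with `hol_add`; `K` is a multiple of the period and the
level at the time `K` is `l0` again. -/
theorem hol_rotate {c K : ℕ} (hc : 0 < c) {col : ℕ → ℕ} {A : ℕ → ℝ ≃o ℝ} (hK : c ∣ K) {l0 : ℕ}
    (hl : lev (fun m => col (m % c)) l0 K = l0) (a : ℕ) (t : ℝ) :
    hol (fun m => col ((a + m) % c)) (fun m => A ((a + m) % c)) (lev (fun m => col (m % c)) l0 a) K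
        (hol (fun m => col (m % c)) (fun m => A (m % c)) l0 a t) =
      hol (fun m => col (m % c)) (fun m => A (m % c)) l0 a
        (hol (fun m => col (m % c)) (fun m => A (m % c)) l0 K t) := by
  have hsh : ∀ {α : Type} (f : ℕ → α), (fun m => f ((K + m) % c)) = fun m => f (m % c) := by
    intro α f
    funext m
    obtain ⟨q, rfl⟩ := hK
    rw [Nat.add_comm, Nat.add_mul_mod_self_left]
  have e1 := hol_add (fun m => col (m % c)) (fun m => A (m % c)) l0 a K t
  have e2 := hol_add (fun m => col (m % c)) (fun m => A (m % c)) l0 K a t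
  rw [hsh, hsh, hl] at e2
  rw [← e1, ← e2, Nat.add_comm]

/-- gauge transformation of the holonomies -/
theorem hol_gauge {col : ℕ → ℕ} {A A' : ℕ → ℝ ≃o ℝ} {G : ℕ → (ℝ ≃o ℝ)}
    (hG : ∀ m t, A' m (G (col m) t) = G (col m + 1) (A m t)) (l m : ℕ) (t : ℝ) :
    hol col A' l m (G l t) = G (lev col l m) (hol col A l m t) := by
  induction m with
  | zero => rfl
  | succ m ih =>
    show stepHol (A' m) (col m) (lev col l m) (hol col A' l m (G l t)) =
      G (stepLev (col m) (lev col l m)) (stepHol (A m) (col m) (lev col l m) (hol col A l m t))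
    rw [ih]
    unfold stepHol stepLev
    by_cases h1 : lev col l m = col m
    · rw [if_pos h1, if_pos h1, if_pos h1, h1, hG]
    · rw [if_neg h1, if_neg h1, if_neg h1]
      by_cases h2 : lev col l m = col m + 1
      · rw [if_pos h2, if_pos h2, if_pos h2, h2]
        apply (A' m).injective
        rw [OrderIso.apply_symm_apply, hG, OrderIso.apply_symm_apply]
      · rw [if_neg h2, if_neg h2, if_neg h2]
        rfl

end Pool.Agent.H.MP_1611f1_gt.PB
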