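import Pool.Agent.H.MP_1611f1_gt.PB.Raw
import Pool.Agent.H.MP_1611f1_gt.PB.Gauge
import Pool.Agent.H.MP_1611f1_gt.PB.Path

/-!
The one-dimensional data of a positive braid word with two equal last letters.
-/

namespace Pool.Agent.H.MP_1611f1_gt.PB

open Set Filter Topology

/-- THE FINAL ONE-DIMENSIONAL DATA. Bands `m < N + 2` in the columns `col m`, levels `0, …, n - 1`, the
last two bands in the same column; the closed braid is a knot (`hknot`). For every real `s` between `0`
and `N + 2 - n` there are homeomorphisms `A m` of the line with the period `T` and integer times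
`τ m` of the bricks `(m, m')` such that `A m` and `A m'` fix `τ m`; the times of two
crossing bricks are in the order of the braid monodromy; the holonomy of the boundary path is
conjugate (by `th`) to the translation by `s * T`. -/
theorem exists_data {n N : ℕ} {col : ℕ → ℕ} (hcol : ∀ m < N + 2, col m + 1 < n)
    (hlast : col (N + 1) = col N) {l0 : ℕ} (hl0 : l0 < n)
    (hknot : ∀ l < n, ∃ j, lev (fun m => col (m % (N + 2))) l0 (j * (N + 2)) = l) {s : ℝ}
    (hs : 0 < s) (hs1 : s < (N : ℝ) + 2 - n) :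
    ∃ (T : ℕ) (A : ℕ → ℝ ≃o ℝ) (τ : ℕ → ℤ) (th : ℝ ≃o ℝ), 2 ≤ T ∧
      (∀ m t, A m (t + T) = A m t + T) ∧
      (∀ m m', Nxt col (N + 2) m m' → A m (τ m) = τ m ∧ A m' (τ m) = τ m) ∧
      (∀ m m₁ m₂, Nxt col (N + 2) m m₁ → Nxt col (N + 2) m₁ m₂ → τ m₁ < τ m ∧ τ m < τ m₁ + T) ∧
      (∀ m m₁ d d₁, Nxt col (N + 2) m m₁ → Nxt col (N + 2) d d₁ → col d = col m + 1 → m < d₁ →
        d < m₁ → τ d < τ m ∧ τ m < τ d + T) ∧
      (∀ t, th (t + T) = th t + T) ∧
      lev (fun m => col (m % (N + 2))) l0 (n * (N + 2)) = l0 ∧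
      ∀ t, th (hol (fun m => col (m % (N + 2))) (fun m => A (m % (N + 2))) l0 (n * (N + 2)) t) =
        th t + s * T := by
  classical
  have hknot' : ∀ l < n, ∃ j, tlev col N l0 j = l := by
    intro l hl
    obtain ⟨j, hj⟩ := hknot l hl
    exact ⟨j, by rw [← lev_turn hlast, hj]⟩
  have hcol' : ∀ m < N, col m + 1 < n := fun m hm => hcol m (by omega)
  obtain ⟨A, T, U, hA, hmark, hone, htwo, k, k', hk, hk', hkk, h1, h2, hne, hW⟩ :=
    exists_raw hcol hlast hl0 hknot' hs hs1
  set B : Finset ℕ := (Finset.range (N + 2)).filter fun m => ∃ m', Nxt col (N + 2) m m' with hB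
  have hmem : ∀ m m', Nxt col (N + 2) m m' → m ∈ B := by
    intro m m' h
    rw [hB, Finset.mem_filter, Finset.mem_range]
    exact ⟨by have := h.1; have := h.2.1; omega, m', h⟩
  have hmem' : ∀ m ∈ B, ∃ m', Nxt col (N + 2) m m' := fun m hm => (Finset.mem_filter.1 hm).2
  obtain ⟨G, hG, hGTU⟩ := exists_gauge col B T U
    (fun m hm m' hm' hc h => by
      obtain ⟨a, ha⟩ := hmem' m hm
      obtain ⟨b, hb⟩ := hmem' m' hm'
      have := hone m a m' b ha hb hc h
      exact ⟨this.1, this.2.1⟩)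
    (fun m hm m' hm' hc h => by
      obtain ⟨a, ha⟩ := hmem' m hm
      obtain ⟨b, hb⟩ := hmem' m' hm'
      have := hone m a m' b ha hb hc h
      exact ⟨this.2.2.1, this.2.2.2⟩)
  obtain ⟨P, Γ, hP2, hΓ, hint⟩ := exists_int_times B (fun m => G (col m) (T m))
  have hP0 : (0 : ℝ) < P := by
    have : (2 : ℝ) ≤ P := by exact_mod_cast hP2
    linarith
  set g : ℕ → (ℝ ≃o ℝ) := fun k => (G k).trans Γ with hg
  have hgap : ∀ k x, g k x = Γ (G k x) := fun _ _ => rfl
  have hg1 : ∀ k x, g k (x + 1) = g k x + P := by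
    intro k x
    rw [hgap, hgap, hG, hΓ]
  have hg2 : ∀ k x, (g k).symm (x + P) = (g k).symm x + 1 := by
    intro k x
    apply (g k).injective
    rw [hg1, OrderIso.apply_symm_apply, OrderIso.apply_symm_apply]
  set A' : ℕ → ℝ ≃o ℝ := fun m => ((g (col m)).symm.trans (A m)).trans (g (col m + 1)) with hA'
  have hA'g : ∀ m t, A' m (g (col m) t) = g (col m + 1) (A m t) := by
    intro m t
    show g (col m + 1) (A m ((g (col m)).symm (g (col m) t))) = _
    rw [OrderIso.symm_apply_apply]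
  have hA'per : ∀ m t, A' m (t + P) = A' m t + P := by
    intro m t
    show g (col m + 1) (A m ((g (col m)).symm (t + P))) =
      g (col m + 1) (A m ((g (col m)).symm t)) + P
    rw [hg2, hA, hg1]
  choose! τ hτ using hint
  have hτg : ∀ m m', Nxt col (N + 2) m m' → (τ m : ℝ) = g (col m) (T m) := by
    intro m m' h
    rw [hgap]
    exact (hτ m (hmem m m' h)).symm
  have hτU : ∀ m m', Nxt col (N + 2) m m' → (τ m : ℝ) = g (col m + 1) (U m) := by
    intro m m' h
    rw [hτg m m' h, hgap, hgap, hGTU m (hmem m m' h)]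
  have hi : col N < n := by have := hcol N (by omega); omega
  obtain ⟨a, ha, hbase⟩ := exists_base (A := A) hlast (l0 := l0) hk hk' hkk h1 h2 hne (hknot' _ hi)
  have hclose : lev (fun m => col (m % (N + 2))) l0 (n * (N + 2)) = l0 := by
    rw [lev_turn hlast]
    exact (knot_facts hcol' hl0 hknot' hl0).1
  set V : ℝ ≃o ℝ := hol (fun m => col (m % (N + 2))) (fun m => A (m % (N + 2))) l0 a with hV
  set H : ℝ ≃o ℝ := hol (fun m => col (m % (N + 2))) (fun m => A (m % (N + 2))) l0 (n * (N + 2))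
    with hH
  have hV1 : ∀ t, V (t + 1) = V t + 1 := fun t => hol_per (fun m t => hA _ t) _ _ _
  have hVH : ∀ t, V (H t) = V t + s := by
    intro t
    have e := hol_rotate (c := N + 2) (K := n * (N + 2)) (by omega) (col := col) (A := A)
      (Dvd.intro_left _ rfl) hclose a t
    rw [ha, hbase, hW] at e
    exact e.symm
  have hH' : ∀ t, hol (fun m => col (m % (N + 2))) (fun m => A' (m % (N + 2))) l0 (n * (N + 2))
      (g l0 t) = g l0 (H t) := by
    intro t
    have e := hol_gauge (col := fun m => col (m % (N + 2))) (A := fun m => A (m % (N + 2)))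
      (A' := fun m => A' (m % (N + 2))) (G := g) (fun m t => hA'g _ t) l0 (n * (N + 2)) t
    rw [hclose] at e
    exact e
  refine ⟨P, A', τ, ((g l0).symm.trans V).trans (OrderIso.mulLeft₀ (P : ℝ) hP0), hP2, hA'per, ?_, ?_,
    ?_, ?_, hclose, ?_⟩
  · intro m m' h
    obtain ⟨e1, e2⟩ := hmark m m' h
    have hc : col m' = col m := h.2.2.1
    constructor
    · conv_lhs => rw [hτg m m' h]
      rw [hA'g, e1, ← hτU m m' h]
    · conv_lhs => rw [hτg m m' h, ← hc]
      rw [hA'g, e2, hc, ← hτU m m' h]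
  · intro m m₁ m₂ h h'
    have hc : col m₁ = col m := h.2.2.1
    obtain ⟨e1, e2, -, -⟩ := hone m m₁ m₁ m₂ h h' hc.symm h.1
    constructor
    · have : (τ m₁ : ℝ) < τ m := by
        rw [hτg m m₁ h, hτg m₁ m₂ h', hc]
        exact (g (col m)).strictMono e1
      exact_mod_cast this
    · have : (τ m : ℝ) < τ m₁ + P := by
        rw [hτg m m₁ h, hτg m₁ m₂ h', hc, ← hg1]
        exact (g (col m)).strictMono e2
      exact_mod_cast this
  · intro m m₁ d d₁ h h' hc hmd hdm
    obtain ⟨e1, e2⟩ := htwo m m₁ d d₁ h h' hc hmd hdm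
    constructor
    · have : (τ d : ℝ) < τ m := by
        rw [hτU m m₁ h, hτg d d₁ h', hc]
        exact (g (col m + 1)).strictMono e1
      exact_mod_cast this
    · have : (τ m : ℝ) < τ d + P := by
        rw [hτU m m₁ h, hτg d d₁ h', hc, ← hg1]
        exact (g (col m + 1)).strictMono e2
      exact_mod_cast this
  · intro t
    show (P : ℝ) * V ((g l0).symm (t + P)) = (P : ℝ) * V ((g l0).symm t) + P
    rw [hg2, hV1]
    ring
  · intro t
    obtain ⟨x, rfl⟩ := (g l0).surjective t
    show (P : ℝ) * V ((g l0).symm (hol _ _ _ _ (g l0 x))) =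
      (P : ℝ) * V ((g l0).symm (g l0 x)) + s * P
    rw [hH', OrderIso.symm_apply_apply, OrderIso.symm_apply_apply, hVH]
    ring

end Pool.Agent.H.MP_1611f1_gt.PB
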