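import Pool.Agent.H.MP_1611f1_gt.PB.Braid

/-!
Iterating one turn (the first `N` letters) around the closed braid.
-/

namespace Pool.Agent.H.MP_1611f1_gt.PB

open Set Filter Topology

/-- the level after `j` turns -/
def tlev (col : ℕ → ℕ) (N l : ℕ) : ℕ → ℕ
  | 0 => l
  | j + 1 => lev col (tlev col N l j) N

/-- the holonomy of `j` turns -/
noncomputable def thol (col : ℕ → ℕ) (A : ℕ → ℝ ≃o ℝ) (N l : ℕ) : ℕ → (ℝ ≃o ℝ)
  | 0 => OrderIso.refl ℝ
  | j + 1 => (thol col A N l j).trans (hol col A (tlev col N l j) N)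

/-- the number of bands passed upwards in `j` turns -/
def tups (col : ℕ → ℕ) (N l : ℕ) : ℕ → ℕ
  | 0 => 0
  | j + 1 => tups col N l j + ups col (tlev col N l j) N

theorem tlev_add (col : ℕ → ℕ) (N l a b : ℕ) :
    tlev col N l (a + b) = tlev col N (tlev col N l a) b := by
  induction b with
  | zero => rfl
  | succ b ih =>
    rw [← add_assoc, tlev, ih, tlev]

theorem thol_add (col : ℕ → ℕ) (A : ℕ → ℝ ≃o ℝ) (N l a b : ℕ) (t : ℝ) :
    thol col A N l (a + b) t = thol col A N (tlev col N l a) b (thol col A N l a t) := by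
  induction b with
  | zero => rfl
  | succ b ih =>
    show hol col A (tlev col N l (a + b)) N (thol col A N l (a + b) t) =
      hol col A (tlev col N (tlev col N l a) b) N
        (thol col A N (tlev col N l a) b (thol col A N l a t))
    rw [ih, tlev_add]

theorem tups_add (col : ℕ → ℕ) (N l a b : ℕ) :
    tups col N l (a + b) = tups col N l a + tups col N (tlev col N l a) b := by
  induction b with
  | zero => rfl
  | succ b ih =>
    rw [← add_assoc, tups, ih, tlev_add, tups, add_assoc]

theorem thol_per {col : ℕ → ℕ} {A : ℕ → ℝ ≃o ℝ} {P : ℝ} (hA : ∀ m t, A m (t + P) = A m t + P)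
    (N l j : ℕ) (t : ℝ) : thol col A N l j (t + P) = thol col A N l j t + P := by
  induction j with
  | zero => rfl
  | succ j ih =>
    show hol col A (tlev col N l j) N (thol col A N l j (t + P)) =
      hol col A (tlev col N l j) N (thol col A N l j t) + P
    rw [ih, hol_per hA]

theorem tlev_lt {n : ℕ} {col : ℕ → ℕ} {N : ℕ} (hcol : ∀ m < N, col m + 1 < n) {l : ℕ} (hl : l < n)
    (j : ℕ) : tlev col N l j < n := by
  induction j with
  | zero => exact hl
  | succ j ih => exact lev_lt hcol ih N le_rfl

theorem tlev_inj (col : ℕ → ℕ) (N j : ℕ) : Function.Injective (fun l => tlev col N l j) := by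
  induction j with
  | zero => exact fun a b h => h
  | succ j ih => exact fun a b h => ih (lev_inj col N h)

theorem tlev_mul {col : ℕ → ℕ} {N l q : ℕ} (h : tlev col N l q = l) (j : ℕ) :
    tlev col N l (q * j) = l := by
  induction j with
  | zero => rfl
  | succ j ih => rw [Nat.mul_succ, tlev_add, ih, h]

theorem tlev_mod {col : ℕ → ℕ} {N l q : ℕ} (h : tlev col N l q = l) (j : ℕ) :
    tlev col N l (j % q) = tlev col N l j := by
  conv_rhs => rw [← Nat.div_add_mod j q, tlev_add, tlev_mul h]

/-- If the turns starting at the level `l0` reach every level (the closure is a knot) then they do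
so from every level `l`, the first `n` levels are different, and the path closes after `n`
turns. PROOF: `f = fun l => lev col l N` is injective (`lev_inj`) and maps `range n` to itself, so
it is a permutation of `range n`; the orbit of `l0` is everything, hence `f` is a single
`n`-cycle. (E.g.: if `tlev l a = tlev l b` with `a < b ≤ n` then by injectivity `tlev l (b-a) = l`,
the orbit of `l` has at most `b - a` elements, but it contains `l0` and everything else: `b - a = n`.) -/
theorem knot_facts {n : ℕ} {col : ℕ → ℕ} {N : ℕ} (hcol : ∀ m < N, col m + 1 < n) {l0 : ℕ}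
    (hl0 : l0 < n) (hk : ∀ l < n, ∃ j, tlev col N l0 j = l) {l : ℕ} (hl : l < n) :
    tlev col N l n = l ∧ (∀ a < n, ∀ b < n, tlev col N l a = tlev col N l b → a = b) ∧
      ∀ l' < n, ∃ j < n, tlev col N l j = l' := by
  have hn : 0 < n := by omega
  -- some return time of `l0`
  obtain ⟨q, hq0, hqn, hq⟩ : ∃ q, 0 < q ∧ q ≤ n ∧ tlev col N l0 q = l0 := by
    have hmap : ∀ j ∈ Finset.range (n + 1), tlev col N l0 j ∈ Finset.range n := fun j _ =>
      Finset.mem_range.2 (tlev_lt hcol hl0 j)
    have hcard : (Finset.range n).card < (Finset.range (n + 1)).card := by simp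
    obtain ⟨a, ha, b, hb, hab, he⟩ := Finset.exists_ne_map_eq_of_card_lt_of_maps_to hcard hmap
    rw [Finset.mem_range] at ha hb
    have key : ∀ a b : ℕ, a < b → b ≤ n → tlev col N l0 a = tlev col N l0 b →
        ∃ q, 0 < q ∧ q ≤ n ∧ tlev col N l0 q = l0 := by
      intro a b hab hb he
      refine ⟨b - a, by omega, by omega, ?_⟩
      have h1 : tlev col N l0 b = tlev col N (tlev col N l0 (b - a)) a := by
        rw [← tlev_add, Nat.sub_add_cancel hab.le]
      rw [h1] at he
      exact (tlev_inj col N a he).symm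
    rcases Nat.lt_or_gt_of_ne hab with h | h
    · exact key a b h (by omega) he
    · exact key b a h (by omega) he.symm
  -- it is `n`
  have hqn' : q = n := by
    by_contra hne
    have hlt : q < n := by omega
    have hsurj : ∀ l' ∈ Finset.range n, l' ∈ (Finset.range q).image (fun j => tlev col N l0 j) := by
      intro l' hl'
      rw [Finset.mem_range] at hl'
      obtain ⟨j, hj⟩ := hk l' hl'
      rw [Finset.mem_image]
      exact ⟨j % q, Finset.mem_range.2 (Nat.mod_lt _ hq0), by rw [tlev_mod hq, hj]⟩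
    have h1 := Finset.card_le_card (show Finset.range n ⊆ _ from hsurj)
    have h2 := Finset.card_image_le (s := Finset.range q) (f := fun j => tlev col N l0 j)
    simp only [Finset.card_range] at h1 h2
    omega
  subst hqn'
  obtain ⟨j0, hj0⟩ := hk l hl
  have hret : tlev col N l q = l := by
    rw [← hj0, ← tlev_add, Nat.add_comm, tlev_add, hq]
  have hsurj : ∀ l' < q, ∃ j < q, tlev col N l j = l' := by
    intro l' hl'
    obtain ⟨j', hj'⟩ := hk l' hl'
    -- l0 = tlev l (something)
    have h1 : tlev col N l ((q - 1) * j0) = l0 := by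
      rw [← hj0, ← tlev_add]
      have : j0 + (q - 1) * j0 = q * j0 := by
        obtain ⟨r, rfl⟩ : ∃ r, q = r + 1 := ⟨q - 1, by omega⟩
        simp only [Nat.add_sub_cancel]
        ring
      rw [this, tlev_mul hq]
    refine ⟨((q - 1) * j0 + j') % q, Nat.mod_lt _ hn, ?_⟩
    rw [tlev_mod hret, tlev_add, h1, hj']
  refine ⟨hret, ?_, hsurj⟩
  intro a ha b hb he
  have hs : Function.Surjective (fun j : Fin q => (⟨tlev col N l j, tlev_lt hcol hl j⟩ : Fin q)) := by
    rintro ⟨l', hl'⟩
    obtain ⟨j, hj, h⟩ := hsurj l' hl'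
    exact ⟨⟨j, hj⟩, Fin.ext h⟩
  have hi := Finite.injective_iff_surjective.2 hs
  have := @hi ⟨a, ha⟩ ⟨b, hb⟩ (Fin.ext he)
  exact congrArg Fin.val this

theorem tups_eq_sum (col : ℕ → ℕ) (N l : ℕ) (j : ℕ) :
    tups col N l j = ∑ k ∈ Finset.range j, ups col (tlev col N l k) N := by
  induction j with
  | zero => rfl
  | succ j ih => rw [tups, ih, Finset.sum_range_succ]

/-- in `n` turns every band is passed upwards exactly once. PROOF: `sum_ups` and the bijection
`j ↦ tlev col N l j` from `range n` to `range n` of `knot_facts`; `tups l n` is the sum over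
`j < n` of `ups (tlev l j) N`. -/
theorem tups_knot {n : ℕ} {col : ℕ → ℕ} {N : ℕ} (hcol : ∀ m < N, col m + 1 < n) {l0 : ℕ}
    (hl0 : l0 < n) (hk : ∀ l < n, ∃ j, tlev col N l0 j = l) {l : ℕ} (hl : l < n) :
    tups col N l n = N := by
  obtain ⟨-, hinj, hsurj⟩ := knot_facts hcol hl0 hk hl
  rw [tups_eq_sum]
  have h1 : ∑ k ∈ Finset.range n, ups col (tlev col N l k) N =
      ∑ l' ∈ Finset.range n, ups col l' N := by
    refine Finset.sum_bij (fun k _ => tlev col N l k) ?_ ?_ ?_ ?_
    · intro k _
      exact Finset.mem_range.2 (tlev_lt hcol hl k)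
    · intro a ha b hb he
      exact hinj a (Finset.mem_range.1 ha) b (Finset.mem_range.1 hb) he
    · intro l' hl'
      obtain ⟨j, hj, h⟩ := hsurj l' (Finset.mem_range.1 hl')
      exact ⟨j, Finset.mem_range.2 hj, h⟩
    · intro k _
      rfl
  rw [h1]
  exact sum_ups hcol N le_rfl

/-- the two parts `R₁`, `R₂` of the path: from the level `i` to the level `i + 1` in `k` turns and
back in `k'` turns. -/
theorem knot_split {n : ℕ} {col : ℕ → ℕ} {N : ℕ} (hcol : ∀ m < N, col m + 1 < n) {l0 : ℕ}
    (hl0 : l0 < n) (hk : ∀ l < n, ∃ j, tlev col N l0 j = l) {i : ℕ} (hi : i + 1 < n) :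
    ∃ k k' : ℕ, 0 < k ∧ 0 < k' ∧ k + k' = n ∧ tlev col N i k = i + 1 ∧ tlev col N (i + 1) k' = i ∧
      (∀ j, 0 < j → j < n → j ≠ k → tlev col N i j ≠ i ∧ tlev col N i j ≠ i + 1) ∧
      tups col N i k + tups col N (i + 1) k' = N := by
  obtain ⟨hret, hinj, hsurj⟩ := knot_facts hcol hl0 hk (show i < n by omega)
  obtain ⟨k, hkn, hki⟩ := hsurj (i + 1) hi
  have hk0 : 0 < k := by
    rcases Nat.eq_zero_or_pos k with h | h
    · subst h
      have : i = i + 1 := hki
      omega
    · exact h
  refine ⟨k, n - k, hk0, by omega, by omega, hki, ?_, ?_, ?_⟩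
  · rw [← hki, ← tlev_add, show k + (n - k) = n by omega, hret]
  · intro j hj0 hjn hjk
    constructor
    · intro h
      have := hinj j hjn 0 (by omega) h
      omega
    · intro h
      exact hjk (hinj j hjn k hkn (h.trans hki.symm))
  · have h1 := tups_knot hcol hl0 hk (show i < n by omega)
    have h2 := tups_add col N i k (n - k)
    rw [show k + (n - k) = n by omega, h1, hki] at h2
    exact h2.symm

end Pool.Agent.H.MP_1611f1_gt.PB
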