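import Pool.Agent.H.MP_1611f1_gt.PB.Zed
import Pool.Agent.H.MP_1611f1_gt.PB.Turns

/-!
The lower bound for the holonomy (section 3 of h49_1611f1_PB.md) and the case `p = 0`.
-/

namespace Pool.Agent.H.MP_1611f1_gt.PB

open Set Filter Topology

/-- passing one band -/
theorem step_lower {p f : ℝ} (c l : ℕ) (k : ℤ) {x : ℝ} (hx : f + k + ep p ≤ x) :
    f + (k + (if l = c then 1 else 0 : ℕ) : ℤ) - ep p ≤ stepHol (bI p f) c l x := by
  unfold stepHol
  split_ifs with h1 h2
  · have := bI_ge p f k hx
    push_cast
    exact this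
  · have := bI_symm_ge p f k hx
    push_cast
    simpa using this
  · have h := ep_pos p
    push_cast
    simp only [OrderIso.refl_apply]
    linarith

/-- one turn. PROOF: induction on `m < N` for the statement `pos m + k + ups l m + ep p ≤ hol l m t`
(before the band `m`); the step uses `bI_ge` (up), `bI_symm_ge` (down) or nothing, and the gap. -/
theorem turn_lower {p : ℝ} {pos : ℕ → ℝ} {N : ℕ} (hN : 0 < N)
    (hgap : ∀ m, m + 1 < N → pos (m + 1) + 2 * ep p ≤ pos m) (col : ℕ → ℕ) (l : ℕ) (k : ℤ) {t : ℝ}
    (ht : pos 0 + k + ep p ≤ t) :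
    pos (N - 1) + (k + ups col l N : ℤ) - ep p ≤ hol col (fun m => bI p (pos m)) l N t := by
  have key : ∀ m, m < N → pos m + (k + ups col l (m + 1) : ℤ) - ep p ≤
      hol col (fun m => bI p (pos m)) l (m + 1) t := by
    intro m
    induction m with
    | zero =>
      intro _
      have h := step_lower (p := p) (f := pos 0) (col 0) (lev col l 0) k ht
      show pos 0 + (k + ((ups col l 0 + (if lev col l 0 = col 0 then 1 else 0) : ℕ) : ℤ) : ℤ) -
        ep p ≤ stepHol (bI p (pos 0)) (col 0) (lev col l 0)
          (hol col (fun m => bI p (pos m)) l 0 t)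
      rw [show ups col l 0 = 0 from rfl, zero_add]
      exact h
    | succ m ih =>
      intro hm
      have h0 := ih (by omega)
      have h1 := hgap m hm
      have h2 : pos (m + 1) + (k + ups col l (m + 1) : ℤ) + ep p ≤
          hol col (fun m => bI p (pos m)) l (m + 1) t := by linarith
      have h := step_lower (p := p) (f := pos (m + 1)) (col (m + 1)) (lev col l (m + 1)) _ h2
      show pos (m + 1) + (k + ((ups col l (m + 1) +
        (if lev col l (m + 1) = col (m + 1) then 1 else 0) : ℕ) : ℤ) : ℤ) - ep p ≤
        stepHol (bI p (pos (m + 1))) (col (m + 1)) (lev col l (m + 1))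
          (hol col (fun m => bI p (pos m)) l (m + 1) t)
      convert h using 3
      push_cast
      ring
  obtain ⟨M, rfl⟩ : ∃ M, N = M + 1 := ⟨N - 1, by omega⟩
  exact key M (by omega)

/-- `j ≥ 1` turns. PROOF: induction on `j` with `turn_lower`; between two turns
`pos (N-1) + κ - ep p ≥ pos 0 + (κ - 1) + ep p` by `hspread`. -/
theorem turns_lower {p : ℝ} {pos : ℕ → ℝ} {N : ℕ} (hN : 0 < N)
    (hgap : ∀ m, m + 1 < N → pos (m + 1) + 2 * ep p ≤ pos m)
    (hspread : pos 0 + 2 * ep p ≤ pos (N - 1) + 1) (col : ℕ → ℕ) (l : ℕ) (k : ℤ) {t : ℝ}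
    (ht : pos 0 + k + ep p ≤ t) (j : ℕ) (hj : 0 < j) :
    pos (N - 1) + (k + tups col N l j - (j - 1) : ℤ) - ep p ≤
      thol col (fun m => bI p (pos m)) N l j t := by
  induction j, hj using Nat.le_induction with
  | base =>
    have h := turn_lower hN hgap col l k ht
    have e1 : tups col N l (0 + 1) = ups col l N := by
      show 0 + ups col l N = _
      rw [zero_add]
    have e2 : thol col (fun m => bI p (pos m)) N l (0 + 1) t =
      hol col (fun m => bI p (pos m)) l N t := rfl
    rw [e1, e2]
    convert h using 3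
    push_cast
    ring
  | succ j hj ih =>
    have h2 : pos 0 + ((k + tups col N l j - j : ℤ) : ℝ) + ep p ≤
        thol col (fun m => bI p (pos m)) N l j t := by
      have : ((k + tups col N l j - (j - 1) : ℤ) : ℝ) = ((k + tups col N l j - j : ℤ) : ℝ) + 1 := by
        push_cast; ring
      rw [this] at ih
      linarith
    have h := turn_lower hN hgap col (tlev col N l j) _ h2
    have e1 : tups col N l (j + 1) = tups col N l j + ups col (tlev col N l j) N := rfl
    have e2 : thol col (fun m => bI p (pos m)) N l (j + 1) t =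
      hol col (fun m => bI p (pos m)) (tlev col N l j) N
        (thol col (fun m => bI p (pos m)) N l j t) := rfl
    rw [e1, e2]
    convert h using 3
    push_cast
    ring

/-- at `p = 0` every band map is the translation by `1/2`, so the holonomy is the translation by
half of the change of the level. -/
theorem hol_half (pos : ℕ → ℝ) (col : ℕ → ℕ) (l m : ℕ) (t : ℝ) :
    hol col (fun m => bI 0 (pos m)) l m t = t + ((lev col l m : ℝ) - l) / 2 := by
  induction m with
  | zero =>
    show t = t + ((l : ℝ) - l) / 2
    ring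
  | succ m ih =>
    show stepHol (bI 0 (pos m)) (col m) (lev col l m) (hol col (fun m => bI 0 (pos m)) l m t) =
      t + ((stepLev (col m) (lev col l m) : ℝ) - l) / 2
    rw [ih]
    unfold stepHol stepLev
    split_ifs with h1 h2
    · rw [bI_zero, h1]; push_cast; ring
    · rw [bI_symm, bI_zero, h2]; push_cast; ring
    · rfl

theorem thol_half (pos : ℕ → ℝ) (col : ℕ → ℕ) (N l j : ℕ) (t : ℝ) :
    thol col (fun m => bI 0 (pos m)) N l j t = t + ((tlev col N l j : ℝ) - l) / 2 := by
  induction j with
  | zero =>
    show t = t + ((l : ℝ) - l) / 2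
    ring
  | succ j ih =>
    show hol col (fun m => bI 0 (pos m)) (tlev col N l j) N
      (thol col (fun m => bI 0 (pos m)) N l j t) =
      t + ((lev col (tlev col N l j) N : ℝ) - l) / 2
    rw [ih, hol_half]
    ring

end Pool.Agent.H.MP_1611f1_gt.PB
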