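import Pool.Agent.H.MP_1611f1_gt.PB.ZCont
import Pool.Agent.H.MP_1611f1_gt.PB.Low

/-!
The function `D` (section 3 of h49_1611f1_PB.md).
-/

namespace Pool.Agent.H.MP_1611f1_gt.PB

open Set Filter Topology

/-- the positions `1 - η (m+1)/(N+1)`, `m < N`, in `(1 - η, 1)`, and `0` for `m ≥ N` -/
noncomputable def pos (η : ℝ) (N m : ℕ) : ℝ := if m < N then 1 - η * (m + 1) / (N + 1) else 0

theorem hol_succ_apply (col : ℕ → ℕ) (A : ℕ → ℝ ≃o ℝ) (l m : ℕ) (t : ℝ) :
    hol col A l (m + 1) t = stepHol (A m) (col m) (lev col l m) (hol col A l m t) := rfl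

theorem thol_succ_apply (col : ℕ → ℕ) (A : ℕ → ℝ ≃o ℝ) (N l j : ℕ) (t : ℝ) :
    thol col A N l (j + 1) t = hol col A (tlev col N l j) N (thol col A N l j t) := rfl

/-- the word holonomies are jointly continuous in `(p, x)`. -/
theorem hol_jcont (ps : ℕ → ℝ) (col : ℕ → ℕ) (l m : ℕ) :
    Continuous (fun q : ℝ × ℝ => hol col (fun m => bI q.1 (ps m)) l m q.2) := by
  induction m with
  | zero => exact continuous_snd
  | succ m ih =>
    simp only [hol_succ_apply]
    generalize hg : (fun q : ℝ × ℝ => hol col (fun m => bI q.1 (ps m)) l m q.2) = g at ih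
    have hg' : ∀ q : ℝ × ℝ, hol col (fun m => bI q.1 (ps m)) l m q.2 = g q := fun q =>
      congrFun hg q
    simp only [hg']
    clear hg hg'
    have hpair : Continuous (fun q : ℝ × ℝ => (q.1, g q)) := continuous_fst.prodMk ih
    by_cases h1 : lev col l m = col m
    · simp only [stepHol, if_pos h1]
      have h := Continuous.comp (g := fun q : ℝ × ℝ => bI q.1 (ps m) q.2)
        (f := fun q : ℝ × ℝ => (q.1, g q)) (bI_jcont (ps m)) hpair
      exact h
    · by_cases h2 : lev col l m = col m + 1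
      · simp only [stepHol, if_neg h1, if_pos h2]
        have hs : Continuous (fun q : ℝ × ℝ => (bI q.1 (ps m)).symm q.2) :=
          symm_jcont (F := fun p => bI p (ps m)) (bI_jcont (ps m))
        have h := Continuous.comp (g := fun q : ℝ × ℝ => (bI q.1 (ps m)).symm q.2)
          (f := fun q : ℝ × ℝ => (q.1, g q)) hs hpair
        exact h
      · simp only [stepHol, if_neg h1, if_neg h2]
        exact ih

theorem thol_jcont (ps : ℕ → ℝ) (col : ℕ → ℕ) (N l j : ℕ) :
    Continuous (fun q : ℝ × ℝ => thol col (fun m => bI q.1 (ps m)) N l j q.2) := by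
  induction j with
  | zero => exact continuous_snd
  | succ j ih =>
    simp only [thol_succ_apply]
    generalize hg : (fun q : ℝ × ℝ => thol col (fun m => bI q.1 (ps m)) N l j q.2) = g at ih
    have hg' : ∀ q : ℝ × ℝ, thol col (fun m => bI q.1 (ps m)) N l j q.2 = g q := fun q =>
      congrFun hg q
    simp only [hg']
    clear hg hg'
    have hpair : Continuous (fun q : ℝ × ℝ => (q.1, g q)) := continuous_fst.prodMk ih
    have h := Continuous.comp
      (g := fun q : ℝ × ℝ => hol col (fun m => bI q.1 (ps m)) (tlev col N l j) N q.2)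
      (f := fun q : ℝ × ℝ => (q.1, g q)) (hol_jcont ps col (tlev col N l j) N) hpair
    exact h

theorem hol_BL (p : ℝ) (ps : ℕ → ℝ) (col : ℕ → ℕ) (l m : ℕ) :
    ∃ M, 1 ≤ M ∧ BL M (hol col (fun m => bI p (ps m)) l m) := by
  induction m with
  | zero => exact ⟨1, le_rfl, BL.id⟩
  | succ m ih =>
    obtain ⟨M, hM, hB⟩ := ih
    obtain ⟨M', hM', hB'⟩ := bI_BL p (ps m)
    have hstep : BL M' (stepHol (bI p (ps m)) (col m) (lev col l m)) := by
      unfold stepHol
      split_ifs
      · exact hB'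
      · exact hB'.symm
      · exact BL.mono (OrderIso.refl ℝ).monotone BL.id hM'
    refine ⟨M' * M, by nlinarith, ?_⟩
    have h := BL.comp (M := M') (N := M) (f := stepHol (bI p (ps m)) (col m) (lev col l m))
      (g := hol col (fun m => bI p (ps m)) l m) (by linarith) (by linarith)
      (hol col (fun m => bI p (ps m)) l m).monotone hstep hB
    exact h

theorem thol_BL (p : ℝ) (ps : ℕ → ℝ) (col : ℕ → ℕ) (N l j : ℕ) :
    ∃ M, 1 ≤ M ∧ BL M (thol col (fun m => bI p (ps m)) N l j) := by
  induction j with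
  | zero => exact ⟨1, le_rfl, BL.id⟩
  | succ j ih =>
    obtain ⟨M, hM, hB⟩ := ih
    obtain ⟨M', hM', hB'⟩ := hol_BL p ps col (tlev col N l j) N
    refine ⟨M' * M, by nlinarith, ?_⟩
    have h := BL.comp (M := M') (N := M)
      (f := hol col (fun m => bI p (ps m)) (tlev col N l j) N)
      (g := thol col (fun m => bI p (ps m)) N l j) (by linarith) (by linarith)
      (thol col (fun m => bI p (ps m)) N l j).monotone hB' hB
    exact h

/-- Section 3 (a), (b), (c). `b < N` is an arbitrary band, `ζ = mT p 0 (pos b)`. PROOF: put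
`D p = R₂⁻¹ (ζ p + s) - R₁ (ζ p)`, continuous in `p` (`thol_jcont`, `symm_jcont`, `ep_cont`).
`D 0 = s > 0` (`thol_half`). For small `ep p` (`exists_ep_lt`; `ep p ≤ η / (2 (N+1))`,
`2 ep p ≤ N + 2 - n - s - η`): with `u₁ = tups i k`, `u₂ = tups (i+1) k'`,
`ζ ≥ - ep p ≥ pos 0 - 1 + ep p` gives (`turns_lower`, `k = -1`) `R₁ ζ ≥ pos (N-1) + u₁ - k - ep p`;
`X := u₁ + 1 - k - ep p ≥ pos 0 + (u₁ - k) + ep p` gives
`R₂ X ≥ pos (N-1) + (u₁ - k) + u₂ - (k' - 1) - ep p = pos (N-1) + N - n + 1 - ep p ≥ s + ζ`; so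
`D p ≤ X - R₁ ζ ≤ 1 - pos (N-1) ≤ η`. If this `D p` is `≥ -η` take it, else `D` vanishes
somewhere by the intermediate value theorem (`mem_range_of_exists_le_of_exists_ge`). -/
theorem exists_param_D {n N : ℕ} (hN : 0 < N) {col : ℕ → ℕ} {i k k' : ℕ}
    (hk : 0 < k) (hk' : 0 < k') (hkk : k + k' = n) (h1 : tlev col N i k = i + 1)
    (h2 : tlev col N (i + 1) k' = i) (hu : tups col N i k + tups col N (i + 1) k' = N)
    {s η : ℝ} (hs : 0 < s) (hη : 0 < η) (hη1 : η ≤ 1) (hsη : s + η < (N : ℝ) + 2 - n) (b : ℕ)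
    (hb : b < N) :
    ∃ p : ℝ, |(thol col (fun m => bI p (pos η N m)) N (i + 1) k').symm (mT p 0 (pos η N b) + s) -
      thol col (fun m => bI p (pos η N m)) N i k (mT p 0 (pos η N b))| ≤ η := by
  set D : ℝ → ℝ := fun p =>
    (thol col (fun m => bI p (pos η N m)) N (i + 1) k').symm (mT p 0 (pos η N b) + s) -
      thol col (fun m => bI p (pos η N m)) N i k (mT p 0 (pos η N b)) with hD
  have hNR : (0 : ℝ) < N := by exact_mod_cast hN
  -- the mark is continuous
  have hζc : Continuous (fun p => mT p 0 (pos η N b)) := by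
    unfold mT
    have := ep_cont
    fun_prop
  have hDc : Continuous D := by
    have h3 : Continuous (fun q : ℝ × ℝ =>
        (thol col (fun m => bI q.1 (pos η N m)) N (i + 1) k').symm q.2) :=
      symm_jcont (F := fun p => thol col (fun m => bI p (pos η N m)) N (i + 1) k')
        (thol_jcont (pos η N) col N (i + 1) k')
    have h4 := thol_jcont (pos η N) col N i k
    have p1 : Continuous (fun p : ℝ => (p, mT p 0 (pos η N b) + s)) :=
      continuous_id.prodMk (hζc.add continuous_const)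
    have p2 : Continuous (fun p : ℝ => (p, mT p 0 (pos η N b))) := continuous_id.prodMk hζc
    have h5 := h3.comp p1
    have h6 := h4.comp p2
    exact h5.sub h6
  -- the value at `p = 0`
  have hD0 : D 0 = s := by
    have h3 : ∀ x, (thol col (fun m => bI 0 (pos η N m)) N (i + 1) k').symm x = x + 1 / 2 := by
      intro x
      rw [OrderIso.symm_apply_eq, thol_half, h2]
      push_cast
      ring
    show (thol col (fun m => bI 0 (pos η N m)) N (i + 1) k').symm (mT 0 0 (pos η N b) + s) -
      thol col (fun m => bI 0 (pos η N m)) N i k (mT 0 0 (pos η N b)) = s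
    rw [h3, thol_half, h1]
    push_cast
    ring
  -- a small parameter
  obtain ⟨p, hp⟩ := exists_ep_lt (d := min (η / (2 * (N + 1))) (((N : ℝ) + 2 - n - s - η) / 2))
    (by
      apply lt_min
      · positivity
      · linarith)
  have hp1 : ep p < η / (2 * (N + 1)) := lt_of_lt_of_le hp (min_le_left _ _)
  have hp2 : ep p < ((N : ℝ) + 2 - n - s - η) / 2 := lt_of_lt_of_le hp (min_le_right _ _)
  have hp0 := ep_pos p
  have hgapq : 2 * ep p ≤ η / (N + 1) := by
    have : η / (2 * ((N : ℝ) + 1)) = η / (N + 1) / 2 := by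
      field_simp
    rw [this] at hp1
    linarith
  have hposlt : ∀ m, m < N → pos η N m = 1 - η * (m + 1) / (N + 1) := fun m hm => by
    rw [pos, if_pos hm]
  have hfrac : ∀ m : ℕ, m < N → η * (m + 1) / (N + 1) ≤ η ∧ η / (N + 1) ≤ η * (m + 1) / (N + 1) := by
    intro m hm
    have hm' : (m : ℝ) + 1 ≤ N := by exact_mod_cast hm
    have hm0 : (0 : ℝ) ≤ m := Nat.cast_nonneg m
    constructor
    · rw [div_le_iff₀ (by positivity)]
      nlinarith
    · apply div_le_div_of_nonneg_right _ (by positivity)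
      nlinarith
  have hgap : ∀ m, m + 1 < N → pos η N (m + 1) + 2 * ep p ≤ pos η N m := by
    intro m hm
    rw [hposlt _ hm, hposlt m (by omega)]
    have : η * (((m + 1 : ℕ) : ℝ) + 1) / (N + 1) = η * (m + 1) / (N + 1) + η / (N + 1) := by
      push_cast
      field_simp
    rw [this]
    linarith
  have hpos0 : pos η N 0 = 1 - η / (N + 1) := by
    rw [hposlt 0 hN]; simp
  have hposN : 1 - η ≤ pos η N (N - 1) := by
    rw [hposlt (N - 1) (by omega)]
    linarith [(hfrac (N - 1) (by omega)).1]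
  have hspread : pos η N 0 + 2 * ep p ≤ pos η N (N - 1) + 1 := by
    rw [hpos0]
    linarith
  have hposb : 0 ≤ pos η N b ∧ pos η N b ≤ 1 := by
    rw [hposlt b hb]
    have h3 := hfrac b hb
    have h4 : 0 < η / (N + 1) := by positivity
    constructor <;> linarith
  have hζ1 : - ep p ≤ mT p 0 (pos η N b) := by
    unfold mT
    nlinarith [mul_nonneg hp0.le hposb.1]
  have hζ2 : mT p 0 (pos η N b) ≤ ep p := by
    unfold mT
    nlinarith [mul_le_mul_of_nonneg_left hposb.2 hp0.le]
  -- the first part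
  have hR1 := turns_lower (p := p) (pos := pos η N) hN hgap hspread col i (-1)
    (t := mT p 0 (pos η N b)) (by
      rw [hpos0]; push_cast; linarith) k hk
  set u₁ := tups col N i k with hu1
  set u₂ := tups col N (i + 1) k' with hu2
  have hR2 := turns_lower (p := p) (pos := pos η N) hN hgap hspread col (i + 1) ((u₁ : ℤ) - k)
    (t := (u₁ : ℝ) + 1 - k - ep p) (by
      rw [hpos0]; push_cast; linarith) k' hk'
  rw [← hu2] at hR2
  have huR : (u₁ : ℝ) + u₂ = N := by exact_mod_cast hu
  have hkR : (k : ℝ) + k' = n := by exact_mod_cast hkk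
  push_cast at hR1 hR2
  have hX : (thol col (fun m => bI p (pos η N m)) N (i + 1) k').symm (mT p 0 (pos η N b) + s) ≤
      (u₁ : ℝ) + 1 - k - ep p := by
    rw [OrderIso.symm_apply_le]
    refine le_trans ?_ hR2
    linarith
  have hDp : D p ≤ η := by
    show (thol col (fun m => bI p (pos η N m)) N (i + 1) k').symm (mT p 0 (pos η N b) + s) -
      thol col (fun m => bI p (pos η N m)) N i k (mT p 0 (pos η N b)) ≤ η
    linarith
  by_cases hge : -η ≤ D p
  · exact ⟨p, abs_le.2 ⟨hge, hDp⟩⟩
  · push Not at hge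
    have : (0 : ℝ) ∈ range D := mem_range_of_exists_le_of_exists_ge hDc ⟨p, by linarith⟩
      ⟨0, by rw [hD0]; exact hs.le⟩
    obtain ⟨q, hq⟩ := this
    refine ⟨q, ?_⟩
    show |D q| ≤ η
    rw [hq, abs_zero]
    exact hη.le

end Pool.Agent.H.MP_1611f1_gt.PB
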