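import Pool.Agent.H.MP_1611f1_gt.PB.Two
import Pool.Agent.H.MP_1611f1_gt.PB.ConjTwo

/-!
Exactness (section 4 of h49_1611f1_PB.md).
-/

namespace Pool.Agent.H.MP_1611f1_gt.PB

open Set Filter Topology

/-- EXACTNESS. `α` is the map of the band `b`, `α ∘ δ⁻¹` the map of the band `b'`, `t` the lower
mark and `α t` the upper mark of the brick `(b, b')`. PROOF: `exists_select` with `ρ₁ = R₁ ζ`,
`ρ₂ = R₂⁻¹ (ζ + s)`; `d` = the minimum of all the (finitely many) positive gaps, of `κ` and of `1`;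
`μ = d / (8 M)`; the staircase `β`, `α = β.symm`, `t = β U'` (so `t < ζ` and
`t = ζ + μ (U' - υ) > ζ - μ ≥ ζ - κ`); `stair_two` for `R₁` and for `x ↦ R₂⁻¹ (x + s)`; then
`conj_two_fixed_c` for the two maps `F₁ x = β (R₁ x + N')`, `F₂ x = β (R₂⁻¹ (x + s) + N')` with `c = c' = t`
gives `δ` commuting with `+1`, `δ (F₂ x) = F₁ (δ x)`, `δ t = t`. -/
theorem exists_exact {R₁ R₂ : ℝ ≃o ℝ} (h1 : ∀ x, R₁ (x + 1) = R₁ x + 1)
    (h2 : ∀ x, R₂ (x + 1) = R₂ x + 1) {M : ℝ} (hM : 1 ≤ M) (hR1 : BL M R₁) (hR2 : BL M R₂)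
    {ζ υ s η ell κ : ℝ} (hη : |R₂.symm (ζ + s) - R₁ ζ| ≤ η) (hell : η < ell) (hell1 : ell ≤ 1)
    (hκ : 0 < κ) :
    ∃ (α δ : ℝ ≃o ℝ) (t : ℝ), (∀ x, α (x + 1) = α x + 1) ∧ (∀ x, δ (x + 1) = δ x + 1) ∧
      α ζ = υ ∧ δ t = t ∧ t < ζ ∧ ζ - κ < t ∧ υ - ell < α t ∧ α t < υ ∧
      ∀ x, R₂ (α (δ.symm (α.symm (R₁ (δ x))))) = x + s := by
  obtain ⟨ψ, U', N', a1, a2, a3, a4, a5, a6, a7, a8⟩ :=
    exists_select (υ := υ) (ρ₁ := R₁ ζ) (ρ₂ := R₂.symm (ζ + s)) hη hell hell1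
  -- a common lower bound for the gaps
  obtain ⟨d, hd, d1, d2, d3, d4, d5, d6, d7, d8, d9⟩ : ∃ d : ℝ, 0 < d ∧ d ≤ U' - ψ ∧ d ≤ υ - U' ∧
      d ≤ ψ + 1 - υ ∧ d ≤ R₁ ζ + N' - U' ∧ d ≤ ψ + 1 - (R₁ ζ + N') ∧
      d ≤ R₂.symm (ζ + s) + N' - U' ∧ d ≤ ψ + 1 - (R₂.symm (ζ + s) + N') ∧ d ≤ κ ∧ d ≤ 1 := by
    refine ⟨min (U' - ψ) (min (υ - U') (min (ψ + 1 - υ) (min (R₁ ζ + N' - U')
      (min (ψ + 1 - (R₁ ζ + N')) (min (R₂.symm (ζ + s) + N' - U')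
      (min (ψ + 1 - (R₂.symm (ζ + s) + N')) (min κ 1))))))), ?_, ?_, ?_, ?_, ?_, ?_, ?_, ?_, ?_, ?_⟩
    · simp only [lt_min_iff]
      refine ⟨?_, ?_, ?_, ?_, ?_, ?_, ?_, ?_, ?_⟩ <;> linarith
    all_goals simp
  have hM0 : 0 < M := by linarith
  set μ : ℝ := d / (8 * M) with hμd
  have hμ : 0 < μ := by positivity
  have hμd' : μ ≤ d / 8 := by
    rw [hμd, div_le_div_iff₀ (by positivity) (by norm_num)]
    nlinarith
  obtain ⟨β, hβ, hβυ, hβ1, hβ2⟩ := exists_stair (ψ := ψ) (ζ := ζ) (υ := υ) hμ (by linarith)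
    (by linarith) (by linarith)
  have hβs : ∀ x, β.symm (x + 1) = β.symm x + 1 := by
    intro x
    apply β.injective
    rw [hβ, OrderIso.apply_symm_apply, OrderIso.apply_symm_apply]
  have hβU : β U' = ζ + μ * (U' - υ) := hβ1 U' ⟨by linarith, by linarith⟩
  -- the second homeomorphism
  set R' : ℝ ≃o ℝ := (OrderIso.addRight s).trans R₂.symm with hR'
  have hR'a : ∀ x, R' x = R₂.symm (x + s) := fun x => rfl
  have h2s : ∀ x, R₂.symm (x + 1) = R₂.symm x + 1 := by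
    intro x
    apply R₂.injective
    rw [h2, OrderIso.apply_symm_apply, OrderIso.apply_symm_apply]
  have hR'1 : ∀ x, R' (x + 1) = R' x + 1 := by
    intro x
    rw [hR'a, hR'a, show x + 1 + s = x + s + 1 by ring, h2s]
  have hR'BL : BL M R' := by
    intro x y hxy
    have h := hR2.symm.add s 0 x y hxy
    rw [hR'a, hR'a]
    simpa using h
  obtain ⟨r1, e1, b1, b2, b3, b4, b5, b6, b7⟩ := stair_two (ψ := ψ) (ζ := ζ) (υ := υ) (μ := μ)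
    (d := d) (U' := U') (R := R₁) (N' := N') hβ hβ1 hβ2 h1 hM hR1 hd d9 hμ (le_of_eq hμd) (by linarith)
    (by linarith) (by linarith) (by linarith) (by linarith)
  obtain ⟨r2, e2, c1, c2, c3, c4, c5, c6, c7⟩ := stair_two (ψ := ψ) (ζ := ζ) (υ := υ) (μ := μ)
    (d := d) (U' := U') (R := R') (N' := N') hβ hβ1 hβ2 hR'1 hM hR'BL hd d9 hμ (le_of_eq hμd)
    (by linarith) (by linarith) (by linarith) (by rw [hR'a]; linarith) (by rw [hR'a]; linarith)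
  set F₁ : ℝ ≃o ℝ := (R₁.trans (OrderIso.addRight (N' : ℝ))).trans β with hF₁
  set F₂ : ℝ ≃o ℝ := (R'.trans (OrderIso.addRight (N' : ℝ))).trans β with hF₂
  have hF₁a : ∀ x, F₁ x = β (R₁ x + N') := fun x => rfl
  have hF₂a : ∀ x, F₂ x = β (R' x + N') := fun x => rfl
  have hF₁1 : ∀ x, F₁ (x + 1) = F₁ x + 1 := by
    intro x
    rw [hF₁a, hF₁a, h1, show R₁ x + 1 + (N' : ℝ) = R₁ x + N' + 1 by ring, hβ]
  have hF₂1 : ∀ x, F₂ (x + 1) = F₂ x + 1 := by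
    intro x
    rw [hF₂a, hF₂a, hR'1, show R' x + 1 + (N' : ℝ) = R' x + N' + 1 by ring, hβ]
  obtain ⟨δ, k1, -, -, k2, k3⟩ := conj_two_fixed_c F₂ F₁ hF₂1 hF₁1 (a := r2) (b := e2) (a' := r1)
    (b' := e1) (by linarith) c3 (by linarith) b3 c4 c5 b4 b5 c6 c7 b6 b7 (c := β U') (c' := β U')
    ⟨c1, c2⟩ ⟨b1, b2⟩
  refine ⟨β.symm, δ, β U', hβs, k1, ?_, k2, ?_, ?_, ?_, ?_, ?_⟩
  · rw [← hβυ, OrderIso.symm_apply_apply]
  · rw [hβU]; nlinarith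
  · rw [hβU]; nlinarith
  · rw [OrderIso.symm_apply_apply]; linarith
  · rw [OrderIso.symm_apply_apply]; linarith
  · intro x
    have h := k3 x
    rw [hF₁a, hF₂a, map_add_int β hβ, map_add_int β hβ, map_add_int δ k1] at h
    have h' : β (R₁ (δ x)) = δ (β (R' x)) := by linarith
    rw [OrderIso.symm_symm, h', OrderIso.symm_apply_apply, OrderIso.symm_apply_apply, hR'a,
      OrderIso.apply_symm_apply]

end Pool.Agent.H.MP_1611f1_gt.PB
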