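import Pool.Agent.H.MP_1611f1_gt.Defs

/-!
Dehn fillings of Hausdorff surfaces with compact core are compact and Hausdorff.
-/

namespace Pool.Agent.H.MP_1611f1_gt.PB

open Set Filter Topology

variable {S : Type*} [TopologicalSpace S] {J : Type*} {E : Surf S J} {phi : S ≃ₜ S}
  {al be ga de : J → ℤ} {Y : Type*} [TopologicalSpace Y]

theorem FillCl_norm (r : Ioo (1 : ℝ) 2) (ψ : AddCircle (1 : ℝ)) : ‖(polar r ψ : ℂ)‖ = r := by
  have h1 := r.2.1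
  show ‖((r : ℝ) : ℂ) * (AddCircle.toCircle ψ : ℂ)‖ = r
  rw [norm_mul, Circle.norm_coe, mul_one, Complex.norm_real, Real.norm_of_nonneg (by linarith)]

theorem FillCl_polar (w : Metric.ball (0 : ℂ) 2) (h : 1 < ‖(w : ℂ)‖) :
    ∃ (r : Ioo (1 : ℝ) 2) (ψ : AddCircle (1 : ℝ)), polar r ψ = w ∧ (r : ℝ) = ‖(w : ℂ)‖ := by
  have h2 : ‖(w : ℂ)‖ < 2 := mem_ball_zero_iff.1 w.2
  have h0 : (w : ℂ) ≠ 0 := by
    intro h3
    rw [h3, norm_zero] at h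
    linarith
  have h4 : ‖(w : ℂ) / (‖(w : ℂ)‖ : ℂ)‖ = 1 := by
    rw [norm_div, Complex.norm_real, norm_norm, div_self (norm_ne_zero_iff.2 h0)]
  obtain ⟨ψ, hψ⟩ := (AddCircle.homeomorphCircle (one_ne_zero (α := ℝ))).surjective
    (⟨(w : ℂ) / (‖(w : ℂ)‖ : ℂ), mem_sphere_zero_iff_norm.2 h4⟩ : Circle)
  rw [AddCircle.homeomorphCircle_apply] at hψ
  refine ⟨⟨‖(w : ℂ)‖, h, h2⟩, ψ, ?_, rfl⟩
  apply Subtype.ext
  show ((‖(w : ℂ)‖ : ℝ) : ℂ) * (AddCircle.toCircle ψ : ℂ) = w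
  rw [hψ]
  show ((‖(w : ℂ)‖ : ℝ) : ℂ) * ((w : ℂ) / (‖(w : ℂ)‖ : ℂ)) = w
  have h5 : ((‖(w : ℂ)‖ : ℝ) : ℂ) ≠ 0 := by
    exact_mod_cast norm_ne_zero_iff.2 h0
  field_simp

theorem FillCl_glue (Fl : Filling E phi al be ga de Y)
    (hdet : ∀ j, al j * de j - be j * ga j = 1) (j : J) (w : Metric.ball (0 : ℂ) 2)
    (s : AddCircle (1 : ℝ)) (h : 1 < ‖(w : ℂ)‖) :
    ∃ (θ : AddCircle (1 : ℝ)) (r : Ioo (1 : ℝ) 2) (t : ℝ),
      Fl.p (E.collar j (θ, r), t) = Fl.q j (w, s) ∧ (r : ℝ) = ‖(w : ℂ)‖ := by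
  obtain ⟨r, ψ, hw, hr⟩ := FillCl_polar w h
  obtain ⟨a, rfl⟩ := QuotientAddGroup.mk_surjective ψ
  obtain ⟨b, rfl⟩ := QuotientAddGroup.mk_surjective s
  have hd : (al j : ℝ) * de j - be j * ga j = 1 := by exact_mod_cast hdet j
  refine ⟨((de j * a - be j * b : ℝ) : AddCircle (1 : ℝ)), r, -ga j * a + al j * b, ?_, hr⟩
  rw [Fl.glue]
  have e1 : al j • ((de j * a - be j * b : ℝ) : AddCircle (1 : ℝ)) +
      ((be j * (-ga j * a + al j * b) : ℝ) : AddCircle (1 : ℝ)) = ((a : ℝ) : AddCircle (1 : ℝ)) := by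
    rw [← AddCircle.coe_zsmul, ← AddCircle.coe_add]
    congr 1
    rw [zsmul_eq_mul]
    linear_combination a * hd
  have e2 : ga j • ((de j * a - be j * b : ℝ) : AddCircle (1 : ℝ)) +
      ((de j * (-ga j * a + al j * b) : ℝ) : AddCircle (1 : ℝ)) = ((b : ℝ) : AddCircle (1 : ℝ)) := by
    rw [← AddCircle.coe_zsmul, ← AddCircle.coe_add]
    congr 1
    rw [zsmul_eq_mul]
    linear_combination b * hd
  rw [e1, e2]
  congr 2

theorem FillCl_eps (d : ℝ) : ∃ ε > 0, ∀ k : ℤ, |(k : ℝ) - d| < 2 * ε → (k : ℝ) = d := by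
  by_cases h : (round d : ℝ) = d
  · refine ⟨1 / 2, by norm_num, fun k hk => ?_⟩
    rw [← h] at hk
    have h1 : |((k - round d : ℤ) : ℝ)| < 1 := by
      push_cast
      linarith
    have h2 : |k - round d| < 1 := by exact_mod_cast h1
    have h3 := Int.abs_lt_one_iff.1 h2
    rw [← h]
    exact_mod_cast sub_eq_zero.1 h3
  · refine ⟨|d - round d| / 2, ?_, fun k hk => ?_⟩
    · have h1 : 0 < |d - round d| := abs_pos.2 (sub_ne_zero.2 (Ne.symm h))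
      linarith
    · have h1 := round_le d k
      rw [abs_sub_comm] at hk
      linarith

theorem FillCl_A [T2Space S] (Fl : Filling E phi al be ga de Y) (x x' : S) (t t' : ℝ)
    (hne : Fl.p (x, t) ≠ Fl.p (x', t')) :
    ∃ u v : Set Y, IsOpen u ∧ IsOpen v ∧ Fl.p (x, t) ∈ u ∧ Fl.p (x', t') ∈ v ∧ Disjoint u v := by
  obtain ⟨ε, hε, hk⟩ := FillCl_eps (t' - t)
  have hop := Fl.p_loc.isOpenMap
  have key : ∀ t1 t2 : ℝ, t1 ∈ Ioo (t - ε) (t + ε) → t2 ∈ Ioo (t' - ε) (t' + ε) →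
      ∀ k : ℤ, t2 = t1 + k → (k : ℝ) = t' - t := by
    intro t1 t2 h1 h2 k h3
    apply hk
    rw [abs_lt]
    constructor
    · linarith [h1.1, h1.2, h2.1, h2.2]
    · linarith [h1.1, h1.2, h2.1, h2.2]
  have ht : t ∈ Ioo (t - ε) (t + ε) := ⟨by linarith, by linarith⟩
  have ht' : t' ∈ Ioo (t' - ε) (t' + ε) := ⟨by linarith, by linarith⟩
  by_cases h : ∃ k : ℤ, (k : ℝ) = t' - t
  · obtain ⟨k, hk0⟩ := h
    have h1 : x ≠ (phi ^ k) x' := by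
      intro h2
      exact hne ((Fl.p_eq x t x' t').2 ⟨k, by linarith, h2⟩)
    obtain ⟨A, B, hA, hB, hxA, hxB, hAB⟩ := t2_separation h1
    refine ⟨Fl.p '' (A ×ˢ Ioo (t - ε) (t + ε)),
      Fl.p '' (((phi ^ k) ⁻¹' B) ×ˢ Ioo (t' - ε) (t' + ε)),
      hop _ (hA.prod isOpen_Ioo), hop _ ((hB.preimage (phi ^ k).continuous).prod isOpen_Ioo),
      ⟨(x, t), ⟨hxA, ht⟩, rfl⟩, ⟨(x', t'), ⟨hxB, ht'⟩, rfl⟩, ?_⟩
    rw [Set.disjoint_left]
    rintro y ⟨⟨x1, t1⟩, ⟨h2, h3⟩, rfl⟩ ⟨⟨x2, t2⟩, ⟨h4, h5⟩, h6⟩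
    obtain ⟨k', h7, h8⟩ := (Fl.p_eq x1 t1 x2 t2).1 h6.symm
    have h9 : (k' : ℝ) = k := (key t1 t2 h3 h5 k' h7).trans hk0.symm
    have h10 : k' = k := by exact_mod_cast h9
    rw [h10] at h8
    have h11 : x1 ∈ B := by
      rw [h8]
      exact h4
    exact Set.disjoint_left.1 hAB h2 h11
  · refine ⟨Fl.p '' ((univ : Set S) ×ˢ Ioo (t - ε) (t + ε)),
      Fl.p '' ((univ : Set S) ×ˢ Ioo (t' - ε) (t' + ε)),
      hop _ (isOpen_univ.prod isOpen_Ioo), hop _ (isOpen_univ.prod isOpen_Ioo),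
      ⟨(x, t), ⟨mem_univ _, ht⟩, rfl⟩, ⟨(x', t'), ⟨mem_univ _, ht'⟩, rfl⟩, ?_⟩
    rw [Set.disjoint_left]
    rintro y ⟨⟨x1, t1⟩, ⟨h2, h3⟩, rfl⟩ ⟨⟨x2, t2⟩, ⟨h4, h5⟩, h6⟩
    obtain ⟨k', h7, h8⟩ := (Fl.p_eq x1 t1 x2 t2).1 h6.symm
    exact h ⟨k', key t1 t2 h3 h5 k' h7⟩

theorem FillCl_B (Fl : Filling E phi al be ga de Y) (i j : J)
    (z w : Metric.ball (0 : ℂ) 2 × AddCircle (1 : ℝ)) (hne : Fl.q i z ≠ Fl.q j w) :
    ∃ u v : Set Y, IsOpen u ∧ IsOpen v ∧ Fl.q i z ∈ u ∧ Fl.q j w ∈ v ∧ Disjoint u v := by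
  by_cases hij : i = j
  · subst hij
    have h1 : z ≠ w := fun h => hne (by rw [h])
    obtain ⟨A, B, hA, hB, hxA, hxB, hAB⟩ := t2_separation h1
    refine ⟨Fl.q i '' A, Fl.q i '' B, (Fl.q_emb i).isOpenMap _ hA, (Fl.q_emb i).isOpenMap _ hB,
      ⟨z, hxA, rfl⟩, ⟨w, hxB, rfl⟩, ?_⟩
    rw [Set.disjoint_left]
    rintro y ⟨a, ha, rfl⟩ ⟨b, hb, hab⟩
    have h2 := (Fl.q_emb i).injective hab
    rw [h2] at hb
    exact Set.disjoint_left.1 hAB ha hb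
  · refine ⟨Set.range (Fl.q i), Set.range (Fl.q j), (Fl.q_emb i).isOpen_range,
      (Fl.q_emb j).isOpen_range, ⟨z, rfl⟩, ⟨w, rfl⟩, ?_⟩
    rw [Set.disjoint_left]
    rintro y ⟨a, rfl⟩ ⟨b, hab⟩
    exact hij (Fl.q_disj i j a b hab.symm)

theorem FillCl_C (Fl : Filling E phi al be ga de Y)
    (hdet : ∀ j, al j * de j - be j * ga j = 1) (x : S) (t : ℝ) (j : J)
    (z : Metric.ball (0 : ℂ) 2 × AddCircle (1 : ℝ)) (h1 : ¬ ∃ i w, Fl.q i w = Fl.p (x, t))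
    (h2 : ¬ ∃ a, Fl.p a = Fl.q j z) :
    ∃ u v : Set Y, IsOpen u ∧ IsOpen v ∧ Fl.p (x, t) ∈ u ∧ Fl.q j z ∈ v ∧ Disjoint u v := by
  have hz : ‖(z.1 : ℂ)‖ ≤ 1 := by
    by_contra hcon
    push Not at hcon
    obtain ⟨θ, r, t', h3, -⟩ := FillCl_glue Fl hdet j z.1 z.2 hcon
    exact h2 ⟨_, h3⟩
  have hx : x ∉ E.collar j '' {z | (z.2 : ℝ) ≤ 3 / 2} := by
    rintro ⟨⟨θ, r⟩, -, rfl⟩
    exact h1 ⟨j, _, (Fl.glue j θ r t).symm⟩
  have hnorm : IsOpen {w : Metric.ball (0 : ℂ) 2 × AddCircle (1 : ℝ) | ‖(w.1 : ℂ)‖ < 3 / 2} :=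
    isOpen_lt ((continuous_subtype_val.comp continuous_fst).norm) continuous_const
  refine ⟨Fl.p '' ((E.collar j '' {z | (z.2 : ℝ) ≤ 3 / 2})ᶜ ×ˢ (univ : Set ℝ)),
    Fl.q j '' {w | ‖(w.1 : ℂ)‖ < 3 / 2},
    Fl.p_loc.isOpenMap _ ((E.closed j (3 / 2) (by norm_num)).isOpen_compl.prod isOpen_univ),
    (Fl.q_emb j).isOpenMap _ hnorm, ⟨(x, t), ⟨hx, mem_univ _⟩, rfl⟩,
    ⟨z, lt_of_le_of_lt hz (by norm_num), rfl⟩, ?_⟩
  rw [Set.disjoint_left]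
  rintro y ⟨⟨x1, t1⟩, ⟨h3, -⟩, rfl⟩ ⟨w, h4, h5⟩
  obtain ⟨⟨θ, r⟩, h6⟩ := Fl.overlap x1 t1 j w h5.symm
  have h7 : x1 = E.collar j (θ, r) := h6
  subst h7
  rw [Fl.glue] at h5
  have h8 := (Fl.q_emb j).injective h5
  apply h3
  refine ⟨(θ, r), ?_, rfl⟩
  have h9 : ‖(w.1 : ℂ)‖ = r := by
    rw [h8]
    exact FillCl_norm _ _
  show (r : ℝ) ≤ 3 / 2
  rw [← h9]
  exact le_of_lt h4

theorem FillCl_pow (hphi : ∀ j z, phi (E.collar j z) = E.collar j z) (k : ℤ) (j : J)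
    (z : AddCircle (1 : ℝ) × Ioo (1 : ℝ) 2) : (phi ^ k) (E.collar j z) = E.collar j z := by
  induction k using Int.induction_on with
  | zero => rfl
  | succ k ih =>
    rw [zpow_add_one]
    show (phi ^ (k : ℤ)) (phi (E.collar j z)) = _
    rw [hphi]
    exact ih
  | pred k ih =>
    have h1 : phi ^ (-(k : ℤ) - 1) * phi = phi ^ (-(k : ℤ)) := by
      rw [← zpow_add_one, sub_add_cancel]
    have h2 : (phi ^ (-(k : ℤ) - 1)) (phi (E.collar j z)) = (phi ^ (-(k : ℤ))) (E.collar j z) :=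
      DFunLike.congr_fun h1 (E.collar j z)
    rw [hphi] at h2
    rw [h2]
    exact ih

/-- PROOF: two points of `range p`: the mapping torus is Hausdorff (`p_loc` is open; if
`p (x, t) ≠ p (x', t')` separate `(x, t)` from all `(phi ^ k x', t' + k)`: only finitely many `k` matter
near `t`). Two points of `range (q j)`: `q_emb`. Points of different ranges `q i`, `q j`: `q_disj`. `p (x, t)` and
`q j z` not in `range p`: if `x ∈ collar i {r ≤ 3/2}` then `p (x, t) ∈ range (q i)` (`glue`), done; otherwise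
`p '' ((⋃ ... collar j {r ≤ 3/2})ᶜ × ℝ)` (use only the one end `j`: `E.closed j`) and
`q j {|w| < 3/2}` are disjoint neighbourhoods (a point `z` with `|w| > 1` is in `range p` by
`glue` and `hdet`, so `|w| ≤ 1` here). -/
theorem filling_t2 [T2Space S] (Fl : Filling E phi al be ga de Y)
    (hdet : ∀ j, al j * de j - be j * ga j = 1) : T2Space Y := by
  refine ⟨fun y1 y2 hne => ?_⟩
  have hsymm : (∃ u v : Set Y, IsOpen u ∧ IsOpen v ∧ y2 ∈ u ∧ y1 ∈ v ∧ Disjoint u v) →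
      ∃ u v : Set Y, IsOpen u ∧ IsOpen v ∧ y1 ∈ u ∧ y2 ∈ v ∧ Disjoint u v := by
    rintro ⟨u, v, h1, h2, h3, h4, h5⟩
    exact ⟨v, u, h2, h1, h4, h3, h5.symm⟩
  by_cases h1 : ∃ z, Fl.p z = y1
  · obtain ⟨⟨x, t⟩, rfl⟩ := h1
    by_cases h2 : ∃ z, Fl.p z = y2
    · obtain ⟨⟨x', t'⟩, rfl⟩ := h2
      exact FillCl_A Fl x x' t t' hne
    · obtain ⟨j, z, rfl⟩ := (Fl.cover y2).resolve_left h2
      by_cases h3 : ∃ i w, Fl.q i w = Fl.p (x, t)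
      · obtain ⟨i, w, h4⟩ := h3
        rw [← h4] at hne ⊢
        exact FillCl_B Fl i j w z hne
      · exact FillCl_C Fl hdet x t j z h3 h2
  · obtain ⟨i, w, rfl⟩ := (Fl.cover y1).resolve_left h1
    by_cases h2 : ∃ z, Fl.p z = y2
    · obtain ⟨⟨x, t⟩, rfl⟩ := h2
      by_cases h3 : ∃ j z, Fl.q j z = Fl.p (x, t)
      · obtain ⟨j, z, h4⟩ := h3
        rw [← h4] at hne ⊢
        exact FillCl_B Fl i j w z hne
      · exact hsymm (FillCl_C Fl hdet x t i w h3 h1)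
    · obtain ⟨j, z, rfl⟩ := (Fl.cover y2).resolve_left h2
      exact FillCl_B Fl i j w z hne

/-- PROOF: `Y = p (core × [0, 1]) ∪ ⋃ j, q j (closed ball of radius 3/2 × circle)`, where
`core = (⋃ j, collar j {r < 5/4})ᶜ` is compact: a point `p (x, t)` with `x = collar j (θ, r)`, `r < 5/4` is in
`q j (|w| < 5/4)` (`glue`); a point `q j (w, s)` with `|w| > 3/2` is `p (collar j (θ, r), t)` with
`r = |w| > 3/2` (`hdet` gives `θ`, `t` from the two angles), in the core; and `t` can be moved to `[0, 1]` (`p_eq`, the core is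
invariant under `phi`, which is the identity on the collars). -/
theorem filling_compact [Finite J] (Fl : Filling E phi al be ga de Y)
    (hphi : ∀ j z, phi (E.collar j z) = E.collar j z)
    (hdet : ∀ j, al j * de j - be j * ga j = 1)
    (hc : ∀ ρ : ℝ, 1 < ρ → ρ < 2 → IsCompact (⋃ j, E.collar j '' {z | (z.2 : ℝ) < ρ})ᶜ) :
    CompactSpace Y := by
  classical
  obtain ⟨core, hcore⟩ : ∃ core : Set S,
      core = (⋃ j, E.collar j '' {z | (z.2 : ℝ) < 5 / 4})ᶜ := ⟨_, rfl⟩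
  have hcc : IsCompact core := by
    rw [hcore]
    exact hc (5 / 4) (by norm_num) (by norm_num)
  have : Fact (0 < (1 : ℝ)) := ⟨one_pos⟩
  have hball : IsCompact {w : Metric.ball (0 : ℂ) 2 | ‖(w : ℂ)‖ ≤ 3 / 2} := by
    rw [Subtype.isCompact_iff]
    have h1 : ((fun w : Metric.ball (0 : ℂ) 2 => (w : ℂ)) '' {w | ‖(w : ℂ)‖ ≤ 3 / 2}) =
        Metric.closedBall (0 : ℂ) (3 / 2) := by
      ext x
      constructor
      · rintro ⟨w, hw, rfl⟩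
        exact mem_closedBall_zero_iff.2 hw
      · intro hx
        have hx' := mem_closedBall_zero_iff.1 hx
        exact ⟨⟨x, mem_ball_zero_iff.2 (by linarith)⟩, hx', rfl⟩
    rw [h1]
    exact isCompact_closedBall _ _
  have hq : ∀ j, IsCompact (Fl.q j '' ({w : Metric.ball (0 : ℂ) 2 | ‖(w : ℂ)‖ ≤ 3 / 2} ×ˢ
      (univ : Set (AddCircle (1 : ℝ))))) := fun j =>
    (hball.prod isCompact_univ).image (Fl.q_emb j).continuous
  have hp : IsCompact (Fl.p '' (core ×ˢ Icc (0 : ℝ) 1)) :=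
    (hcc.prod isCompact_Icc).image Fl.p_loc.continuous
  have hrange : ∀ x t, Fl.p (x, t) ∈ Fl.p '' (core ×ˢ Icc (0 : ℝ) 1) ∪
      ⋃ j, Fl.q j '' ({w : Metric.ball (0 : ℂ) 2 | ‖(w : ℂ)‖ ≤ 3 / 2} ×ˢ
        (univ : Set (AddCircle (1 : ℝ)))) := by
    intro x t
    by_cases hx : x ∈ core
    · left
      have h1 : (phi ^ ⌊t⌋) x ∈ core := by
        rw [hcore]
        intro h2
        obtain ⟨j, z, hz, h3⟩ := Set.mem_iUnion.1 h2
        rw [hcore] at hx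
        apply hx
        refine Set.mem_iUnion.2 ⟨j, z, hz, ?_⟩
        have h4 := congrArg (phi ^ (-⌊t⌋)) h3
        rw [FillCl_pow hphi] at h4
        rw [h4]
        show (phi ^ (-⌊t⌋) * phi ^ ⌊t⌋) x = x
        rw [← zpow_add, neg_add_cancel]
        rfl
      refine ⟨((phi ^ ⌊t⌋) x, Int.fract t), ⟨h1, Int.fract_nonneg t, (Int.fract_lt_one t).le⟩, ?_⟩
      symm
      refine (Fl.p_eq _ _ _ _).2 ⟨-⌊t⌋, ?_, ?_⟩
      · rw [Int.fract]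
        push_cast
        ring
      · show x = (phi ^ (-⌊t⌋) * phi ^ ⌊t⌋) x
        rw [← zpow_add, neg_add_cancel]
        rfl
    · right
      rw [hcore, Set.mem_compl_iff, not_not] at hx
      obtain ⟨j, ⟨θ, r⟩, hz, rfl⟩ := Set.mem_iUnion.1 hx
      have hz' : (r : ℝ) < 5 / 4 := hz
      refine Set.mem_iUnion.2 ⟨j, _, ⟨?_, mem_univ _⟩, (Fl.glue j θ r t).symm⟩
      show ‖(polar r _ : ℂ)‖ ≤ 3 / 2
      rw [FillCl_norm]
      linarith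
  refine ⟨?_⟩
  have huniv : (univ : Set Y) = Fl.p '' (core ×ˢ Icc (0 : ℝ) 1) ∪
      ⋃ j, Fl.q j '' ({w : Metric.ball (0 : ℂ) 2 | ‖(w : ℂ)‖ ≤ 3 / 2} ×ˢ
        (univ : Set (AddCircle (1 : ℝ)))) := by
    symm
    rw [Set.eq_univ_iff_forall]
    intro y
    rcases Fl.cover y with ⟨⟨x, t⟩, rfl⟩ | ⟨j, ⟨w, s⟩, rfl⟩
    · exact hrange x t
    · by_cases hw : ‖(w : ℂ)‖ ≤ 3 / 2
      · exact Or.inr (Set.mem_iUnion.2 ⟨j, (w, s), ⟨hw, mem_univ _⟩, rfl⟩)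
      · push Not at hw
        obtain ⟨θ, r, t, h1, -⟩ := FillCl_glue Fl hdet j w s (by linarith)
        rw [← h1]
        exact hrange _ t
  rw [huniv]
  exact hp.union (isCompact_iUnion hq)

end Pool.Agent.H.MP_1611f1_gt.PB
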