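import Pool.Agent.H.MP_1611f1_gt.Defs

/-!
Existence of Dehn fillings.
-/

namespace Pool.Agent.H.MP_1611f1_gt.PB

open Set Filter Topology

universe u

/-! ### Polar coordinates -/

/-- the map to the punctured disc -/
noncomputable def FillEx_P (w : Ioo (1 : ℝ) 2 × AddCircle (1 : ℝ)) : Metric.ball (0 : ℂ) 2 :=
  polar w.1 w.2

theorem FillEx_norm (r : Ioo (1 : ℝ) 2) (ψ : AddCircle (1 : ℝ)) :
    ‖((polar r ψ : Metric.ball (0 : ℂ) 2) : ℂ)‖ = r := by
  have h1 := r.2.1
  show ‖((r : ℝ) : ℂ) * (AddCircle.toCircle ψ : ℂ)‖ = r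
  rw [norm_mul, Circle.norm_coe, mul_one, Complex.norm_real, Real.norm_of_nonneg (by linarith)]

theorem FillEx_unit (z : ℂ) (hz : 1 < ‖z‖) : z / ‖z‖ ∈ Submonoid.unitSphere ℂ := by
  refine mem_sphere_zero_iff_norm.2 ?_
  have h1 : ‖z‖ ≠ 0 := by linarith
  rw [norm_div, Complex.norm_real, norm_norm]
  exact div_self h1

theorem FillEx_P_cont : Continuous FillEx_P := by
  unfold FillEx_P polar
  refine Continuous.subtype_mk ?_ _
  refine Continuous.mul ?_ ?_
  · exact Complex.continuous_ofReal.comp (continuous_subtype_val.comp continuous_fst)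
  · exact continuous_subtype_val.comp (AddCircle.continuous_toCircle.comp continuous_snd)

/-- polar coordinates as a homeomorphism -/
noncomputable def FillEx_H : (Ioo (1 : ℝ) 2 × AddCircle (1 : ℝ)) ≃ₜ
    {z : Metric.ball (0 : ℂ) 2 // 1 < ‖(z : ℂ)‖} where
  toFun w := ⟨FillEx_P w, by
    have := FillEx_norm w.1 w.2
    show 1 < ‖((polar w.1 w.2 : Metric.ball (0 : ℂ) 2) : ℂ)‖
    rw [this]
    exact w.1.2.1⟩
  invFun z := (⟨‖((z : Metric.ball (0 : ℂ) 2) : ℂ)‖, z.2, mem_ball_zero_iff.1 z.1.2⟩,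
    (AddCircle.homeomorphCircle one_ne_zero).symm ⟨((z : Metric.ball (0 : ℂ) 2) : ℂ) /
      ‖((z : Metric.ball (0 : ℂ) 2) : ℂ)‖, FillEx_unit _ z.2⟩)
  left_inv := by
    rintro ⟨r, ψ⟩
    have h1 := FillEx_norm r ψ
    have h2 := r.2.1
    refine Prod.ext (Subtype.ext h1) ?_
    rw [Homeomorph.symm_apply_eq, AddCircle.homeomorphCircle_apply]
    refine Circle.ext ?_
    show ((polar r ψ : Metric.ball (0 : ℂ) 2) : ℂ) / ‖((polar r ψ : Metric.ball (0 : ℂ) 2) : ℂ)‖ =
      (AddCircle.toCircle ψ : ℂ)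
    rw [h1]
    show ((r : ℝ) : ℂ) * (AddCircle.toCircle ψ : ℂ) / ((r : ℝ) : ℂ) = _
    have h3 : ((r : ℝ) : ℂ) ≠ 0 := by exact_mod_cast (by linarith : (r : ℝ) ≠ 0)
    field_simp
  right_inv := by
    rintro ⟨z, hz⟩
    refine Subtype.ext (Subtype.ext ?_)
    show ((‖(z : ℂ)‖ : ℝ) : ℂ) * (AddCircle.toCircle ((AddCircle.homeomorphCircle one_ne_zero).symm
      ⟨(z : ℂ) / ‖(z : ℂ)‖, FillEx_unit _ hz⟩) : ℂ) = z
    rw [← AddCircle.homeomorphCircle_apply one_ne_zero, Homeomorph.apply_symm_apply]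
    show ((‖(z : ℂ)‖ : ℝ) : ℂ) * ((z : ℂ) / ‖(z : ℂ)‖) = z
    have h3 : ((‖(z : ℂ)‖ : ℝ) : ℂ) ≠ 0 := by
      have : 1 < ‖(z : ℂ)‖ := hz
      exact_mod_cast (by linarith : ‖(z : ℂ)‖ ≠ 0)
    field_simp
  continuous_toFun := FillEx_P_cont.subtype_mk fun w => by
    have := FillEx_norm w.1 w.2
    show 1 < ‖((polar w.1 w.2 : Metric.ball (0 : ℂ) 2) : ℂ)‖
    rw [this]
    exact w.1.2.1
  continuous_invFun := by
    have h1 : Continuous fun z : {z : Metric.ball (0 : ℂ) 2 // 1 < ‖(z : ℂ)‖} =>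
        ((z : Metric.ball (0 : ℂ) 2) : ℂ) := continuous_subtype_val.comp continuous_subtype_val
    refine Continuous.prodMk (Continuous.subtype_mk (continuous_norm.comp h1) _) ?_
    refine (AddCircle.homeomorphCircle one_ne_zero).symm.continuous.comp ?_
    refine Continuous.subtype_mk ?_ _
    refine Continuous.div h1 (Complex.continuous_ofReal.comp (continuous_norm.comp h1)) ?_
    rintro ⟨z, hz⟩
    have : 1 < ‖(z : ℂ)‖ := hz
    exact_mod_cast (by linarith : ‖(z : ℂ)‖ ≠ 0)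

theorem FillEx_P_open : IsOpenMap FillEx_P := by
  have h1 : IsOpen {z : Metric.ball (0 : ℂ) 2 | 1 < ‖(z : ℂ)‖} :=
    isOpen_lt continuous_const (continuous_norm.comp continuous_subtype_val)
  have h2 : FillEx_P = (Subtype.val : {z : Metric.ball (0 : ℂ) 2 // 1 < ‖(z : ℂ)‖} →
      Metric.ball (0 : ℂ) 2) ∘ FillEx_H := rfl
  rw [h2]
  exact (h1.isOpenMap_subtype_val).comp FillEx_H.isOpenMap

theorem FillEx_P_inj : Function.Injective FillEx_P := by
  intro w w' h
  have h2 : ((FillEx_H w : {z : Metric.ball (0 : ℂ) 2 // 1 < ‖(z : ℂ)‖}) : Metric.ball (0 : ℂ) 2) =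
    FillEx_H w' := h
  exact FillEx_H.injective (Subtype.ext h2)

/-! ### The linear map -/

/-- the linear map of the gluing -/
noncomputable def FillEx_L (al be ga de : ℤ) (w : AddCircle (1 : ℝ) × ℝ) :
    AddCircle (1 : ℝ) × AddCircle (1 : ℝ) :=
  (al • w.1 + ((be * w.2 : ℝ) : AddCircle (1 : ℝ)), ga • w.1 + ((de * w.2 : ℝ) : AddCircle (1 : ℝ)))

theorem FillEx_L_cont (al be ga de : ℤ) : Continuous (FillEx_L al be ga de) := by
  unfold FillEx_L
  refine Continuous.prodMk ?_ ?_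
  · exact (continuous_fst.zsmul al).add
      ((AddCircle.continuous_mk' _).comp (continuous_const.mul continuous_snd))
  · exact (continuous_fst.zsmul ga).add
      ((AddCircle.continuous_mk' _).comp (continuous_const.mul continuous_snd))

/-- the matrix as a homeomorphism of the plane -/
noncomputable def FillEx_M (al be ga de : ℤ) (hdet : al * de - be * ga = 1) : (ℝ × ℝ) ≃ₜ (ℝ × ℝ) where
  toFun w := (al * w.1 + be * w.2, ga * w.1 + de * w.2)
  invFun w := (de * w.1 - be * w.2, -(ga * w.1) + al * w.2)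
  left_inv := by
    have h : (al : ℝ) * de - be * ga = 1 := by exact_mod_cast hdet
    rintro ⟨a, b⟩
    refine Prod.ext ?_ ?_
    · show (de : ℝ) * (al * a + be * b) - be * (ga * a + de * b) = a
      linear_combination a * h
    · show -((ga : ℝ) * (al * a + be * b)) + al * (ga * a + de * b) = b
      linear_combination b * h
  right_inv := by
    have h : (al : ℝ) * de - be * ga = 1 := by exact_mod_cast hdet
    rintro ⟨a, b⟩
    refine Prod.ext ?_ ?_
    · show (al : ℝ) * (de * a - be * b) + be * (-(ga * a) + al * b) = a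
      linear_combination a * h
    · show (ga : ℝ) * (de * a - be * b) + de * (-(ga * a) + al * b) = b
      linear_combination b * h
  continuous_toFun := by fun_prop
  continuous_invFun := by fun_prop

theorem FillEx_mk_open : IsOpenMap (fun t : ℝ => (t : AddCircle (1 : ℝ))) :=
  QuotientAddGroup.isOpenMap_coe

theorem FillEx_L_open (al be ga de : ℤ) (hdet : al * de - be * ga = 1) :
    IsOpenMap (FillEx_L al be ga de) := by
  have h1 : Function.Surjective (fun w : ℝ × ℝ => ((w.1 : AddCircle (1 : ℝ)), w.2)) := by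
    rintro ⟨θ, t⟩
    obtain ⟨a, rfl⟩ := QuotientAddGroup.mk_surjective θ
    exact ⟨(a, t), rfl⟩
  have h2 : Continuous (fun w : ℝ × ℝ => ((w.1 : AddCircle (1 : ℝ)), w.2)) :=
    ((AddCircle.continuous_mk' _).comp continuous_fst).prodMk continuous_snd
  refine IsOpenMap.of_comp h2 h1 ?_
  have h3 : FillEx_L al be ga de ∘ (fun w : ℝ × ℝ => ((w.1 : AddCircle (1 : ℝ)), w.2)) =
      (Prod.map (fun t : ℝ => (t : AddCircle (1 : ℝ))) (fun t : ℝ => (t : AddCircle (1 : ℝ)))) ∘
        FillEx_M al be ga de hdet := by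
    funext w
    refine Prod.ext ?_ ?_
    · show al • (w.1 : AddCircle (1 : ℝ)) + ((be * w.2 : ℝ) : AddCircle (1 : ℝ)) =
        ((al * w.1 + be * w.2 : ℝ) : AddCircle (1 : ℝ))
      rw [AddCircle.coe_add, ← zsmul_eq_mul, ← zsmul_eq_mul, AddCircle.coe_zsmul,
        AddCircle.coe_zsmul]
    · show ga • (w.1 : AddCircle (1 : ℝ)) + ((de * w.2 : ℝ) : AddCircle (1 : ℝ)) =
        ((ga * w.1 + de * w.2 : ℝ) : AddCircle (1 : ℝ))
      rw [AddCircle.coe_add, ← zsmul_eq_mul, ← zsmul_eq_mul, AddCircle.coe_zsmul,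
        AddCircle.coe_zsmul]
  rw [h3]
  exact (FillEx_mk_open.prodMap FillEx_mk_open).comp (FillEx_M al be ga de hdet).isOpenMap

theorem FillEx_L_eq {al be ga de : ℤ} (hdet : al * de - be * ga = 1) {θ θ' : AddCircle (1 : ℝ)}
    {t t' : ℝ} (h : FillEx_L al be ga de (θ, t) = FillEx_L al be ga de (θ', t')) :
    θ = θ' ∧ ∃ k : ℤ, t' = t + k := by
  obtain ⟨a, rfl⟩ := QuotientAddGroup.mk_surjective θ
  obtain ⟨a', rfl⟩ := QuotientAddGroup.mk_surjective θ'
  have hd : (al : ℝ) * de - be * ga = 1 := by exact_mod_cast hdet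
  have e1 : ((al * a + be * t : ℝ) : AddCircle (1 : ℝ)) = ((al * a' + be * t' : ℝ) : AddCircle (1 : ℝ)) := by
    have := congrArg Prod.fst h
    change al • ((a : ℝ) : AddCircle (1 : ℝ)) + ((be * t : ℝ) : AddCircle (1 : ℝ)) =
      al • ((a' : ℝ) : AddCircle (1 : ℝ)) + ((be * t' : ℝ) : AddCircle (1 : ℝ)) at this
    rw [← AddCircle.coe_zsmul, ← AddCircle.coe_zsmul, ← AddCircle.coe_add, ← AddCircle.coe_add,
      zsmul_eq_mul, zsmul_eq_mul] at this
    exact this
  have e2 : ((ga * a + de * t : ℝ) : AddCircle (1 : ℝ)) = ((ga * a' + de * t' : ℝ) : AddCircle (1 : ℝ)) := by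
    have := congrArg Prod.snd h
    change ga • ((a : ℝ) : AddCircle (1 : ℝ)) + ((de * t : ℝ) : AddCircle (1 : ℝ)) =
      ga • ((a' : ℝ) : AddCircle (1 : ℝ)) + ((de * t' : ℝ) : AddCircle (1 : ℝ)) at this
    rw [← AddCircle.coe_zsmul, ← AddCircle.coe_zsmul, ← AddCircle.coe_add, ← AddCircle.coe_add,
      zsmul_eq_mul, zsmul_eq_mul] at this
    exact this
  rw [← sub_eq_zero, ← AddCircle.coe_sub, AddCircle.coe_eq_zero_iff] at e1 e2
  obtain ⟨m, hm⟩ := e1
  obtain ⟨n, hn⟩ := e2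
  rw [zsmul_eq_mul, mul_one] at hm hn
  constructor
  · rw [← sub_eq_zero]
    show ((a : ℝ) : AddCircle (1 : ℝ)) - ((a' : ℝ) : AddCircle (1 : ℝ)) = 0
    rw [← AddCircle.coe_sub, AddCircle.coe_eq_zero_iff]
    refine ⟨de * m - be * n, ?_⟩
    rw [zsmul_eq_mul, mul_one]
    push_cast
    rw [hm, hn]
    linear_combination (a - a') * hd
  · refine ⟨ga * m - al * n, ?_⟩
    push_cast
    rw [hm, hn]
    linear_combination (-(t' - t)) * hd

theorem FillEx_L_add (al be ga de : ℤ) (θ : AddCircle (1 : ℝ)) (t : ℝ) (k : ℤ) :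
    FillEx_L al be ga de (θ, t + k) = FillEx_L al be ga de (θ, t) := by
  have h : ∀ b : ℤ, ((b * (t + k) : ℝ) : AddCircle (1 : ℝ)) = ((b * t : ℝ) : AddCircle (1 : ℝ)) := by
    intro b
    rw [← sub_eq_zero, ← AddCircle.coe_sub, AddCircle.coe_eq_zero_iff]
    refine ⟨b * k, ?_⟩
    rw [zsmul_eq_mul, mul_one]
    push_cast
    ring
  refine Prod.ext ?_ ?_
  · show al • θ + ((be * (t + k) : ℝ) : AddCircle (1 : ℝ)) = al • θ + ((be * t : ℝ) : AddCircle (1 : ℝ))
    rw [h]
  · show ga • θ + ((de * (t + k) : ℝ) : AddCircle (1 : ℝ)) = ga • θ + ((de * t : ℝ) : AddCircle (1 : ℝ))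
    rw [h]

/-! ### The gluing map -/

/-- the gluing map -/
noncomputable def FillEx_g (al be ga de : ℤ) (w : (AddCircle (1 : ℝ) × Ioo (1 : ℝ) 2) × ℝ) :
    Metric.ball (0 : ℂ) 2 × AddCircle (1 : ℝ) :=
  (FillEx_P (w.1.2, (FillEx_L al be ga de (w.1.1, w.2)).1), (FillEx_L al be ga de (w.1.1, w.2)).2)

theorem FillEx_g_cont (al be ga de : ℤ) : Continuous (FillEx_g al be ga de) := by
  have h1 : Continuous fun w : (AddCircle (1 : ℝ) × Ioo (1 : ℝ) 2) × ℝ =>
      FillEx_L al be ga de (w.1.1, w.2) :=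
    (FillEx_L_cont al be ga de).comp ((continuous_fst.comp continuous_fst).prodMk continuous_snd)
  exact (FillEx_P_cont.comp ((continuous_snd.comp continuous_fst).prodMk
    (continuous_fst.comp h1))).prodMk (continuous_snd.comp h1)

/-- reordering of the coordinates -/
def FillEx_sh : ((AddCircle (1 : ℝ) × Ioo (1 : ℝ) 2) × ℝ) ≃ₜ (Ioo (1 : ℝ) 2 × (AddCircle (1 : ℝ) × ℝ)) where
  toFun w := (w.1.2, (w.1.1, w.2))
  invFun w := ((w.2.1, w.1), w.2.2)
  left_inv _ := rfl
  right_inv _ := rfl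
  continuous_toFun := by fun_prop
  continuous_invFun := by fun_prop

theorem FillEx_g_open (al be ga de : ℤ) (hdet : al * de - be * ga = 1) :
    IsOpenMap (FillEx_g al be ga de) := by
  have h1 : FillEx_g al be ga de = (Prod.map FillEx_P (id : AddCircle (1 : ℝ) → AddCircle (1 : ℝ))) ∘
      ((Homeomorph.prodAssoc (Ioo (1 : ℝ) 2) (AddCircle (1 : ℝ)) (AddCircle (1 : ℝ))).symm ∘
      ((Prod.map (id : Ioo (1 : ℝ) 2 → Ioo (1 : ℝ) 2) (FillEx_L al be ga de)) ∘ FillEx_sh)) := rfl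
  rw [h1]
  refine (FillEx_P_open.prodMap IsOpenMap.id).comp ?_
  refine (Homeomorph.isOpenMap _).comp ?_
  exact (IsOpenMap.id.prodMap (FillEx_L_open al be ga de hdet)).comp FillEx_sh.isOpenMap

theorem FillEx_g_eq {al be ga de : ℤ} (hdet : al * de - be * ga = 1)
    {w w' : (AddCircle (1 : ℝ) × Ioo (1 : ℝ) 2) × ℝ}
    (h : FillEx_g al be ga de w = FillEx_g al be ga de w') :
    w.1 = w'.1 ∧ ∃ k : ℤ, w'.2 = w.2 + k := by
  have h1 := FillEx_P_inj (congrArg Prod.fst h)
  have h2 : w.1.2 = w'.1.2 := congrArg Prod.fst h1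
  have h3 : FillEx_L al be ga de (w.1.1, w.2) = FillEx_L al be ga de (w'.1.1, w'.2) :=
    Prod.ext (congrArg Prod.snd h1) (show (FillEx_g al be ga de w).2 = (FillEx_g al be ga de w').2
      from congrArg Prod.snd h)
  obtain ⟨h4, h5⟩ := FillEx_L_eq hdet h3
  exact ⟨Prod.ext h4 h2, h5⟩

theorem FillEx_g_add (al be ga de : ℤ) (z : AddCircle (1 : ℝ) × Ioo (1 : ℝ) 2) (t : ℝ) (k : ℤ) :
    FillEx_g al be ga de (z, t + k) = FillEx_g al be ga de (z, t) := by
  unfold FillEx_g
  rw [FillEx_L_add]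

/-! ### The space -/

section space

variable {S : Type u} [TopologicalSpace S] {J : Type u}

theorem FillEx_pow (E : Surf S J) (phi : S ≃ₜ S)
    (hphi : ∀ j z, phi (E.collar j z) = E.collar j z) (k : ℤ) (j : J)
    (z : AddCircle (1 : ℝ) × Ioo (1 : ℝ) 2) : (phi ^ k) (E.collar j z) = E.collar j z := by
  have hn : ∀ n : ℕ, (phi ^ n) (E.collar j z) = E.collar j z := by
    intro n
    induction n with
    | zero => rfl
    | succ n ih =>
      rw [pow_succ]
      show (phi ^ n) (phi (E.collar j z)) = _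
      rw [hphi, ih]
  obtain ⟨n, rfl | rfl⟩ := k.eq_nat_or_neg
  · rw [zpow_natCast]
    exact hn n
  · rw [zpow_neg, zpow_natCast]
    have : E.collar j z = (phi ^ n) (E.collar j z) := (hn n).symm
    nth_rewrite 1 [this]
    exact (phi ^ n).symm_apply_apply _

/-- the relation -/
def FillEx_R (E : Surf S J) (phi : S ≃ₜ S) (al be ga de : J → ℤ) :
    (S × ℝ) ⊕ (Σ _ : J, Metric.ball (0 : ℂ) 2 × AddCircle (1 : ℝ)) →
    (S × ℝ) ⊕ (Σ _ : J, Metric.ball (0 : ℂ) 2 × AddCircle (1 : ℝ)) → Prop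
  | Sum.inl a, Sum.inl b => ∃ k : ℤ, b.2 = a.2 + k ∧ a.1 = (phi ^ k) b.1
  | Sum.inl a, Sum.inr y => ∃ w : (AddCircle (1 : ℝ) × Ioo (1 : ℝ) 2) × ℝ,
      a = (E.collar y.1 w.1, w.2) ∧ y.2 = FillEx_g (al y.1) (be y.1) (ga y.1) (de y.1) w
  | Sum.inr y, Sum.inl a => ∃ w : (AddCircle (1 : ℝ) × Ioo (1 : ℝ) 2) × ℝ,
      a = (E.collar y.1 w.1, w.2) ∧ y.2 = FillEx_g (al y.1) (be y.1) (ga y.1) (de y.1) w
  | Sum.inr y, Sum.inr y' => y = y'

theorem FillEx_R_symm (E : Surf S J) (phi : S ≃ₜ S) (al be ga de : J → ℤ) {x y}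
    (h : FillEx_R E phi al be ga de x y) : FillEx_R E phi al be ga de y x := by
  rcases x with a | x <;> rcases y with b | y
  · obtain ⟨k, h1, h2⟩ := h
    refine ⟨-k, ?_, ?_⟩
    · rw [h1]; push_cast; ring
    · rw [h2, zpow_neg]
      exact ((phi ^ k).symm_apply_apply _).symm
  · exact h
  · exact h
  · exact Eq.symm h

theorem FillEx_R_trans (E : Surf S J) (phi : S ≃ₜ S)
    (hphi : ∀ j z, phi (E.collar j z) = E.collar j z) (al be ga de : J → ℤ)
    (hdet : ∀ j, al j * de j - be j * ga j = 1) {x y z}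
    (h : FillEx_R E phi al be ga de x y) (h' : FillEx_R E phi al be ga de y z) :
    FillEx_R E phi al be ga de x z := by
  rcases x with a | x <;> rcases y with b | y <;> rcases z with c | z
  · obtain ⟨k, h1, h2⟩ := h
    obtain ⟨l, h3, h4⟩ := h'
    refine ⟨k + l, ?_, ?_⟩
    · rw [h3, h1]; push_cast; ring
    · rw [h2, h4, zpow_add]
      rfl
  · obtain ⟨k, h1, h2⟩ := h
    obtain ⟨w, h3, h4⟩ := h'
    rw [h3] at h1 h2
    refine ⟨(w.1, w.2 + ((-k : ℤ) : ℝ)), Prod.ext ?_ ?_, ?_⟩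
    · rw [h2]
      exact FillEx_pow E phi hphi k _ _
    · have : w.2 = a.2 + k := h1
      show a.2 = w.2 + ((-k : ℤ) : ℝ)
      rw [this]; push_cast; ring
    · rw [FillEx_g_add]
      exact h4
  · obtain ⟨w, h1, h2⟩ := h
    obtain ⟨w', h3, h4⟩ := h'
    rw [h2] at h4
    obtain ⟨h5, k, h6⟩ := FillEx_g_eq (hdet y.1) h4
    refine ⟨k, ?_, ?_⟩
    · rw [h3, h1]
      exact h6
    · rw [h3, h1]
      show E.collar y.1 w.1 = (phi ^ k) (E.collar y.1 w'.1)
      rw [FillEx_pow E phi hphi, h5]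
  · obtain rfl : y = z := h'
    exact h
  · obtain ⟨w, h1, h2⟩ := h
    obtain ⟨k, h3, h4⟩ := h'
    rw [h1] at h3 h4
    refine ⟨(w.1, w.2 + k), Prod.ext ?_ h3, ?_⟩
    · have h5 : E.collar x.1 w.1 = (phi ^ k) c.1 := h4
      have h6 := FillEx_pow E phi hphi k x.1 w.1
      show c.1 = E.collar x.1 w.1
      rw [← h6] at h5
      exact ((phi ^ k).injective h5).symm
    · rw [FillEx_g_add]
      exact h2
  · obtain ⟨w, h1, h2⟩ := h
    obtain ⟨w', h3, h4⟩ := h'
    rw [h1] at h3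
    have e1 : E.collar x.1 w.1 = E.collar z.1 w'.1 := congrArg Prod.fst h3
    have e2 : w.2 = w'.2 := by
      have e := congrArg Prod.snd h3
      exact e
    have e3 := E.disj _ _ _ _ e1
    obtain ⟨i, x⟩ := x
    obtain ⟨j, z⟩ := z
    obtain rfl : i = j := e3
    have e4 : w.1 = w'.1 := (E.emb i).injective e1
    have e5 : w = w' := Prod.ext e4 e2
    have h2' : x = _ := h2
    have h4' : z = _ := h4
    show (⟨i, x⟩ : Σ _ : J, Metric.ball (0 : ℂ) 2 × AddCircle (1 : ℝ)) = ⟨i, z⟩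
    rw [h2', h4', e5]
  · obtain rfl : x = y := h
    exact h'
  · obtain rfl : x = y := h
    exact h'

/-- the setoid -/
def FillEx_S (E : Surf S J) (phi : S ≃ₜ S)
    (hphi : ∀ j z, phi (E.collar j z) = E.collar j z) (al be ga de : J → ℤ)
    (hdet : ∀ j, al j * de j - be j * ga j = 1) :
    Setoid ((S × ℝ) ⊕ (Σ _ : J, Metric.ball (0 : ℂ) 2 × AddCircle (1 : ℝ))) where
  r := FillEx_R E phi al be ga de
  iseqv := ⟨fun x => by
    rcases x with a | x
    · exact ⟨0, by simp, by simp⟩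
    · rfl, fun h => FillEx_R_symm E phi al be ga de h,
    fun h h' => FillEx_R_trans E phi hphi al be ga de hdet h h'⟩

/-- **Dehn fillings exist.** PROOF: `X = (S × ℝ) ⊕ (Σ j, ball × AddCircle)`, and the relation:
`inl (x, t) ∼ inl (x', t')` iff `∃ k : ℤ, t' = t + k ∧ x = (phi ^ k) x'`; `inr` points: only equal;
`inl (x, t) ∼ inr ⟨j, z⟩` iff `x = collar j (θ, r)` and
`z = (polar r (al θ + be t), ga θ + de t)` for some `θ, r`. It is an equivalence relation: `phi` is the identity on the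
collars, and since the determinant is `1` the point `z` determines `r`, and `(θ, t)` up to `t ↦ t + k`
(`θ = de (al θ + be t) - be (ga θ + de t)` etc.). The quotient map is open (the saturation of an open set is
open), its restriction to `S × ℝ` is a local homeomorphism (injective on `S × (t, t + 1)`) and its restriction
to each solid torus is an open embedding. -/
theorem exists_filling {S : Type u} [TopologicalSpace S] {J : Type u} (E : Surf S J) (phi : S ≃ₜ S)
    (hphi : ∀ j z, phi (E.collar j z) = E.collar j z) (al be ga de : J → ℤ)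
    (hdet : ∀ j, al j * de j - be j * ga j = 1) :
    ∃ (Y : Type u) (_ : TopologicalSpace Y), Nonempty (Filling E phi al be ga de Y) := by
  let St := FillEx_S E phi hphi al be ga de hdet
  let p : S × ℝ → Quotient St := fun a => Quotient.mk St (Sum.inl a)
  let q : J → Metric.ball (0 : ℂ) 2 × AddCircle (1 : ℝ) → Quotient St :=
    fun j z => Quotient.mk St (Sum.inr ⟨j, z⟩)
  let g : J → (AddCircle (1 : ℝ) × Ioo (1 : ℝ) 2) × ℝ → Metric.ball (0 : ℂ) 2 × AddCircle (1 : ℝ) :=
    fun j => FillEx_g (al j) (be j) (ga j) (de j)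
  let c : J → (AddCircle (1 : ℝ) × Ioo (1 : ℝ) 2) × ℝ → S × ℝ := fun j w => (E.collar j w.1, w.2)
  have openY : ∀ U : Set (Quotient St), IsOpen (p ⁻¹' U) → (∀ j, IsOpen (q j ⁻¹' U)) →
      IsOpen U := by
    intro U h1 h2
    refine isOpen_coinduced.2 ?_
    rw [isOpen_sum_iff]
    exact ⟨h1, isOpen_sigma_iff.2 h2⟩
  have pcont : Continuous p := continuous_quotient_mk'.comp continuous_inl
  have qcont : ∀ j, Continuous (q j) := fun j =>
    continuous_quotient_mk'.comp (continuous_inr.comp continuous_sigmaMk)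
  have peq : ∀ a b : S × ℝ, p a = p b ↔ ∃ k : ℤ, b.2 = a.2 + k ∧ a.1 = (phi ^ k) b.1 :=
    fun a b => Quotient.eq (r := St)
  have pq : ∀ (a : S × ℝ) j z, p a = q j z ↔ ∃ w, a = c j w ∧ z = g j w :=
    fun a j z => Quotient.eq (r := St)
  have qq : ∀ i j z z', q i z = q j z' ↔
      (⟨i, z⟩ : Σ _ : J, Metric.ball (0 : ℂ) 2 × AddCircle (1 : ℝ)) = ⟨j, z'⟩ :=
    fun i j z z' => Quotient.eq (r := St)
  have qinj : ∀ j, Function.Injective (q j) := by
    intro j z z' h
    have h1 := (qq j j z z').1 h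
    exact eq_of_heq (Sigma.mk.inj h1).2
  have copen : ∀ j, IsOpenMap (c j) := fun j => (E.emb j).isOpenMap.prodMap IsOpenMap.id
  have ccont : ∀ j, Continuous (c j) := fun j =>
    ((E.emb j).continuous.comp continuous_fst).prodMk continuous_snd
  have cinj : ∀ j, Function.Injective (c j) := by
    intro j w w' h
    have h1 : E.collar j w.1 = E.collar j w'.1 := congrArg Prod.fst h
    have h2 : w.2 = w'.2 := by
      have e := congrArg Prod.snd h
      exact e
    exact Prod.ext ((E.emb j).injective h1) h2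
  have popen : IsOpenMap p := by
    intro V hV
    refine openY _ ?_ fun j => ?_
    · have h1 : p ⁻¹' (p '' V) = ⋃ k : ℤ, (fun a : S × ℝ => ((phi ^ k) a.1, a.2 - k)) ⁻¹' V := by
        ext a
        simp only [mem_preimage, mem_image, mem_iUnion]
        constructor
        · rintro ⟨b, hb, hab⟩
          obtain ⟨k, h2, h3⟩ := (peq b a).1 hab
          refine ⟨k, ?_⟩
          have h4 : ((phi ^ k) a.1, a.2 - k) = b := Prod.ext h3.symm (by rw [h2]; ring)
          rw [h4]
          exact hb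
        · rintro ⟨k, hk⟩
          exact ⟨_, hk, (peq _ _).2 ⟨k, by ring, rfl⟩⟩
      rw [h1]
      refine isOpen_iUnion fun k => hV.preimage ?_
      exact ((phi ^ k).continuous.comp continuous_fst).prodMk (continuous_snd.sub continuous_const)
    · have h1 : q j ⁻¹' (p '' V) = g j '' (c j ⁻¹' V) := by
        ext z
        constructor
        · rintro ⟨a, ha, h2⟩
          obtain ⟨w, h3, h4⟩ := (pq a j z).1 h2
          exact ⟨w, by rw [mem_preimage, ← h3]; exact ha, h4.symm⟩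
        · rintro ⟨w, hw, rfl⟩
          exact ⟨c j w, hw, (pq _ _ _).2 ⟨w, rfl, rfl⟩⟩
      rw [h1]
      exact FillEx_g_open _ _ _ _ (hdet j) _ (hV.preimage (ccont j))
  have qopen : ∀ j, IsOpenMap (q j) := by
    intro j V hV
    refine openY _ ?_ fun i => ?_
    · have h1 : p ⁻¹' (q j '' V) = c j '' (g j ⁻¹' V) := by
        ext a
        constructor
        · rintro ⟨z, hz, h2⟩
          obtain ⟨w, h3, h4⟩ := (pq a j z).1 h2.symm
          exact ⟨w, by rw [mem_preimage, ← h4]; exact hz, h3.symm⟩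
        · rintro ⟨w, hw, rfl⟩
          exact ⟨g j w, hw, ((pq _ _ _).2 ⟨w, rfl, rfl⟩).symm⟩
      rw [h1]
      exact copen j _ (hV.preimage (FillEx_g_cont _ _ _ _))
    · by_cases hij : i = j
      · subst hij
        rw [preimage_image_eq _ (qinj i)]
        exact hV
      · have h1 : q i ⁻¹' (q j '' V) = ∅ := by
          ext z
          simp only [mem_preimage, mem_image, mem_empty_iff_false, iff_false]
          rintro ⟨z', -, h2⟩
          exact hij (Sigma.mk.inj ((qq j i z' z).1 h2)).1.symm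
        rw [h1]
        exact isOpen_empty
  have ploc : IsLocalHomeomorph p := by
    refine isLocalHomeomorph_iff_isOpenEmbedding_restrict.2 fun x => ?_
    have hU : IsOpen {a : S × ℝ | |a.2 - x.2| < 1 / 2} :=
      isOpen_lt ((continuous_snd.sub continuous_const).abs) continuous_const
    refine ⟨{a : S × ℝ | |a.2 - x.2| < 1 / 2}, hU.mem_nhds (by simp), ?_⟩
    refine IsOpenEmbedding.of_continuous_injective_isOpenMap (pcont.comp continuous_subtype_val) ?_
      (popen.comp hU.isOpenMap_subtype_val)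
    rintro ⟨a, ha⟩ ⟨b, hb⟩ h
    obtain ⟨k, h1, h2⟩ := (peq a b).1 h
    have ha' : |a.2 - x.2| < 1 / 2 := ha
    have hb' : |b.2 - x.2| < 1 / 2 := hb
    rw [abs_lt] at ha' hb'
    have h3 : k < 1 := by
      have : (k : ℝ) < 1 := by linarith
      exact_mod_cast this
    have h4 : -1 < k := by
      have : (-1 : ℝ) < k := by linarith
      exact_mod_cast this
    have h5 : k = 0 := by omega
    rw [h5] at h1 h2
    refine Subtype.ext (Prod.ext ?_ ?_)
    · rw [h2]; rfl
    · rw [h1]; simp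
  refine ⟨Quotient St, inferInstance, ⟨{
    p := p
    q := q
    p_loc := ploc
    p_eq := fun x t x' t' => peq (x, t) (x', t')
    q_emb := fun j => IsOpenEmbedding.of_continuous_injective_isOpenMap (qcont j) (qinj j) (qopen j)
    q_disj := fun i j z w h => (Sigma.mk.inj ((qq i j z w).1 h)).1
    glue := fun j θ r t => (pq _ _ _).2 ⟨((θ, r), t), rfl, rfl⟩
    overlap := fun x t j z h => by
      obtain ⟨w, h1, -⟩ := (pq (x, t) j z).1 h
      exact ⟨w.1, congrArg Prod.fst h1⟩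
    cover := fun y => by
      refine Quotient.inductionOn y fun x => ?_
      rcases x with a | ⟨j, z⟩
      · exact Or.inl ⟨a, rfl⟩
      · exact Or.inr ⟨j, z, rfl⟩ }⟩⟩

end space

end Pool.Agent.H.MP_1611f1_gt.PB
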