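import Pool.Agent.H.MP_1611f1_gt.Defs

/-!
Positive braid words, their bricks, and the fibre surfaces with the cocores of the bands.

A word of `c` letters in the positive generators of the braid group with `k` strands is a map
`β : Fin c → ℕ` with `β m + 1 < k`: the letter `m` is `σ_i` with `i = β m`, a positive crossing of the
strands at the levels `i` and `i + 1` (the levels are `0, …, k - 1`).
-/

namespace Pool.Agent.H.MP_1611f1_gt.PB

open Topology Set Filter

/-- The level of the closed braid at the time `t`, if one starts at the level `0`: one turn around
the braid axis takes `c` units of time; between the times `t` and `t + 1` one passes the crossing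
`t mod c`. -/
def level {c : ℕ} [NeZero c] (β : Fin c → ℕ) : ℕ → ℕ
  | 0 => 0
  | t + 1 => Equiv.swap (β (Fin.ofNat c t)) (β (Fin.ofNat c t) + 1) (level β t)

/-- The closed braid with `k` strands is a knot: one comes to every level. -/
def Knot (k : ℕ) {c : ℕ} [NeZero c] (β : Fin c → ℕ) : Prop :=
  (∀ m, β m + 1 < k) ∧ ∀ b < k, ∃ a : ℕ, level β (a * c) = b

/-- A brick: two consecutive letters `m < m'` of the same column (`β m = β m'`, and no letter
between them is in this column). -/
def Brick {c : ℕ} (β : Fin c → ℕ) (m m' : Fin c) : Prop :=
  m < m' ∧ β m' = β m ∧ ∀ z, m < z → z < m' → β z ≠ β m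

/-- Two bricks cross: they are consecutive bricks of one column, or they lie in adjacent columns and
their ends are interleaved. -/
def Cross {c : ℕ} (β : Fin c → ℕ) (m m' d d' : Fin c) : Prop :=
  m' = d ∨ d' = m ∨ ((β d = β m + 1 ∨ β m = β d + 1) ∧
    ((m < d ∧ d < m' ∧ m' < d') ∨ (d < m ∧ m < d' ∧ d' < m')))

/-- The surface `S` with one end has the arc system of the fibre surface of the closed braid `β`:
the fibre surface consists of `k` discs (the levels) and `c` bands, the band `m` joins the discs
`β m` and `β m + 1`; the arcs are the cocores of the bands, given by their collapse maps `kap m`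
(the value is `0` outside a strip around the cocore, and runs from `0` to `1` when one
crosses the strip from the disc `β m` to the disc `β m + 1`). All strips are disjoint. The
collar of the end is divided into `k * c` sectors, which correspond to the unit time intervals: in
the sector `t` one crosses the strip `m = t mod c` upwards if one is at the level `β m`, downwards
if one is at the level `β m + 1`, and no strip otherwise. Every point outside the (slightly smaller
closed) strips can be joined, outside of the strips, to the end. -/
structure Bands {S : Type*} [TopologicalSpace S] (E : Surf S Unit) (k : ℕ) {c : ℕ} [NeZero c]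
    (β : Fin c → ℕ) where
  kap : Fin c → C(S, AddCircle (1 : ℝ))
  disj : ∀ m m' x, m ≠ m' → kap m x = 0 ∨ kap m' x = 0
  ends : ∀ (m : Fin c) (t : ℕ) (u : ℝ) (r : Ioo (1 : ℝ) 2), u ∈ Icc (0 : ℝ) 1 →
    kap m (E.collar () ((((t + u) / (k * c) : ℝ) : AddCircle (1 : ℝ)), r)) =
      ((if Fin.ofNat c t = m ∧ level β t = β m then u else
        if Fin.ofNat c t = m ∧ level β t = β m + 1 then -u else 0 : ℝ) : AddCircle (1 : ℝ))
  reach : ∀ x ∈ {x : S | ∀ m, ‖kap m x‖ < 1 / 4},
    ∃ z, JoinedIn {x : S | ∀ m, ‖kap m x‖ < 1 / 4} x (E.collar () z)

/-- Homeomorphisms `h m`, one for every brick `(m, m')` (for example any power of the Dehn twist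
along the core of the brick, which runs through the bands `m`, `m'` and no other band): they are the
identity on the collar and preserve the strips of all other bands; those of bricks which
do not cross commute. -/
structure Bricks {S : Type*} [TopologicalSpace S] {E : Surf S Unit} {k c : ℕ} [NeZero c]
    {β : Fin c → ℕ} (A : Bands E k β) where
  h : Fin c → (S ≃ₜ S)
  h_collar : ∀ m z, h m (E.collar () z) = E.collar () z
  h_kap : ∀ m m', Brick β m m' → ∀ z, z ≠ m → z ≠ m' → ∀ x, A.kap z (h m x) = A.kap z x
  comm : ∀ m m' d d', Brick β m m' → Brick β d d' → ¬ Cross β m m' d d' →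
    h m * h d = h d * h m

open Classical in
/-- The monodromy: the product over the columns `0, 1, …, k - 2` of the products of the `h m`, `m` a
brick of this column, in the order of the word (the left factor is applied last). -/
noncomputable def Bricks.phi {S : Type*} [TopologicalSpace S] {E : Surf S Unit} {k c : ℕ}
    [NeZero c] {β : Fin c → ℕ} {A : Bands E k β} (H : Bricks A) : S ≃ₜ S :=
  ((List.range (k - 1)).map fun i =>
    (((List.finRange c).filter fun m => β m = i ∧ ∃ m', Brick β m m').map H.h).prod).prod

end Pool.Agent.H.MP_1611f1_gt.PB
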