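import Pool.Agent.H.MP_1611f1_gt.PB.Square
import Pool.Agent.H.MP_1611f1_gt.PB.Stmt

/-! Every positive braid word (as a map `Fin c → ℕ`) whose closure is a knot and which has at least
as many letters as strands is conjugate to one whose last two letters are equal. -/

namespace Pool.Agent.H.MP_1611f1_gt.PB

theorem level_turn {c : ℕ} [NeZero c] (β : Fin c → ℕ) (a : ℕ) :
    ∀ t, t ≤ c → level β (a * c + t) =
      (perm ((List.ofFn β).take t))⁻¹ (level β (a * c)) := by
  intro t
  induction t with
  | zero => intro _; simp [perm]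
  | succ t ih =>
    intro ht
    have h1 := ih (by omega)
    have h2 : (Fin.ofNat c (a * c + t) : Fin c) = ⟨t, by omega⟩ := by
      apply Fin.ext
      simp [Fin.ofNat, Nat.mod_eq_of_lt (show t < c by omega)]
    have h3 : (List.ofFn β).take (t + 1) = (List.ofFn β).take t ++ [β ⟨t, by omega⟩] := by
      rw [List.take_add_one]
      congr 1
      rw [List.getElem?_ofFn]
      simp [show t < c by omega]
    rw [← add_assoc, level, h1, h2, h3, perm_append, mul_inv_rev, Equiv.Perm.mul_apply]
    congr 1

theorem level_mul {c : ℕ} [NeZero c] (β : Fin c → ℕ) (a : ℕ) :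
    level β (a * c) = ((perm (List.ofFn β))⁻¹ ^ a) 0 := by
  induction a with
  | zero => simp [level]
  | succ a ih =>
    have h := level_turn β a c le_rfl
    rw [List.take_of_length_le (by simp)] at h
    rw [Nat.succ_mul, h, ih, pow_succ', Equiv.Perm.mul_apply]

theorem perm_mapsTo {n : ℕ} {u : List ℕ} (hu : ∀ x ∈ u, x + 1 < n) :
    (perm u) '' {x | x < n} = {x | x < n} := by
  induction u with
  | nil => simp [perm]
  | cons i u ih =>
    have hi : i + 1 < n := hu i (List.mem_cons_self)
    have ih' := ih (fun x hx => hu x (List.mem_cons_of_mem _ hx))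
    have e1 : perm (i :: u) = Equiv.swap i (i + 1) * perm u := by simp [perm]
    rw [e1, Equiv.Perm.coe_mul, Set.image_comp, ih']
    ext y
    simp only [Set.mem_image, Set.mem_ofPred_eq]
    constructor
    · rintro ⟨x, hx, rfl⟩
      rw [Equiv.swap_apply_def]
      split_ifs <;> omega
    · intro hy
      refine ⟨Equiv.swap i (i + 1) y, ?_, Equiv.swap_apply_self _ _ _⟩
      rw [Equiv.swap_apply_def]
      split_ifs <;> omega

theorem Knot.isKnot {k c : ℕ} [NeZero c] {β : Fin c → ℕ} (h : Knot k β) :
    IsKnot k (List.ofFn β) := by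
  have hlet : ∀ x ∈ List.ofFn β, x + 1 < k := by
    intro x hx
    rw [List.mem_ofFn] at hx
    obtain ⟨m, rfl⟩ := hx
    exact h.1 m
  constructor
  · refine ⟨?_, (Equiv.injective _).injOn, ?_⟩
    · intro x hx
      rw [← perm_mapsTo hlet]
      exact ⟨x, hx, rfl⟩
    · rw [Set.SurjOn, perm_mapsTo hlet]
  · have key : ∀ b < k, (perm (List.ofFn β)).SameCycle 0 b := by
      intro b hb
      obtain ⟨a, ha⟩ := h.2 b hb
      rw [level_mul] at ha
      refine ⟨-(a : ℤ), ?_⟩
      rw [← ha, inv_pow, zpow_neg, zpow_natCast]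
    intro x hx y hy
    exact (key x hx).symm.trans (key y hy)

theorem IsKnot.knot {k c : ℕ} [NeZero c] {β : Fin c → ℕ} (hlet : ∀ m, β m + 1 < k)
    (h : IsKnot k (List.ofFn β)) : Knot k β := by
  refine ⟨hlet, fun b hb => ?_⟩
  have hk : 0 < k := by omega
  have h0 : (perm (List.ofFn β)).SameCycle 0 b := h.2 hk hb
  have hfin : (perm (List.ofFn β)).SameCycle b 0 := h0.symm
  have hfin2 : ((perm (List.ofFn β))⁻¹).SameCycle 0 b := by
    rw [Equiv.Perm.sameCycle_inv]
    exact h0
  -- a nonnegative exponent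
  have hcyc : ((perm (List.ofFn β))⁻¹).IsCycleOn {x | x < k} := by
    rw [Equiv.Perm.isCycleOn_inv]
    exact h
  have hset : ({x | x < k} : Set ℕ) = ((Finset.range k : Finset ℕ) : Set ℕ) := by
    ext x; simp
  rw [hset] at hcyc
  obtain ⟨n, -, hn⟩ := hcyc.exists_pow_eq (Finset.mem_range.2 hk) (Finset.mem_range.2 hb)
  exact ⟨n, by rw [level_mul, hn]⟩

/-- **The hypothesis on the last two letters is no restriction on the knot.** -/
theorem exists_square_word {k c : ℕ} [NeZero c] (β : Fin c → ℕ) (hβ : Knot k β) (hc : k ≤ c) :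
    ∃ β' : Fin c → ℕ, Conjugate (List.ofFn β) (List.ofFn β') ∧ Knot k β' ∧
      ∃ m m' : Fin c, (m : ℕ) + 2 = c ∧ (m' : ℕ) + 1 = c ∧ β' m' = β' m := by
  have hc0 : 0 < c := Nat.pos_of_ne_zero (NeZero.ne c)
  have hlet : ∀ x ∈ List.ofFn β, x + 1 < k := by
    intro x hx
    rw [List.mem_ofFn] at hx
    obtain ⟨m, rfl⟩ := hx
    exact hβ.1 m
  have hk : 0 < k := by
    have := hβ.1 ⟨0, hc0⟩
    omega
  obtain ⟨u, i, hconj⟩ := exists_square k hk (List.ofFn β) hlet hβ.isKnot (by simpa using hc)
  have hlen : (u ++ [i, i]).length = c := by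
    rw [← hconj.length]; simp
  have hsm : Small (k - 1) (List.ofFn β) := fun x hx => by have := hlet x hx; omega
  have hkn := hconj.isKnot hsm hβ.isKnot
  have hsm' := hconj.small.1 hsm
  have hul : u.length + 2 = c := by
    simpa using hlen
  set w := u ++ [i, i] with hw
  have hβ' : List.ofFn (fun m : Fin c => w.get (Fin.cast hlen.symm m)) = w := by
    apply List.ext_getElem
    · simp [hlen]
    · intro j h1 h2
      simp
  refine ⟨fun m => w.get (Fin.cast hlen.symm m), ?_, ?_, ⟨c - 2, by omega⟩, ⟨c - 1, by omega⟩,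
    ?_, ?_, ?_⟩
  · rw [hβ']; exact hconj
  · apply IsKnot.knot
    · intro m
      have := hsm' _ (List.get_mem w (Fin.cast hlen.symm m))
      omega
    · rw [hβ']; exact hkn
  · show c - 2 + 2 = c
    omega
  · show c - 1 + 1 = c
    omega
  · simp only [List.get_eq_getElem, Fin.val_cast]
    have e1 : w[c - 1]'(by omega) = i := by
      simp only [hw]
      rw [List.getElem_append_right (by omega)]
      simp [show c - 1 - u.length = 1 by omega]
    have e2 : w[c - 2]'(by omega) = i := by
      simp only [hw]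
      rw [List.getElem_append_right (by omega)]
      simp [show c - 2 - u.length = 0 by omega]
    rw [e1, e2]

end Pool.Agent.H.MP_1611f1_gt.PB
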