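import Pool.Agent.H.MP_1611f1_gt.PB.Main
import Pool.Agent.H.MP_1611f1_gt.PB.SqWord
import Pool.Agent.H.MP_1611f1_gt.PB.FillEx
import Pool.Agent.H.MP_1611f1_gt.PB.FillCl
import Pool.Agent.H.MP_1611f1_gt.PB.Core
import Pool.Agent.H.MP_1611f1_gt.PB.Mo.Model

/-!
Summary.
-/

namespace Pool.Agent.H.MP_1611f1_gt.PB

open Topology Set Filter

theorem three_le {k c : ℕ} [NeZero c] {β : Fin c → ℕ} (hβ : Knot k β) (hs : EndsInSquare β) :
    3 ≤ c := by
  obtain ⟨m, m', hm, hm', h⟩ := hs
  by_contra hc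
  have hc2 : c = 2 := by omega
  subst hc2
  have h0 : m = 0 := Fin.ext (by simpa using hm)
  have h1 : m' = 1 := Fin.ext (by
    have : (m' : ℕ) = 1 := by omega
    simpa using this)
  rw [h0, h1] at h
  have hk : 1 < k := by
    have := hβ.1 0
    omega
  have key : ∀ a : ℕ, level β (a * 2) = 0 := by
    intro a
    induction a with
    | zero => rfl
    | succ a ih =>
      have e : (a + 1) * 2 = a * 2 + 1 + 1 := by ring
      have e0 : (Fin.ofNat 2 (a * 2) : Fin 2) = 0 := by
        ext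
        simp [Fin.ofNat]
      have e1 : (Fin.ofNat 2 (a * 2 + 1) : Fin 2) = 1 := by
        ext
        simp [Fin.ofNat, Nat.add_mod]
      rw [e, level, level, e0, e1, ih, h]
      exact Equiv.swap_apply_self _ _ _
  obtain ⟨a, ha⟩ := hβ.2 1 hk
  rw [key a] at ha
  omega

theorem phi_collar {S : Type*} [TopologicalSpace S] {E : Surf S Unit} {k c : ℕ}
    [NeZero c] {β : Fin c → ℕ} {A : Bands E k β} (H : Bricks A) (z) :
    H.phi (E.collar () z) = E.collar () z := by
  classical
  have key : ∀ l : List (Fin c), (l.map H.h).prod (E.collar () z) = E.collar () z := by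
    intro l
    induction l with
    | nil => rfl
    | cons m l ih =>
      rw [List.map_cons, List.prod_cons]
      show H.h m ((l.map H.h).prod (E.collar () z)) = _
      rw [ih, H.h_collar]
  have key2 : ∀ (L : List ℕ) (f : ℕ → List (Fin c)),
      (L.map fun i => ((f i).map H.h).prod).prod (E.collar () z) = E.collar () z := by
    intro L f
    induction L with
    | nil => rfl
    | cons i L ih =>
      rw [List.map_cons, List.prod_cons]
      show ((f i).map H.h).prod ((L.map fun i => ((f i).map H.h).prod).prod (E.collar () z)) = _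
      rw [ih, key]
  exact key2 _ _

theorem final :
    (∀ (k c : ℕ) [NeZero c] (β : Fin c → ℕ), Knot k β → k ≤ c → ∃ β' : Fin c → ℕ,
      Conjugate (List.ofFn β) (List.ofFn β') ∧ Knot k β' ∧ EndsInSquare β') ∧
    ∀ (k c : ℕ) [NeZero c] (β : Fin c → ℕ), Knot k β → EndsInSquare β →
      (∀ (S : Type*) [TopologicalSpace S] [ConnectedSpace S] (Y : Type*) [TopologicalSpace Y]
        (E : Surf S Unit) (A : Bands E k β) (H : Bricks A) (al be ga de : ℤ),
        al * de - be * ga = 1 → 0 < -(ga : ℝ) / de → -(ga : ℝ) / de < c - k →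
        Nonempty (Filling E H.phi (fun _ => al) (fun _ => be) (fun _ => ga) (fun _ => de) Y) →
        ∃ F : Foliation Y, F.Taut) ∧
      ∃ (S : Type) (_ : TopologicalSpace S) (_ : ConnectedSpace S) (E : Surf S Unit)
        (A : Bands E k β) (a : Fin c → AddCircle (1 : ℝ) × Icc (-1 : ℝ) 1 → S),
        CompactType E ∧ (∀ m m', Brick β m m' → IsCore A m m' (a m)) ∧
        ∀ e : Fin c → ℤ, ∃ H : Bricks A, (∀ m m', Brick β m m' → IsTwist (a m) (e m) (H.h m)) ∧
          ∀ al be ga de : ℤ, al * de - be * ga = 1 → ∃ (Y : Type) (_ : TopologicalSpace Y),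
            T2Space Y ∧ CompactSpace Y ∧
            Nonempty (Filling E H.phi (fun _ => al) (fun _ => be) (fun _ => ga) (fun _ => de) Y) := by
  refine ⟨fun k c _ β hβ hc => ?_, fun k c _ β hβ hs => ⟨?_, ?_⟩⟩
  · obtain ⟨β', h1, h2, h3⟩ := exists_square_word β hβ hc
    exact ⟨β', h1, h2, h3⟩
  · intro S _ _ Y _ E A H al be ga de hdet h0 h1 hF
    have hde : de ≠ 0 := by
      rintro rfl
      simp at h0
    obtain ⟨Fl⟩ := hF
    exact main E hβ hs A H al be ga de hdet hde h0 h1 Fl
  · obtain ⟨S, _, _, E, A, a, ht, hk, h1, h2⟩ := Mo.exists_model hβ (three_le hβ hs)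
    refine ⟨S, inferInstance, inferInstance, E, A, a, ⟨ht, hk⟩, fun m m' hm => ?_, fun e => ?_⟩
    · obtain ⟨g1, g2, g3⟩ := h1 m m' hm
      exact ⟨g1, g2, g3⟩
    · obtain ⟨H, hH⟩ := h2 e
      refine ⟨H, hH, fun al be ga de hdet => ?_⟩
      obtain ⟨Y, _, ⟨Fl⟩⟩ := exists_filling E H.phi (fun _ z => phi_collar H z) (fun _ => al)
        (fun _ => be) (fun _ => ga) (fun _ => de) fun _ => hdet
      refine ⟨Y, inferInstance, filling_t2 Fl fun _ => hdet,
        filling_compact Fl (fun _ z => phi_collar H z) (fun _ => hdet) fun ρ h3 h4 => ?_, ⟨Fl⟩⟩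
      have e : (⋃ j, E.collar j '' {z | (z.2 : ℝ) < ρ}) = E.collar () '' {z | (z.2 : ℝ) < ρ} := by
        ext x
        rw [mem_iUnion]
        exact ⟨fun ⟨_, h⟩ => h, fun h => ⟨(), h⟩⟩
      rw [e]
      exact hk ρ h3 h4

end Pool.Agent.H.MP_1611f1_gt.PB
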