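import Pool.Agent.H.MP_1611f1_gt.PB.AsmA
import Pool.Agent.H.MP_1611f1_gt.PB.AsmB
import Pool.Agent.H.MP_1611f1_gt.PB.ConjF
import Pool.Agent.H.MP_1611f1_gt.PB.Data
import Pool.Agent.H.MP_1611f1_gt.G2.GenFillDet

/-!
The theorem on positive braids.
-/

namespace Pool.Agent.H.MP_1611f1_gt.PB

open Topology Set Filter

theorem colN_val {c : ℕ} [NeZero c] (β : Fin c → ℕ) (m : Fin c) : colN β m = β m := by
  unfold colN
  congr 1
  ext
  simp [Fin.ofNat, Nat.mod_eq_of_lt m.2]

theorem Brick.nxt {c : ℕ} [NeZero c] {β : Fin c → ℕ} {m m' : Fin c} (h : Brick β m m') :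
    Nxt (colN β) c m m' := by
  refine ⟨h.1, m'.2, ?_, fun z hz hz' => ?_⟩
  · rw [colN_val, colN_val, h.2.1]
  · have := h.2.2 ⟨z, hz'.trans m'.2⟩ hz hz'
    rw [← colN_val β ⟨z, hz'.trans m'.2⟩, ← colN_val β m] at this
    exact this

/-- **positive braids**: all slopes in `(0, c - k)`, `c - k = 2 g - 1` -/
theorem main {S : Type*} [TopologicalSpace S] [ConnectedSpace S] {Y : Type*} [TopologicalSpace Y]
    (E : Surf S Unit) {k c : ℕ} [NeZero c] {β : Fin c → ℕ} (hβ : Knot k β)
    (hlast : ∃ m m' : Fin c, (m : ℕ) + 2 = c ∧ (m' : ℕ) + 1 = c ∧ β m' = β m)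
    (A : Bands E k β) (H : Bricks A) (al be ga de : ℤ) (hdet : al * de - be * ga = 1)
    (hde : de ≠ 0)
    (h0 : 0 < -(ga : ℝ) / de) (h1 : -(ga : ℝ) / de < c - k)
    (Fl : Filling E H.phi (fun _ => al) (fun _ => be) (fun _ => ga) (fun _ => de) Y) :
    ∃ F : Foliation Y, F.Taut := by
  obtain ⟨m, m', hm, hm', hlast⟩ := hlast
  obtain ⟨N, hN⟩ : ∃ N, N + 2 = c := ⟨m, hm⟩
  have hk : 0 < k := by
    have := hβ.1 m
    omega
  have hcol : ∀ j < N + 2, colN β j + 1 < k := fun j _ => hβ.1 _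
  have hl : colN β (N + 1) = colN β N := by
    have e1 : N + 1 = (m' : ℕ) := by omega
    have e2 : N = (m : ℕ) := by omega
    rw [e1, e2, colN_val, colN_val, hlast]
  have hkn : ∀ l < k, ∃ j, lev (fun m => colN β (m % (N + 2))) 0 (j * (N + 2)) = l := by
    intro l hl
    obtain ⟨a, ha⟩ := hβ.2 l hl
    refine ⟨a, ?_⟩
    rw [hN, ← level_eq]
    exact ha
  obtain ⟨T, B, τ, th, hT, hB, hτ, ho1, ho2, hth, hlev, hhol⟩ := exists_data hcol hl hk hkn
    (s := -(ga : ℝ) / de) h0 (by
      have : (c : ℝ) = N + 2 := by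
        rw [← hN]
        push_cast
        ring
      rw [← this]
      exact h1)
  rw [hN] at hτ ho1 ho2 hlev hhol
  -- the sorted monodromy
  obtain ⟨u, hu, hu'⟩ := exists_sorted H hβ.1 (fun b => τ b.1) (T := T) (by omega)
    (fun x y hxy => by
      obtain ⟨y', hy'⟩ := y.2
      exact ho1 _ _ _ hxy.nxt hy'.nxt)
    (fun x y x' y' hx hy hc hxy hyx => by
      refine ho2 _ _ _ _ hx.nxt hy.nxt ?_ hxy hyx
      rw [colN_val, colN_val, hc])
  have huc : ∀ j z, u (E.collar j z) = E.collar j z :=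
    fun j z => closure_collar (fun x j z => H.h_collar x.1 z) hu j z
  obtain ⟨Fl'⟩ := filling_conj Fl u huc
  rw [hu'] at Fl'
  refine G2.gen_fill_det (s := fun _ => -(ga : ℝ) / de) hT
    (fun _ => Nat.mul_pos hk (Nat.pos_of_ne_zero (NeZero.ne c)))
    (fun _ t => letter_per (k := k) β t) (A.arcs hk) (fun e : Fin c => B e) (fun e t => hB _ t)
    (fun _ => th) (fun _ => th.strictMono) (fun _ => th.continuous) (fun _ t => hth t) ?_
    (factor H (fun b => τ b.1) T) (factor_per H _ T) (fun i _ z => factor_collar H _ T i z)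
    ?_ (-1) Fl' (fun _ => hdet) (fun _ => hde) (fun _ => ?_)
  · intro _ t
    rw [hol_letter B (k * c) le_rfl]
    exact hhol t
  · intro i e
    by_cases h : ∀ b : BrickT β, τ b.1 % T = i % T → b.1 ≠ e ∧ ∀ b', Brick β b.1 b' → b' ≠ e
    · exact Or.inr fun y => factor_kap H _ T i e h y
    · left
      push Not at h
      obtain ⟨b, hb, hb'⟩ := h
      have hfix : B e (τ b.1) = τ b.1 := by
        by_cases hbe : b.1 = e
        · obtain ⟨b', hb''⟩ := b.2
          rw [← hbe]
          exact (hτ _ _ hb''.nxt).1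
        · obtain ⟨b', hb'', rfl⟩ := hb' hbe
          exact (hτ _ _ hb''.nxt).2
      obtain ⟨q, hq⟩ : ∃ q : ℤ, i = τ b.1 + q * T := by
        have h3 := Int.emod_add_mul_ediv i T
        have h4 := Int.emod_add_mul_ediv (τ b.1) T
        refine ⟨i / T - τ b.1 / T, ?_⟩
        rw [sub_mul, mul_comm _ (T : ℤ), mul_comm _ (T : ℤ)]
        omega
      have hz : ∀ q : ℤ, ∀ t, B e (t + q * T) = B e t + q * T := by
        intro q t
        induction q using Int.induction_on with
        | zero => simp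
        | succ q ih =>
          have : t + ((q : ℤ) + 1 : ℤ) * (T : ℝ) = (t + (q : ℤ) * (T : ℝ)) + T := by
            push_cast
            ring
          rw [this, hB, ih]
          push_cast
          ring
        | pred q ih =>
          have h5 := hB e (t + ((-(q : ℤ) - 1 : ℤ) : ℝ) * (T : ℝ))
          have : t + ((-(q : ℤ) - 1 : ℤ) : ℝ) * (T : ℝ) + T = t + ((-(q : ℤ) : ℤ) : ℝ) * T := by
            push_cast
            ring
          rw [this, ih] at h5
          have h6 : B e (t + ((-(q : ℤ) - 1 : ℤ) : ℝ) * (T : ℝ)) =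
              B e t + ((-(q : ℤ) : ℤ) : ℝ) * T - T := by linarith
          rw [h6]
          push_cast
          ring
      rw [hq]
      push_cast
      rw [hz, hfix]
  · have : (de : ℝ) ≠ 0 := by exact_mod_cast hde
    field_simp

end Pool.Agent.H.MP_1611f1_gt.PB
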