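import Pool.Agent.H.MP_1611f1_gt.PB.Dee

/-!
Positions, bricks and the order of the marks.
-/

namespace Pool.Agent.H.MP_1611f1_gt.PB

open Set Filter Topology

/-- `m'` is the next band of the column of `m` (so `(m, m')` is a brick) -/
def Nxt (col : ℕ → ℕ) (c m m' : ℕ) : Prop :=
  m < m' ∧ m' < c ∧ col m' = col m ∧ ∀ k, m < k → k < m' → col k ≠ col m

theorem Nxt.unique {col : ℕ → ℕ} {c m a b : ℕ} (h1 : Nxt col c m a) (h2 : Nxt col c m b) :
    a = b := by
  obtain ⟨h11, h12, h13, h14⟩ := h1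
  obtain ⟨h21, h22, h23, h24⟩ := h2
  rcases lt_trichotomy a b with h | h | h
  · exact absurd h13 (h24 a h11 h)
  · exact h
  · exact absurd h23 (h14 b h21 h)

theorem Nxt.le {col : ℕ → ℕ} {c m a l : ℕ} (h1 : Nxt col c m a) (hl : m < l)
    (hc : col m = col l) : a ≤ l := by
  by_contra h
  exact h1.2.2.2 l hl (not_le.1 h) hc.symm

theorem pos_N (η : ℝ) (N : ℕ) : pos η N N = 0 := by
  rw [pos, if_neg (lt_irrefl _)]

theorem pos_lt_one {η : ℝ} (hη : 0 < η) (N m : ℕ) : pos η N m < 1 := by
  unfold pos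
  split_ifs
  · have : 0 < η * (m + 1) / (N + 1) := by positivity
    linarith
  · norm_num

theorem pos_ge {η : ℝ} (hη : 0 < η) {N m : ℕ} (hm : m < N) : 1 - η ≤ pos η N m := by
  rw [pos, if_pos hm]
  have h1 : (m : ℝ) + 1 ≤ N + 1 := by
    have : (m : ℝ) < N := by exact_mod_cast hm
    linarith
  have h2 : (0 : ℝ) < N + 1 := by positivity
  have : η * (m + 1) / (N + 1) ≤ η := by
    rw [div_le_iff₀ h2]
    exact mul_le_mul_of_nonneg_left h1 hη.le
  linarith

theorem pos_nonneg {η : ℝ} (hη : 0 < η) (hη1 : η ≤ 1) (N m : ℕ) : 0 ≤ pos η N m := by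
  by_cases hm : m < N
  · linarith [pos_ge hη hm]
  · rw [pos, if_neg hm]

theorem pos_anti {η : ℝ} (hη : 0 < η) (hη1 : η ≤ 1 / 2) {N m m' : ℕ} (h : m < m') (hm : m' ≤ N) :
    pos η N m' < pos η N m := by
  rcases lt_or_eq_of_le hm with h1 | h1
  · rw [pos, pos, if_pos h1, if_pos (h.trans h1)]
    have h2 : (0 : ℝ) < N + 1 := by positivity
    have h3 : (m : ℝ) < m' := by exact_mod_cast h
    have : η * (m + 1) / (N + 1) < η * (m' + 1) / (N + 1) := by
      apply div_lt_div_of_pos_right _ h2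
      exact mul_lt_mul_of_pos_left (by linarith) hη
    linarith
  · subst h1
    rw [pos_N]
    linarith [pos_ge hη h]

/-- order of the lower marks of two bricks of one column -/
theorem mT_order {p a a' b b' : ℝ} (h1 : b < a) (h2 : b' < a') (h3 : a < b + 1)
    (h4 : a' < b' + 1) : mT p b' b < mT p a' a ∧ mT p a' a < mT p b' b + 1 := by
  have he := ep_pos p
  have he1 := ep_le p
  unfold mT
  constructor
  · nlinarith
  · nlinarith

/-- order of the upper marks of two bricks of one column -/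
theorem mU_order {p a a' b b' : ℝ} (h1 : b < a) (h2 : b' < a') (h3 : a < b + 1)
    (h4 : a' < b' + 1) : mU p b' b < mU p a' a ∧ mU p a' a < mU p b' b + 1 := by
  have he := ep_pos p
  have he1 := ep_le p
  unfold mU
  constructor
  · nlinarith
  · nlinarith

/-- order of the marks of two bricks `(m, m')` (column `k`, positions `f > f'`) and `(d, d')`
(column `k + 1`, positions `g > g'`) which overlap -/
theorem mTU_order {p f f' g g' : ℝ} (h1 : g' < f) (h2 : f < g' + 1) (h3 : f' < g)
    (h4 : g < f' + 1) : mT p g' g < mU p f' f ∧ mU p f' f < mT p g' g + 1 := by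
  have he := ep_pos p
  have he1 := ep_le p
  unfold mT mU
  constructor
  · nlinarith
  · nlinarith

theorem lev_le {col : ℕ → ℕ} {i : ℕ} {l : ℕ} (hl : l ≤ i) (m : ℕ) (hne : ∀ j < m, col j ≠ i) :
    lev col l m ≤ i := by
  induction m with
  | zero => exact hl
  | succ m ih =>
    have h1 := ih fun j hj => hne j (by omega)
    have h2 := hne m (by omega)
    show stepLev (col m) (lev col l m) ≤ i
    unfold stepLev
    split_ifs <;> omega

theorem tlev_le {col : ℕ → ℕ} {i N : ℕ} {l : ℕ} (hl : l ≤ i) (hne : ∀ m < N, col m ≠ i) (j : ℕ) :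
    tlev col N l j ≤ i := by
  induction j with
  | zero => exact hl
  | succ j ih => exact lev_le ih N hne

theorem thol_congr {col : ℕ → ℕ} {A A' : ℕ → ℝ ≃o ℝ} {N : ℕ} (hA : ∀ m < N, A m = A' m)
    (l j : ℕ) : thol col A N l j = thol col A' N l j := by
  induction j with
  | zero => rfl
  | succ j ih => rw [thol, thol, ih, hol_congr (fun _ _ => rfl) hA _ N le_rfl]

end Pool.Agent.H.MP_1611f1_gt.PB
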