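import Pool.Agent.H.MP_1611f1_gt.PB.Marks
import Pool.Agent.H.MP_1611f1_gt.PB.Exact

/-!
The one-dimensional data before the gauge transformation.
-/

namespace Pool.Agent.H.MP_1611f1_gt.PB

open Set Filter Topology

/-- THE DATA BEFORE THE GAUGE TRANSFORMATION (period `1`, different levels not yet compared). -/
theorem exists_raw {n N : ℕ} {col : ℕ → ℕ} (hcol : ∀ m < N + 2, col m + 1 < n)
    (hlast : col (N + 1) = col N) {l0 : ℕ} (hl0 : l0 < n)
    (hknot : ∀ l < n, ∃ j, tlev col N l0 j = l) {s : ℝ} (hs : 0 < s)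
    (hs1 : s < (N : ℝ) + 2 - n) :
    ∃ (A : ℕ → ℝ ≃o ℝ) (T U : ℕ → ℝ), (∀ m t, A m (t + 1) = A m t + 1) ∧
      (∀ m m', Nxt col (N + 2) m m' → A m (T m) = U m ∧ A m' (T m) = U m) ∧
      (∀ m m₁ l l₁, Nxt col (N + 2) m m₁ → Nxt col (N + 2) l l₁ → col m = col l → m < l →
        T l < T m ∧ T m < T l + 1 ∧ U l < U m ∧ U m < U l + 1) ∧
      (∀ m m₁ d d₁, Nxt col (N + 2) m m₁ → Nxt col (N + 2) d d₁ → col d = col m + 1 → m < d₁ →
        d < m₁ → T d < U m ∧ U m < T d + 1) ∧
      ∃ k k' : ℕ, 0 < k ∧ 0 < k' ∧ k + k' = n ∧ tlev col N (col N) k = col N + 1 ∧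
        tlev col N (col N + 1) k' = col N ∧
        (∀ j, 0 < j → j < n → j ≠ k → tlev col N (col N) j ≠ col N ∧
          tlev col N (col N) j ≠ col N + 1) ∧
        ∀ x, thol col A N (col N + 1) k' (A (N + 1) ((A N).symm (thol col A N (col N) k
          ((A (N + 1)).symm (A N x))))) = x + s := by
  classical
  have hi : col N + 1 < n := hcol N (by omega)
  have hn2 : 2 ≤ n := by omega
  have hN : 0 < N := by
    by_contra h
    have h0 : N = 0 := by omega
    subst h0
    have : (2 : ℝ) ≤ n := by exact_mod_cast hn2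
    push_cast at hs1
    linarith
  have hcol' : ∀ m < N, col m + 1 < n := fun m hm => hcol m (by omega)
  obtain ⟨k, k', hk, hk', hkk, h1, h2, hne, hu⟩ := knot_split hcol' hl0 hknot hi
  -- the last band of the column `i` before `N`
  have hex : ∃ m, m < N ∧ col m = col N := by
    by_contra hcon
    push Not at hcon
    have := tlev_le (col := col) (i := col N) (N := N) (l := col N) le_rfl hcon k
    omega
  obtain ⟨b, hbN, hbc, hbmax⟩ : ∃ b, b < N ∧ col b = col N ∧ ∀ m, b < m → m < N → col m ≠ col N := by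
    obtain ⟨m0, hm0, hm0c⟩ := hex
    have hb := Nat.findGreatest_spec (P := fun m => m < N ∧ col m = col N) (n := N) hm0.le ⟨hm0, hm0c⟩
    refine ⟨_, hb.1, hb.2, fun m hm1 hm2 hm3 => ?_⟩
    exact Nat.findGreatest_is_greatest hm1 hm2.le ⟨hm2, hm3⟩
  set η : ℝ := min (1 / 8) (((N : ℝ) + 2 - n - s) / 2) with hηdef
  have hη : 0 < η := by
    rw [hηdef, lt_min_iff]
    exact ⟨by norm_num, by linarith⟩
  have hη8 : η ≤ 1 / 8 := min_le_left _ _
  have hηs : η ≤ ((N : ℝ) + 2 - n - s) / 2 := min_le_right _ _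
  have hη1 : η ≤ 1 := by linarith
  have hη2 : η ≤ 1 / 2 := by linarith
  obtain ⟨p, hp⟩ := exists_param_D hN hk hk' hkk h1 h2 hu hs hη hη1 (by linarith) b hbN
  set P : ℕ → ℝ := pos η N with hP
  have hPN : P N = 0 := pos_N η N
  have hP1 : ∀ m, P m < 1 := fun m => pos_lt_one hη N m
  have hP0 : ∀ m, 0 ≤ P m := fun m => pos_nonneg hη hη1 N m
  have hPa : ∀ m m', m < m' → m' ≤ N → P m' < P m := fun m m' h h' => pos_anti hη hη2 h h'
  have hPb : 1 - η ≤ P b := pos_ge hη hbN
  have he := ep_pos p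
  have he1 := ep_le p
  set A0 : ℕ → ℝ ≃o ℝ := fun m => bI p (P m) with hA0
  have hA0per : ∀ m t, A0 m (t + 1) = A0 m t + 1 := fun m t => bI_add p (P m) t
  obtain ⟨M1, hM1, hB1⟩ := thol_BL p P col N (col N) k
  obtain ⟨M2, hM2, hB2⟩ := thol_BL p P col N (col N + 1) k'
  have hM : 1 ≤ max M1 M2 := le_max_of_le_left hM1
  have hB1' : BL (max M1 M2) (thol col A0 N (col N) k) :=
    BL.mono (OrderIso.monotone _) hB1 (le_max_left _ _)
  have hB2' : BL (max M1 M2) (thol col A0 N (col N + 1) k') :=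
    BL.mono (OrderIso.monotone _) hB2 (le_max_right _ _)
  have hκ : 0 < 2 * ep p * P b := by
    have : 0 < P b := by linarith
    positivity
  obtain ⟨α, δ, t, hα, hδ, hαζ, hδt, htζ, htκ, hUl, hUu, hW⟩ :=
    exists_exact (thol_per hA0per N (col N) k) (thol_per hA0per N (col N + 1) k') hM hB1' hB2'
      (υ := mU p 0 (P b)) (ell := 1 / 2 - η) (κ := 2 * ep p * P b) hp (by linarith) (by linarith) hκ
  set A : ℕ → ℝ ≃o ℝ := fun m => if m < N then A0 m else if m = N then α else
    if m = N + 1 then δ.symm.trans α else OrderIso.refl ℝ with hAdef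
  have hAlt : ∀ m, m < N → A m = A0 m := fun m hm => by simp only [hAdef]; rw [if_pos hm]
  have hAN : A N = α := by
    show (if N < N then A0 N else if N = N then α else
      if N = N + 1 then δ.symm.trans α else OrderIso.refl ℝ) = α
    rw [if_neg (lt_irrefl _), if_pos rfl]
  have hAN1 : A (N + 1) = δ.symm.trans α := by
    show (if N + 1 < N then A0 (N + 1) else if N + 1 = N then α else
      if N + 1 = N + 1 then δ.symm.trans α else OrderIso.refl ℝ) = _
    rw [if_neg (by omega), if_neg (by omega), if_pos rfl]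
  have hδs : ∀ x, δ.symm (x + 1) = δ.symm x + 1 := fun x => by
    apply δ.injective
    rw [hδ, OrderIso.apply_symm_apply, OrderIso.apply_symm_apply]
  have hAper : ∀ m x, A m (x + 1) = A m x + 1 := by
    intro m x
    simp only [hAdef]
    split_ifs
    · exact hA0per m x
    · exact hα x
    · show α (δ.symm (x + 1)) = α (δ.symm x) + 1
      rw [hδs, hα]
    · rfl
  -- the next band
  set nx : ℕ → ℕ := fun m => if h : ∃ m', Nxt col (N + 2) m m' then h.choose else 0 with hnx
  have hnxe : ∀ m m', Nxt col (N + 2) m m' → nx m = m' := by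
    intro m m' h
    have hh : ∃ m', Nxt col (N + 2) m m' := ⟨m', h⟩
    simp only [hnx]
    rw [dif_pos hh]
    exact Nxt.unique hh.choose_spec h
  set T : ℕ → ℝ := fun m => if m = N then t else mT p (P (nx m)) (P m) with hT
  set U : ℕ → ℝ := fun m => if m = N then α t else mU p (P (nx m)) (P m) with hU
  have hTN : T N = t := by
    show (if N = N then t else mT p (P (nx N)) (P N)) = t
    rw [if_pos rfl]
  have hUN : U N = α t := by
    show (if N = N then α t else mU p (P (nx N)) (P N)) = α t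
    rw [if_pos rfl]
  have hTm : ∀ m m', m ≠ N → Nxt col (N + 2) m m' → T m = mT p (P m') (P m) := by
    intro m m' h h'
    simp only [hT]; rw [if_neg h, hnxe m m' h']
  have hUm : ∀ m m', m ≠ N → Nxt col (N + 2) m m' → U m = mU p (P m') (P m) := by
    intro m m' h h'
    simp only [hU]; rw [if_neg h, hnxe m m' h']
  -- the bricks
  have hbrick : ∀ m m', Nxt col (N + 2) m m' → (m < N ∧ m' ≤ N) ∨ (m = N ∧ m' = N + 1) := by
    intro m m' h
    obtain ⟨a1, a2, a3, a4⟩ := h
    rcases lt_trichotomy m N with h5 | h5 | h5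
    · left
      refine ⟨h5, ?_⟩
      by_contra h6
      have h7 : m' = N + 1 := by omega
      subst h7
      exact a4 N h5 (by omega) (by rw [← hlast, a3])
    · right
      exact ⟨h5, by omega⟩
    · omega
  refine ⟨A, T, U, hAper, ?_, ?_, ?_, k, k', hk, hk', hkk, h1, h2, hne, ?_⟩
  · -- the marks
    intro m m' h
    rcases hbrick m m' h with ⟨h5, h6⟩ | ⟨h5, h6⟩
    · have h7 : P m' < P m := hPa m m' h.1 h6
      have h8 : P m < P m' + 1 := by linarith [hP1 m, hP0 m']
      rw [hTm m m' (by omega) h, hUm m m' (by omega) h]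
      refine ⟨?_, ?_⟩
      · rw [hAlt m h5]
        exact bI_mT_high p h7.le h8.le
      · rcases lt_or_eq_of_le h6 with h9 | h9
        · rw [hAlt m' h9]
          exact bI_mT_low p h7.le h8.le
        · subst h9
          have hmb : m = b := by
            have hcm : col m = col m' := h.2.2.1.symm
            rcases lt_trichotomy m b with h10 | h10 | h10
            · exact absurd (hbc.trans hcm.symm) (h.2.2.2 b h10 hbN)
            · exact h10
            · exact absurd hcm (hbmax m h10 h5)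
          subst hmb
          rw [hAN, hPN]
          exact hαζ
    · subst h5
      subst h6
      rw [hTN, hUN, hAN, hAN1]
      refine ⟨rfl, ?_⟩
      show α (δ.symm t) = α t
      congr 1
      rw [OrderIso.symm_apply_eq, hδt]
  · -- one column
    intro m m₁ l l₁ hm hl hc hml
    rcases hbrick l l₁ hl with ⟨h5, h6⟩ | ⟨h5, h6⟩
    · have h7 : m₁ ≤ l := hm.le hml hc
      have hmN : m ≠ N := by omega
      rw [hTm m m₁ hmN hm, hUm m m₁ hmN hm, hTm l l₁ (by omega) hl, hUm l l₁ (by omega) hl]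
      have h8 : P l < P m := hPa m l hml h5.le
      have h9 : P l₁ < P m₁ := hPa m₁ l₁ (lt_of_le_of_lt h7 hl.1) h6
      have h10 : P m < P l + 1 := by linarith [hP1 m, hP0 l]
      have h11 : P m₁ < P l₁ + 1 := by linarith [hP1 m₁, hP0 l₁]
      obtain ⟨q1, q2⟩ := mT_order (p := p) h8 h9 h10 h11
      obtain ⟨q3, q4⟩ := mU_order (p := p) h8 h9 h10 h11
      exact ⟨q1, q2, q3, q4⟩
    · subst h5
      have hmN : m ≠ l := by omega
      have hmb : m ≤ b := by
        by_contra h
        exact hbmax m (by omega) hml hc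
      have h7 : m₁ ≤ l := hm.le hml hc
      rw [hTN, hUN, hTm m m₁ hmN hm, hUm m m₁ hmN hm]
      have hm1 : P b ≤ P m := by
        rcases lt_or_eq_of_le hmb with h | h
        · exact (hPa m b h hbN.le).le
        · rw [h]
      have hm2 : 0 ≤ P m₁ := hP0 m₁
      have hm3 := hP1 m
      have hm4 := hP1 m₁
      have htζ' : t < mT p 0 (P b) := htζ
      have htκ' : mT p 0 (P b) - 2 * ep p * P b < t := htκ
      have e1 : mT p 0 (P b) = 2 * ep p * P b - ep p := by unfold mT; ring
      have e2 : mU p 0 (P b) = (1 - 2 * ep p) * P b + ep p := by unfold mU; ring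
      have e3 : mT p (P m₁) (P m) = (1 - 2 * ep p) * P m₁ + 2 * ep p * P m - ep p := rfl
      have e4 : mU p (P m₁) (P m) = (1 - 2 * ep p) * P m + 2 * ep p * P m₁ + ep p := rfl
      rw [e1] at htζ' htκ'
      rw [e2] at hUl hUu
      refine ⟨?_, ?_, ?_, ?_⟩
      · rw [e3]
        nlinarith [mul_nonneg (by linarith : (0 : ℝ) ≤ 1 - 2 * ep p) hm2,
          mul_le_mul_of_nonneg_left hm1 he.le]
      · rw [e3]
        nlinarith [mul_lt_mul_of_pos_left hm4 (by linarith : (0 : ℝ) < 1 - 2 * ep p),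
          mul_lt_mul_of_pos_left hm3 he]
      · rw [e4]
        nlinarith [mul_nonneg he.le hm2,
          mul_le_mul_of_nonneg_left hm1 (by linarith : (0 : ℝ) ≤ 1 - 2 * ep p)]
      · rw [e4]
        have hη3 : P m - P b ≤ η := by linarith
        nlinarith [mul_le_mul_of_nonneg_left hη3 (by linarith : (0 : ℝ) ≤ 1 - 2 * ep p),
          mul_lt_mul_of_pos_left hm4 he, mul_pos he hη]
  · -- two columns
    intro m m₁ d d₁ hm hd hc hmd hdm
    have hmN : m ≠ N := by
      rintro rfl
      rcases hbrick m m₁ hm with ⟨h5, _⟩ | ⟨_, h6⟩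
      · exact lt_irrefl _ h5
      · rcases hbrick d d₁ hd with ⟨_, h8⟩ | ⟨h7, _⟩
        · omega
        · rw [h7] at hc; omega
    have hdN : d ≠ N := by
      rintro rfl
      rcases hbrick d d₁ hd with ⟨h5, _⟩ | ⟨_, h6⟩
      · exact lt_irrefl _ h5
      · rcases hbrick m m₁ hm with ⟨_, h8⟩ | ⟨h7, _⟩
        · omega
        · exact hmN h7
    obtain ⟨h5, h6⟩ : m < N ∧ m₁ ≤ N := by
      rcases hbrick m m₁ hm with h | ⟨h, _⟩
      · exact h
      · exact absurd h hmN
    obtain ⟨h7, h8⟩ : d < N ∧ d₁ ≤ N := by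
      rcases hbrick d d₁ hd with h | ⟨h, _⟩
      · exact h
      · exact absurd h hdN
    rw [hTm d d₁ hdN hd, hUm m m₁ hmN hm]
    exact mTU_order (hPa m d₁ hmd h8) (by linarith [hP1 m, hP0 d₁]) (hPa d m₁ hdm h6)
      (by linarith [hP1 d, hP0 m₁])
  · intro x
    rw [thol_congr hAlt, thol_congr hAlt, hAN, hAN1]
    have h := hW x
    show thol col A0 N (col N + 1) k' (α (δ.symm (α.symm (thol col A0 N (col N) k
      ((δ.symm.trans α).symm (α x)))))) = x + s
    have e : (δ.symm.trans α).symm (α x) = δ x := by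
      show δ.symm.symm (α.symm (α x)) = δ x
      rw [OrderIso.symm_apply_apply]; rfl
    rw [e]
    exact h

end Pool.Agent.H.MP_1611f1_gt.PB
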