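import Mathlib

/-! Every positive braid word whose closure is a nontrivial knot can be transformed, by braid
relations, far commutations and cyclic shifts, into a word ending in a square. -/

namespace Pool.Agent.H.MP_1611f1_gt.PB

/-- Positive braid words (letter `i` = the generator `σ_i`) which differ by braid relations, far
commutations and cyclic shifts (conjugation). -/
inductive Conjugate : List ℕ → List ℕ → Prop
  | refl (w : List ℕ) : Conjugate w w
  | symm {w w' : List ℕ} : Conjugate w w' → Conjugate w' w
  | trans {w w' w'' : List ℕ} : Conjugate w w' → Conjugate w' w'' → Conjugate w w''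
  | comm (u v : List ℕ) (i j : ℕ) (h : i + 2 ≤ j) :
      Conjugate (u ++ [i, j] ++ v) (u ++ [j, i] ++ v)
  | braid (u v : List ℕ) (i : ℕ) :
      Conjugate (u ++ [i, i + 1, i] ++ v) (u ++ [i + 1, i, i + 1] ++ v)
  | cyc (u v : List ℕ) : Conjugate (u ++ v) (v ++ u)

/-- the permutation of the strands -/
def perm (w : List ℕ) : Equiv.Perm ℕ := (w.map (fun i => Equiv.swap i (i + 1))).prod

/-- the closure of the word `w` on `n` strands is a knot -/
def IsKnot (n : ℕ) (w : List ℕ) : Prop := (perm w).IsCycleOn {x | x < n}

/-- braid equivalence, without conjugation -/
inductive BEq : List ℕ → List ℕ → Prop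
  | refl (w : List ℕ) : BEq w w
  | symm {w w' : List ℕ} : BEq w w' → BEq w' w
  | trans {w w' w'' : List ℕ} : BEq w w' → BEq w' w'' → BEq w w''
  | comm (u v : List ℕ) (i j : ℕ) (h : i + 2 ≤ j) :
      BEq (u ++ [i, j] ++ v) (u ++ [j, i] ++ v)
  | braid (u v : List ℕ) (i : ℕ) :
      BEq (u ++ [i, i + 1, i] ++ v) (u ++ [i + 1, i, i + 1] ++ v)

theorem BEq.toConj {w w' : List ℕ} (h : BEq w w') : Conjugate w w' := by
  induction h with
  | refl w => exact Conjugate.refl w
  | symm _ ih => exact Conjugate.symm ih
  | trans _ _ ih1 ih2 => exact Conjugate.trans ih1 ih2
  | comm u v i j h => exact Conjugate.comm u v i j h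
  | braid u v i => exact Conjugate.braid u v i

theorem BEq.ctx {w w' : List ℕ} (h : BEq w w') (a b : List ℕ) : BEq (a ++ w ++ b) (a ++ w' ++ b) := by
  induction h with
  | refl w => exact BEq.refl _
  | symm _ ih => exact BEq.symm ih
  | trans _ _ ih1 ih2 => exact BEq.trans ih1 ih2
  | comm u v i j h =>
    have := BEq.comm (a ++ u) (v ++ b) i j h
    simpa [List.append_assoc] using this
  | braid u v i =>
    have := BEq.braid (a ++ u) (v ++ b) i
    simpa [List.append_assoc] using this

theorem BEq.left {w w' : List ℕ} (h : BEq w w') (a : List ℕ) : BEq (a ++ w) (a ++ w') := by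
  have := h.ctx a []
  simpa using this

theorem BEq.right {w w' : List ℕ} (h : BEq w w') (b : List ℕ) : BEq (w ++ b) (w' ++ b) := by
  have := h.ctx [] b
  simpa using this

/-- one letter commutes with a word of far letters -/
theorem BEq.comm_one (k : ℕ) (b : List ℕ) (hb : ∀ x ∈ b, k + 2 ≤ x) : BEq (k :: b) (b ++ [k]) := by
  induction b with
  | nil => exact BEq.refl _
  | cons x b ih =>
    have h1 : BEq (k :: x :: b) (x :: k :: b) := by
      have := BEq.comm [] b k x (hb x (List.mem_cons_self))
      simpa using this
    have h2 : BEq (x :: k :: b) (x :: (b ++ [k])) := by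
      have := (ih (fun y hy => hb y (List.mem_cons_of_mem _ hy))).left [x]
      simpa using this
    exact h1.trans h2

/-- two far words commute -/
theorem BEq.comm_list (a b : List ℕ) (h : ∀ x ∈ a, ∀ y ∈ b, x + 2 ≤ y) : BEq (a ++ b) (b ++ a) := by
  induction a with
  | nil => simpa using BEq.refl b
  | cons x a ih =>
    have h1 : BEq (x :: (a ++ b)) (x :: (b ++ a)) := by
      have := (ih (fun y hy => h y (List.mem_cons_of_mem _ hy))).left [x]
      simpa using this
    have h2 : BEq (x :: (b ++ a)) (b ++ (x :: a)) := by
      have := (BEq.comm_one x b (h x (List.mem_cons_self))).right a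
      simpa using this
    exact h1.trans h2

/-- braid equivalent to a word with a square -/
def Sq (w : List ℕ) : Prop := ∃ u i v, BEq w (u ++ [i, i] ++ v)

theorem Sq.of_beq {w w' : List ℕ} (h : BEq w w') (hs : Sq w') : Sq w := by
  obtain ⟨u, i, v, hu⟩ := hs
  exact ⟨u, i, v, h.trans hu⟩

theorem Sq.ctx {w : List ℕ} (hs : Sq w) (a b : List ℕ) : Sq (a ++ w ++ b) := by
  obtain ⟨u, i, v, hu⟩ := hs
  refine ⟨a ++ u, i, v ++ b, ?_⟩
  have := hu.ctx a b
  simpa [List.append_assoc] using this

/-- normal form of square free words -/
theorem normal_form (m : ℕ) : ∀ d k : ℕ, k + d = m → ∀ w : List ℕ, (∀ x ∈ w, k ≤ x ∧ x < m) →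
    Sq w ∨ ∃ (u : List ℕ) (l : ℕ), (∀ x ∈ u, k + 1 ≤ x ∧ x < m) ∧ k + l ≤ m ∧
      BEq w (u ++ List.range' k l) := by
  intro d
  induction d with
  | zero =>
    intro k hk w hw
    right
    refine ⟨[], 0, by simp, by omega, ?_⟩
    have : w = [] := by
      apply List.eq_nil_iff_forall_not_mem.2
      intro x hx
      have := hw x hx
      omega
    subst this
    simpa using BEq.refl []
  | succ d ih =>
    intro k hk
    have ih' := ih (k + 1) (by omega)
    -- induction on the number of letters k
    have key : ∀ c : ℕ, ∀ w : List ℕ, w.count k = c → (∀ x ∈ w, k ≤ x ∧ x < m) →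
        Sq w ∨ ∃ (u : List ℕ) (l : ℕ), (∀ x ∈ u, k + 1 ≤ x ∧ x < m) ∧ k + l ≤ m ∧
          BEq w (u ++ List.range' k l) := by
      intro c
      induction c with
      | zero =>
        intro w hc hw
        right
        refine ⟨w, 0, ?_, by omega, by simpa using BEq.refl w⟩
        intro x hx
        have h1 := hw x hx
        have h2 : x ≠ k := by
          rintro rfl
          exact (List.count_eq_zero.1 hc) hx
        omega
      | succ c ihc =>
        intro w hc hw
        have hkw : k ∈ w := by
          rw [← List.count_pos_iff]
          omega
        obtain ⟨a, r, hwar, hka⟩ := List.eq_append_cons_of_mem hkw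
        have hr : ∀ x ∈ r, k ≤ x ∧ x < m := fun x hx => hw x (by rw [hwar]; simp [hx])
        have ha : ∀ x ∈ a, k + 1 ≤ x ∧ x < m := by
          intro x hx
          have h1 := hw x (by rw [hwar]; simp [hx])
          have h2 : x ≠ k := by
            rintro rfl
            exact hka hx
          omega
        by_cases hkr : k ∈ r
        · obtain ⟨b, e, hrbe, hkb⟩ := List.eq_append_cons_of_mem hkr
          have hb : ∀ x ∈ b, k + 1 ≤ x ∧ x < m := by
            intro x hx
            have h1 := hr x (by rw [hrbe]; simp [hx])
            have h2 : x ≠ k := by
              rintro rfl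
              exact hkb hx
            omega
          have he : ∀ x ∈ e, k ≤ x ∧ x < m := fun x hx => hr x (by rw [hrbe]; simp [hx])
          have hw' : w = (a ++ [k]) ++ b ++ (k :: e) := by
            rw [hwar, hrbe]; simp
          rcases ih' b hb with hs | ⟨u, l, hu, hl, hbu⟩
          · left
            rw [hw']
            exact hs.ctx _ _
          · have h1 : BEq w ((a ++ [k]) ++ (u ++ List.range' (k + 1) l) ++ (k :: e)) := by
              rw [hw']
              exact hbu.ctx _ _
            rcases Nat.eq_zero_or_pos l with hl0 | hl0
            · subst hl0
              left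
              refine Sq.of_beq h1 ⟨a ++ u, k, e, ?_⟩
              have h2 := (BEq.comm_one k u (fun x hx => (hu x hx).1)).ctx a (k :: e)
              simpa [List.append_assoc] using h2
            · obtain ⟨l', rfl⟩ : ∃ l', l = l' + 1 := ⟨l - 1, by omega⟩
              -- move k to the right over u
              have h2 : BEq ((a ++ [k]) ++ (u ++ List.range' (k + 1) (l' + 1)) ++ (k :: e))
                  (a ++ u ++ [k, k + 1] ++ List.range' (k + 2) l' ++ [k] ++ e) := by
                have h3 := (BEq.comm_one k u (fun x hx => (hu x hx).1)).ctx a
                  (List.range' (k + 1) (l' + 1) ++ (k :: e))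
                simpa [List.append_assoc, List.range'_succ] using h3
              -- move the second k to the left over the range
              have h4 : BEq (a ++ u ++ [k, k + 1] ++ List.range' (k + 2) l' ++ [k] ++ e)
                  (a ++ u ++ [k, k + 1] ++ ([k] ++ List.range' (k + 2) l') ++ e) := by
                have h5 : BEq (k :: List.range' (k + 2) l') (List.range' (k + 2) l' ++ [k]) := by
                  apply BEq.comm_one
                  intro x hx
                  rw [List.mem_range'_1] at hx
                  exact hx.1
                have h6 := (h5.symm).ctx (a ++ u ++ [k, k + 1]) e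
                simpa [List.append_assoc] using h6
              have h7 : BEq (a ++ u ++ [k, k + 1] ++ ([k] ++ List.range' (k + 2) l') ++ e)
                  (a ++ u ++ [k + 1, k, k + 1] ++ List.range' (k + 2) l' ++ e) := by
                have h8 := BEq.braid (a ++ u) (List.range' (k + 2) l' ++ e) k
                simpa [List.append_assoc] using h8
              set w2 := a ++ u ++ [k + 1, k, k + 1] ++ List.range' (k + 2) l' ++ e with hw2
              have hww2 : BEq w w2 := h1.trans (h2.trans (h4.trans h7))
              have hku : k ∉ u := by
                intro h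
                have := hu k h
                omega
              have hkrange : k ∉ List.range' (k + 2) l' := by
                intro h
                rw [List.mem_range'_1] at h
                omega
              have hcount : w2.count k = c := by
                have e1 : w2.count k = e.count k + 1 := by
                  rw [hw2]
                  simp only [List.count_append, List.count_eq_zero.2 hka,
                    List.count_eq_zero.2 hku, List.count_eq_zero.2 hkrange]
                  simp
                  omega
                have e2 : w.count k = e.count k + 2 := by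
                  rw [hw']
                  simp only [List.count_append, List.count_eq_zero.2 hka,
                    List.count_eq_zero.2 hkb]
                  simp
                  omega
                omega
              have hletters : ∀ x ∈ w2, k ≤ x ∧ x < m := by
                intro x hx
                rw [hw2] at hx
                simp only [List.mem_append, List.mem_cons, List.not_mem_nil, or_false,
                  List.mem_range'_1] at hx
                rcases hx with (((hx | hx) | hx) | hx) | hx
                · have := ha x hx; omega
                · have := hu x hx; omega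
                · omega
                · omega
                · exact he x hx
              rcases ihc w2 hcount hletters with hs | ⟨u', l'', hu', hl', hb'⟩
              · exact Or.inl (Sq.of_beq hww2 hs)
              · exact Or.inr ⟨u', l'', hu', hl', hww2.trans hb'⟩
        · -- exactly one letter k
          have hr' : ∀ x ∈ r, k + 1 ≤ x ∧ x < m := by
            intro x hx
            have h1 := hr x hx
            have h2 : x ≠ k := by
              rintro rfl
              exact hkr hx
            omega
          rcases ih' r hr' with hs | ⟨u, l, hu, hl, hbu⟩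
          · left
            rw [hwar]
            have := hs.ctx (a ++ [k]) []
            simpa [List.append_assoc] using this
          · right
            refine ⟨a ++ u, l + 1, ?_, by omega, ?_⟩
            · intro x hx
              rw [List.mem_append] at hx
              rcases hx with hx | hx
              · exact ha x hx
              · have := hu x hx; omega
            · rw [hwar]
              have h1 : BEq (a ++ k :: r) (a ++ k :: (u ++ List.range' (k + 1) l)) := by
                have := hbu.left (a ++ [k])
                simpa [List.append_assoc] using this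
              have h2 : BEq (a ++ k :: (u ++ List.range' (k + 1) l))
                  (a ++ u ++ List.range' k (l + 1)) := by
                have h3 := (BEq.comm_one k u (fun x hx => (hu x hx).1)).ctx a
                  (List.range' (k + 1) l)
                simpa [List.append_assoc, List.range'_succ] using h3
              exact h1.trans h2
    intro w hw
    exact key _ w rfl hw

theorem BEq.length {w w' : List ℕ} (h : BEq w w') : w.length = w'.length := by
  induction h with
  | refl w => rfl
  | symm _ ih => exact ih.symm
  | trans _ _ ih1 ih2 => exact ih1.trans ih2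
  | comm u v i j h => simp
  | braid u v i => simp

theorem Conjugate.length {w w' : List ℕ} (h : Conjugate w w') : w.length = w'.length := by
  induction h with
  | refl w => rfl
  | symm _ ih => exact ih.symm
  | trans _ _ ih1 ih2 => exact ih1.trans ih2
  | comm u v i j h => simp
  | braid u v i => simp
  | cyc u v => simp [Nat.add_comm]

theorem perm_append (u v : List ℕ) : perm (u ++ v) = perm u * perm v := by
  simp [perm]

/-- the words with letters `< m` -/
def Small (m : ℕ) (w : List ℕ) : Prop := ∀ x ∈ w, x < m

theorem Small.append {m : ℕ} {u v : List ℕ} : Small m (u ++ v) ↔ Small m u ∧ Small m v := by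
  simp only [Small, List.mem_append]
  constructor
  · intro h
    exact ⟨fun x hx => h x (Or.inl hx), fun x hx => h x (Or.inr hx)⟩
  · rintro ⟨h1, h2⟩ x (hx | hx)
    · exact h1 x hx
    · exact h2 x hx

theorem swap_comm_far (i j : ℕ) (h : i + 2 ≤ j) :
    Equiv.swap i (i + 1) * Equiv.swap j (j + 1) = Equiv.swap j (j + 1) * Equiv.swap i (i + 1) := by
  have : Equiv.Perm.Disjoint (Equiv.swap i (i + 1)) (Equiv.swap j (j + 1)) := by
    intro x
    by_cases hx : x = i ∨ x = i + 1
    · right
      exact Equiv.swap_apply_of_ne_of_ne (by omega) (by omega)
    · left
      exact Equiv.swap_apply_of_ne_of_ne (by omega) (by omega)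
  exact this.commute.eq

theorem swap_braid (i : ℕ) :
    Equiv.swap i (i + 1) * (Equiv.swap (i + 1) (i + 1 + 1) * Equiv.swap i (i + 1)) =
      Equiv.swap (i + 1) (i + 1 + 1) * (Equiv.swap i (i + 1) * Equiv.swap (i + 1) (i + 1 + 1)) := by
  ext x
  simp only [Equiv.Perm.mul_apply, Equiv.swap_apply_def]
  split_ifs <;> omega

theorem Conjugate.small {m : ℕ} {w w' : List ℕ} (h : Conjugate w w') : Small m w ↔ Small m w' := by
  induction h with
  | refl w => exact Iff.rfl
  | symm _ ih => exact ih.symm
  | trans _ _ ih1 ih2 => exact ih1.trans ih2
  | comm u v i j h =>
    simp only [Small.append]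
    have : Small m [i, j] ↔ Small m [j, i] := by
      simp [Small, and_comm]
    rw [this]
  | braid u v i =>
    simp only [Small.append]
    have : Small m [i, i + 1, i] ↔ Small m [i + 1, i, i + 1] := by
      simp only [Small, List.mem_cons, List.not_mem_nil, or_false]
      constructor
      · intro h x hx
        exact h x (by omega)
      · intro h x hx
        exact h x (by omega)
    rw [this]
  | cyc u v =>
    simp only [Small.append, and_comm]

/-- conjugate words have conjugate permutations, the conjugating permutation preserving the set of
the strands -/
theorem Conjugate.perm_conj {n : ℕ} {w w' : List ℕ} (h : Conjugate w w') (hw : Small (n - 1) w) :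
    ∃ g : Equiv.Perm ℕ, g '' {x | x < n} = {x | x < n} ∧ g * perm w * g⁻¹ = perm w' := by
  have himg : ∀ u : List ℕ, Small (n - 1) u → (perm u) '' {x | x < n} = {x | x < n} := by
    intro u hu
    induction u with
    | nil => simp [perm]
    | cons i u ih =>
      have hi : i < n - 1 := hu i (List.mem_cons_self)
      have ih' := ih (fun x hx => hu x (List.mem_cons_of_mem _ hx))
      have e1 : perm (i :: u) = Equiv.swap i (i + 1) * perm u := by simp [perm]
      rw [e1, Equiv.Perm.coe_mul, Set.image_comp, ih']
      ext y
      simp only [Set.mem_image, Set.mem_ofPred_eq]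
      constructor
      · rintro ⟨x, hx, rfl⟩
        rw [Equiv.swap_apply_def]
        split_ifs <;> omega
      · intro hy
        refine ⟨Equiv.swap i (i + 1) y, ?_, Equiv.swap_apply_self _ _ _⟩
        rw [Equiv.swap_apply_def]
        split_ifs <;> omega
  induction h with
  | refl w => exact ⟨1, by simp, by simp⟩
  | symm h ih =>
    obtain ⟨g, hg1, hg2⟩ := ih (h.small.2 hw)
    refine ⟨g⁻¹, ?_, ?_⟩
    · nth_rewrite 1 [← hg1]
      rw [← Set.image_comp]
      simp
    · rw [← hg2]; group
  | trans h1 h2 ih1 ih2 =>
    obtain ⟨g, hg1, hg2⟩ := ih1 hw
    obtain ⟨g', hg1', hg2'⟩ := ih2 (h1.small.1 hw)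
    refine ⟨g' * g, ?_, ?_⟩
    · rw [Equiv.Perm.coe_mul, Set.image_comp, hg1, hg1']
    · rw [← hg2', ← hg2]; group
  | comm u v i j h =>
    refine ⟨1, by simp, ?_⟩
    rw [perm_append, perm_append, perm_append, perm_append]
    have : perm [i, j] = perm [j, i] := by
      simp only [perm, List.map_cons, List.map_nil, List.prod_cons, List.prod_nil, mul_one]
      exact swap_comm_far i j h
    rw [this]; group
  | braid u v i =>
    refine ⟨1, by simp, ?_⟩
    rw [perm_append, perm_append, perm_append, perm_append]
    have : perm [i, i + 1, i] = perm [i + 1, i, i + 1] := by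
      simp only [perm, List.map_cons, List.map_nil, List.prod_cons, List.prod_nil, mul_one]
      exact swap_braid i
    rw [this]; group
  | cyc u v =>
    rw [Small.append] at hw
    refine ⟨(perm u)⁻¹, ?_, ?_⟩
    · have h1 := himg u hw.1
      nth_rewrite 1 [← h1]
      rw [← Set.image_comp]
      simp
    · rw [perm_append, perm_append]; group

theorem Conjugate.isKnot {n : ℕ} {w w' : List ℕ} (h : Conjugate w w') (hw : Small (n - 1) w)
    (hk : IsKnot n w) : IsKnot n w' := by
  obtain ⟨g, hg1, hg2⟩ := h.perm_conj hw
  have h1 := Equiv.Perm.IsCycleOn.conj (g := g) hk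
  rw [hg1, hg2] at h1
  exact h1

/-- every letter occurs in a word whose closure is a knot -/
theorem IsKnot.letter {n : ℕ} {w : List ℕ} (hk : IsKnot n w) (k : ℕ) (hkn : k + 1 < n) : k ∈ w := by
  by_contra hno
  have hpres : ∀ u : List ℕ, k ∉ u → ∀ x, x ≤ k ↔ perm u x ≤ k := by
    intro u
    induction u with
    | nil => intro _ x; simp [perm]
    | cons i u ih =>
      intro hu x
      rw [List.mem_cons, not_or] at hu
      have e1 : perm (i :: u) = Equiv.swap i (i + 1) * perm u := by simp [perm]
      rw [e1, Equiv.Perm.mul_apply, ih hu.2 x, Equiv.swap_apply_def]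
      split_ifs <;> omega
  have h1 := hpres w hno
  obtain ⟨j, hj⟩ := hk.2 (show (0 : ℕ) ∈ {x | x < n} by simp; omega)
    (show k + 1 ∈ {x | x < n} by simpa using hkn)
  have h2 : ∀ j : ℕ, ∀ x, x ≤ k ↔ (perm w ^ j) x ≤ k := by
    intro j
    induction j with
    | zero => intro x; simp
    | succ j ih =>
      intro x
      rw [pow_succ, Equiv.Perm.mul_apply, h1 x]
      exact ih _
  have h3 : ∀ j : ℤ, ∀ x, x ≤ k ↔ (perm w ^ j) x ≤ k := by
    intro j x
    rcases j with j | j
    · simpa using h2 j x
    · rw [zpow_negSucc]
      have := h2 (j + 1) ((perm w ^ (j + 1))⁻¹ x)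
      rw [← Equiv.Perm.mul_apply, mul_inv_cancel, Equiv.Perm.one_apply] at this
      exact this.symm
  have h4 := (h3 j 0).1 (Nat.zero_le _)
  rw [hj] at h4
  omega

/-- **Squares.** A positive braid word on `n` strands whose closure is a knot and whose length is
at least `n` can be transformed, by braid relations, far commutations and cyclic shifts, into a word
which ends in a square. -/
theorem exists_square (n : ℕ) (hn : 0 < n) (w : List ℕ) (hw : ∀ x ∈ w, x + 1 < n) (hk : IsKnot n w)
    (hlen : n ≤ w.length) : ∃ (u : List ℕ) (i : ℕ), Conjugate w (u ++ [i, i]) := by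
  by_contra hcon
  push Not at hcon
  have hnosq : ∀ w' : List ℕ, Conjugate w w' → ∀ u i v, w' ≠ u ++ [i, i] ++ v := by
    rintro w' hw' u i v rfl
    apply hcon (v ++ u) i
    have := Conjugate.cyc (u ++ [i, i]) v
    have h2 := hw'.trans this
    simpa [List.append_assoc] using h2
  set m := n - 1 with hm
  have hsmall : Small m w := fun x hx => by have := hw x hx; omega
  have step : ∀ k : ℕ, k ≤ m → ∃ z : List ℕ, (∀ x ∈ z, k ≤ x ∧ x < m) ∧
      Conjugate w (z ++ List.range' 0 k) := by
    intro k
    induction k with
    | zero =>
      intro _
      exact ⟨w, fun x hx => ⟨Nat.zero_le _, hsmall x hx⟩, by simpa using Conjugate.refl w⟩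
    | succ k ih =>
      intro hkm
      obtain ⟨z, hz, hcz⟩ := ih (by omega)
      rcases normal_form m (m - k) k (by omega) z hz with ⟨u, i, v, hs⟩ | ⟨u, l, hu, hl, hzu⟩
      · exfalso
        have h1 := (hs.right (List.range' 0 k)).toConj
        exact hnosq _ (hcz.trans h1) u i (v ++ List.range' 0 k) (by simp [List.append_assoc])
      · have h1 : Conjugate w (u ++ List.range' k l ++ List.range' 0 k) :=
          hcz.trans (hzu.right (List.range' 0 k)).toConj
        rcases Nat.eq_zero_or_pos l with hl0 | hl0
        · exfalso
          subst hl0
          have h2 := (h1.isKnot hsmall hk).letter k (by omega)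
          simp only [List.range'_zero, List.append_nil, List.mem_append, List.mem_range'_1] at h2
          rcases h2 with h2 | h2
          · have := hu k h2; omega
          · omega
        · obtain ⟨l', rfl⟩ : ∃ l', l = l' + 1 := ⟨l - 1, by omega⟩
          refine ⟨List.range' (k + 1) l' ++ u, ?_, ?_⟩
          · intro x hx
            rw [List.mem_append, List.mem_range'_1] at hx
            rcases hx with hx | hx
            · omega
            · exact hu x hx
          · -- u k (k+1 .. ) (0 .. k-1) ~ u k (0 .. k-1) (k+1 ..)
            have h2 : BEq (u ++ List.range' k (l' + 1) ++ List.range' 0 k)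
                (u ++ [k] ++ List.range' 0 k ++ List.range' (k + 1) l') := by
              have h3 : BEq (List.range' 0 k ++ List.range' (k + 1) l')
                  (List.range' (k + 1) l' ++ List.range' 0 k) := by
                apply BEq.comm_list
                intro x hx y hy
                rw [List.mem_range'_1] at hx hy
                omega
              have h4 := h3.symm.left (u ++ [k])
              simpa [List.append_assoc, List.range'_succ] using h4
            have h5 : Conjugate (u ++ [k] ++ List.range' 0 k ++ List.range' (k + 1) l')
                (List.range' (k + 1) l' ++ (u ++ [k] ++ List.range' 0 k)) :=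
              Conjugate.cyc _ _
            have h6 : Conjugate (List.range' (k + 1) l' ++ (u ++ [k] ++ List.range' 0 k))
                (List.range' 0 k ++ (List.range' (k + 1) l' ++ u ++ [k])) := by
              have := Conjugate.cyc (List.range' (k + 1) l' ++ u ++ [k]) (List.range' 0 k)
              simpa [List.append_assoc] using this
            have h7 : BEq (List.range' 0 k ++ (List.range' (k + 1) l' ++ u ++ [k]))
                (List.range' (k + 1) l' ++ u ++ List.range' 0 (k + 1)) := by
              have h8 : BEq (List.range' 0 k ++ (List.range' (k + 1) l' ++ u))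
                  (List.range' (k + 1) l' ++ u ++ List.range' 0 k) := by
                apply BEq.comm_list
                intro x hx y hy
                rw [List.mem_range'_1] at hx
                rw [List.mem_append, List.mem_range'_1] at hy
                rcases hy with hy | hy
                · omega
                · have := hu y hy; omega
              have h9 := h8.right [k]
              have e1 : List.range' 0 (k + 1) = List.range' 0 k ++ [k] := by
                rw [List.range'_concat]; simp
              rw [e1]
              simpa [List.append_assoc] using h9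
            exact h1.trans (h2.toConj.trans (h5.trans (h6.trans h7.toConj)))
  obtain ⟨z, hz, hcz⟩ := step m le_rfl
  have hz0 : z = [] := by
    apply List.eq_nil_iff_forall_not_mem.2
    intro x hx
    have := hz x hx
    omega
  have h1 := hcz.length
  rw [hz0] at h1
  simp at h1
  omega

end Pool.Agent.H.MP_1611f1_gt.PB
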