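import Pool.Agent.H.MP_1611f1_gt.PB.ZCont

/-!
The staircase and the maps with exactly two fixed orbits (section 4 of h49_1611f1_PB.md).
-/

namespace Pool.Agent.H.MP_1611f1_gt.PB

open Set Filter Topology

/-- SELECTION of the step `ψ` and of the mark `U'`. PROOF: `lo = min ρ₁ ρ₂`, `hi = max ρ₁ ρ₂`, choose
the integer `M` with `lo + M ≤ υ < lo + M + 1`. If `hi + M < υ`: take `U'` with
`max (hi + M) (υ - ell) < U' < υ` and `ψ` with `hi + M < ψ < U'`, `N' = M + 1`. Otherwise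
`lo + M ≤ υ ≤ hi + M`: take `U'` with `max (υ - ell) (hi + M - 1) < U' < lo + M`
and `ψ` with `hi + M - 1 < ψ < U'`, `ψ + 1 > υ` (choose `ψ > υ - 1` as well), `N' = M`. -/
theorem exists_select {ρ₁ ρ₂ υ η ell : ℝ} (hρ : |ρ₂ - ρ₁| ≤ η) (hell : η < ell) (hell1 : ell ≤ 1) :
    ∃ (ψ U' : ℝ) (N' : ℤ), ψ < U' ∧ U' < υ ∧ υ < ψ + 1 ∧ υ - ell < U' ∧
      U' < ρ₁ + N' ∧ ρ₁ + N' < ψ + 1 ∧ U' < ρ₂ + N' ∧ ρ₂ + N' < ψ + 1 := by
  obtain ⟨lo, hlo⟩ : ∃ lo, lo = min ρ₁ ρ₂ := ⟨_, rfl⟩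
  obtain ⟨hi, hhi⟩ : ∃ hi, hi = max ρ₁ ρ₂ := ⟨_, rfl⟩
  have l1 : lo ≤ ρ₁ := hlo ▸ min_le_left _ _
  have l2 : lo ≤ ρ₂ := hlo ▸ min_le_right _ _
  have g1 : ρ₁ ≤ hi := hhi ▸ le_max_left _ _
  have g2 : ρ₂ ≤ hi := hhi ▸ le_max_right _ _
  have hd : hi - lo ≤ η := by
    rw [abs_le] at hρ
    rcases le_total ρ₁ ρ₂ with h | h
    · rw [hlo, hhi, min_eq_left h, max_eq_right h]
      exact hρ.2
    · rw [hlo, hhi, min_eq_right h, max_eq_left h]
      linarith [hρ.1]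
  obtain ⟨M, hM⟩ : ∃ M : ℤ, M = ⌊υ - lo⌋ := ⟨_, rfl⟩
  have m1 := Int.floor_le (υ - lo)
  have m2 := Int.lt_floor_add_one (υ - lo)
  rw [← hM] at m1 m2
  rcases lt_or_ge (hi + M) υ with h | h
  · obtain ⟨U', u1, u2⟩ := exists_between (max_lt h (by linarith : υ - ell < υ))
    have u3 := (le_max_left _ _).trans_lt u1
    have u4 := (le_max_right _ _).trans_lt u1
    obtain ⟨ψ, p1, p2⟩ := exists_between u3
    refine ⟨ψ, U', M + 1, p2, u2, ?_, u4, ?_, ?_, ?_, ?_⟩ <;> (try push_cast) <;> linarith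
  · have h1 : max (υ - ell) (hi + M - 1) < lo + M := max_lt (by linarith) (by linarith)
    obtain ⟨U', u1, u2⟩ := exists_between h1
    have u3 := (le_max_left _ _).trans_lt u1
    have u4 := (le_max_right _ _).trans_lt u1
    obtain ⟨ψ, p1, p2⟩ := exists_between (max_lt u4 (by linarith : υ - 1 < U'))
    have p3 := (le_max_left _ _).trans_lt p1
    have p4 := (le_max_right _ _).trans_lt p1
    refine ⟨ψ, U', M, p2, ?_, ?_, u3, ?_, ?_, ?_, ?_⟩ <;> linarith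

/-- the breakpoints of the staircase -/
noncomputable def stX (ψ μ : ℝ) (n : ℤ) : ℝ :=
  if n % 2 = 0 then ψ + (n / 2 : ℤ) - μ else ψ + (n / 2 : ℤ) + μ

/-- the values of the staircase at the breakpoints -/
noncomputable def stY (ψ μ ζ υ : ℝ) (n : ℤ) : ℝ :=
  if n % 2 = 0 then ζ + (n / 2 : ℤ) - 1 + μ * (ψ + 1 - μ - υ) else
    ζ + (n / 2 : ℤ) + μ * (ψ + μ - υ)

/-- THE STAIRCASE `β = α⁻¹`: slope `μ` on `[ψ + μ, ψ + 1 - μ]` with `β υ = ζ`, slope `≥ (1 - μ) / (2 μ)`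
on `[ψ - μ, ψ + μ]`. CONSTRUCTION: `β = (plIso stX).symm.trans (plIso stY)`, where `plIso` is the piecewise
linear isomorphism of `G2/PlA.lean` (period `2`, `La = 1`). -/
theorem exists_stair {ψ ζ υ μ : ℝ} (hμ : 0 < μ) (hμ1 : μ < 1 / 4) (h1 : ψ + μ < υ)
    (h2 : υ < ψ + 1 - μ) :
    ∃ β : ℝ ≃o ℝ, (∀ x, β (x + 1) = β x + 1) ∧ β υ = ζ ∧
      (∀ x ∈ Icc (ψ + μ) (ψ + 1 - μ), β x = ζ + μ * (x - υ)) ∧
      (∀ x ∈ Icc (ψ - μ) (ψ + μ), ∀ y ∈ Icc (ψ - μ) (ψ + μ), x ≤ y →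
        (1 - μ) / (2 * μ) * (y - x) ≤ β y - β x) := by
  have hX : ∀ n, stX ψ μ n < stX ψ μ (n + 1) := by
    intro n
    rcases Int.even_or_odd n with ⟨k, hk⟩ | ⟨k, hk⟩
    · rw [stX, stX, if_pos (by omega), if_neg (by omega), show n / 2 = k by omega,
        show (n + 1) / 2 = k by omega]
      linarith
    · rw [stX, stX, if_neg (by omega), if_pos (by omega), show n / 2 = k by omega,
        show (n + 1) / 2 = k + 1 by omega]
      push_cast
      linarith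
  have hY : ∀ n, stY ψ μ ζ υ n < stY ψ μ ζ υ (n + 1) := by
    intro n
    rcases Int.even_or_odd n with ⟨k, hk⟩ | ⟨k, hk⟩
    · rw [stY, stY, if_pos (by omega), if_neg (by omega), show n / 2 = k by omega,
        show (n + 1) / 2 = k by omega]
      nlinarith [mul_pos hμ hμ]
    · rw [stY, stY, if_neg (by omega), if_pos (by omega), show n / 2 = k by omega,
        show (n + 1) / 2 = k + 1 by omega]
      push_cast
      nlinarith [mul_pos hμ (by linarith : (0 : ℝ) < 1 - 2 * μ)]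
  have pX : ∀ n, stX ψ μ (n + 2) = stX ψ μ n + 1 := by
    intro n
    rw [stX, stX, show (n + 2) % 2 = n % 2 by omega, show (n + 2) / 2 = n / 2 + 1 by omega]
    push_cast
    split_ifs <;> ring
  have pY : ∀ n, stY ψ μ ζ υ (n + 2) = stY ψ μ ζ υ n + 1 := by
    intro n
    rw [stY, stY, show (n + 2) % 2 = n % 2 by omega, show (n + 2) / 2 = n / 2 + 1 by omega]
    push_cast
    split_ifs <;> ring
  obtain ⟨eX, heX⟩ : ∃ e : ℝ ≃o ℝ, ∀ x, e x = plf (stX ψ μ) x :=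
    ⟨plIso (stX ψ μ) hX 2 (by norm_num) 1 pX, fun x => rfl⟩
  obtain ⟨eY, heY⟩ : ∃ e : ℝ ≃o ℝ, ∀ x, e x = plf (stY ψ μ ζ υ) x :=
    ⟨plIso (stY ψ μ ζ υ) hY 2 (by norm_num) 1 pY, fun x => rfl⟩
  have key : ∀ x y, eX y = x → (eX.symm.trans eY) x = plf (stY ψ μ ζ υ) y := by
    intro x y h
    rw [OrderIso.trans_apply, ← h, OrderIso.symm_apply_apply, heY]
  have sX0 : stX ψ μ 0 = ψ - μ := by simp [stX]
  have sX1 : stX ψ μ 1 = ψ + μ := by simp [stX]
  have sX2 : stX ψ μ 2 = ψ + 1 - μ := by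
    have := pX 0
    rw [zero_add, sX0] at this
    linarith
  have sY0 : stY ψ μ ζ υ 0 = ζ - 1 + μ * (ψ + 1 - μ - υ) := by simp [stY]
  have sY1 : stY ψ μ ζ υ 1 = ζ + μ * (ψ + μ - υ) := by simp [stY]
  have sY2 : stY ψ μ ζ υ 2 = ζ + μ * (ψ + 1 - μ - υ) := by
    have := pY 0
    rw [zero_add, sY0] at this
    linarith
  have flat : ∀ x ∈ Icc (ψ + μ) (ψ + 1 - μ), (eX.symm.trans eY) x = ζ + μ * (x - υ) := by
    intro x hx
    have h0 : (0 : ℝ) < 1 - 2 * μ := by linarith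
    have hu : (x - ψ - μ) / (1 - 2 * μ) ∈ Icc (0 : ℝ) 1 :=
      ⟨div_nonneg (by linarith [hx.1]) h0.le, (div_le_one h0).2 (by linarith [hx.2])⟩
    have h3 := plf_add (stX ψ μ) 1 _ hu
    have h4 := plf_add (stY ψ μ ζ υ) 1 _ hu
    rw [show (1 : ℤ) + 1 = 2 by norm_num, sX1, sX2] at h3
    rw [show (1 : ℤ) + 1 = 2 by norm_num, sY1, sY2] at h4
    have hq : (x - ψ - μ) / (1 - 2 * μ) * (1 - 2 * μ) = x - ψ - μ := div_mul_cancel₀ _ h0.ne'
    have h5 : eX (((1 : ℤ) : ℝ) + (x - ψ - μ) / (1 - 2 * μ)) = x := by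
      rw [heX, h3]
      linear_combination hq
    rw [key _ _ h5, h4]
    linear_combination μ * hq
  refine ⟨eX.symm.trans eY, ?_, ?_, flat, ?_⟩
  · intro x
    obtain ⟨y, hy⟩ := eX.surjective x
    have h3 : eX (y + 2) = x + 1 := by
      have := plf_shift pX y
      push_cast at this
      rw [heX, this, ← heX, hy]
    rw [key _ _ h3, key _ _ hy]
    have := plf_shift pY y
    push_cast at this
    exact this
  · rw [flat υ ⟨h1.le, h2.le⟩]
    ring
  · have steep : ∀ x ∈ Icc (ψ - μ) (ψ + μ), (eX.symm.trans eY) x =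
        ζ - 1 + μ * (ψ + 1 - μ - υ) + (1 - μ + 2 * μ ^ 2) * ((x - ψ + μ) / (2 * μ)) := by
      intro x hx
      have h0 : (0 : ℝ) < 2 * μ := by linarith
      have hu : (x - ψ + μ) / (2 * μ) ∈ Icc (0 : ℝ) 1 :=
        ⟨div_nonneg (by linarith [hx.1]) h0.le, (div_le_one h0).2 (by linarith [hx.2])⟩
      have h3 := plf_add (stX ψ μ) 0 _ hu
      have h4 := plf_add (stY ψ μ ζ υ) 0 _ hu
      rw [zero_add, sX0, sX1] at h3
      rw [zero_add, sY0, sY1] at h4
      have h5 : eX (((0 : ℤ) : ℝ) + (x - ψ + μ) / (2 * μ)) = x := by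
        rw [heX, h3]
        field_simp
        ring
      rw [key _ _ h5, h4]
      ring
    intro x hx y hy hxy
    rw [steep x hx, steep y hy]
    have h0 : (0 : ℝ) < 2 * μ := by linarith
    have h6 : (1 - μ) / (2 * μ) * (y - x) = (1 - μ) * ((y - x) / (2 * μ)) := by ring
    have h7 : (y - ψ + μ) / (2 * μ) - (x - ψ + μ) / (2 * μ) = (y - x) / (2 * μ) := by ring
    have h8 : 0 ≤ (y - x) / (2 * μ) := div_nonneg (by linarith) h0.le
    have h9 : (1 - μ) * ((y - x) / (2 * μ)) ≤ (1 - μ + 2 * μ ^ 2) * ((y - x) / (2 * μ)) :=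
      mul_le_mul_of_nonneg_right (by nlinarith [sq_nonneg μ]) h8
    rw [h6]
    calc (1 - μ) * ((y - x) / (2 * μ)) ≤ (1 - μ + 2 * μ ^ 2) * ((y - x) / (2 * μ)) := h9
      _ = _ := by rw [← h7]; ring

/-- A map whose displacement is strictly increasing on `[xl, xh]`, strictly decreasing on
`[xh, xl + 1]`, negative at `xl` and positive at `xh`, has exactly one repelling and one attracting
fixed orbit. `t` is a point with positive displacement. PROOF: intermediate value theorem on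
the two arcs, uniqueness by strict monotonicity of the displacement. -/
theorem two_fixed {F : ℝ ≃o ℝ} (hF : ∀ x, F (x + 1) = F x + 1) {xl xh : ℝ} (h1 : xl < xh)
    (h2 : xh < xl + 1) (hinc : StrictMonoOn (fun x => F x - x) (Icc xl xh))
    (hdec : StrictAntiOn (fun x => F x - x) (Icc xh (xl + 1))) (hl : F xl < xl) (hh : xh < F xh)
    {t : ℝ} (ht : t ∈ Ioo xl (xl + 1)) (hFt : t < F t) :
    ∃ r a : ℝ, r < t ∧ t < a ∧ a < r + 1 ∧ F r = r ∧ F a = a ∧ (∀ x ∈ Ioo r a, x < F x) ∧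
      ∀ x ∈ Ioo a (r + 1), F x < x := by
  have hc : Continuous fun x => F x - x := F.continuous.sub continuous_id
  obtain ⟨r, hr, hr0⟩ := intermediate_value_Ioo h1.le hc.continuousOn
    (show (0 : ℝ) ∈ Ioo (F xl - xl) (F xh - xh) from ⟨by linarith, by linarith⟩)
  obtain ⟨a, ha, ha0⟩ := intermediate_value_Ioo' h2.le hc.continuousOn
    (show (0 : ℝ) ∈ Ioo (F (xl + 1) - (xl + 1)) (F xh - xh) from
      ⟨by rw [hF]; linarith, by linarith⟩)
  have hr1 : F r - r = 0 := hr0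
  have ha1 : F a - a = 0 := ha0
  have pos : ∀ x ∈ Ioo r a, x < F x := by
    intro x hx
    rcases le_total x xh with h | h
    · have h3 : F r - r < F x - x := hinc ⟨hr.1.le, hr.2.le⟩ ⟨(hr.1.trans hx.1).le, h⟩ hx.1
      linarith
    · have h3 : F a - a < F x - x := hdec ⟨h, (hx.2.trans ha.2).le⟩ ⟨ha.1.le, ha.2.le⟩ hx.2
      linarith
  have neg1 : ∀ x ∈ Ioc a (xl + 1), F x < x := by
    intro x hx
    have h3 : F x - x < F a - a := hdec ⟨ha.1.le, ha.2.le⟩ ⟨(ha.1.trans hx.1).le, hx.2⟩ hx.1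
    linarith
  have neg2 : ∀ x ∈ Ico xl r, F x < x := by
    intro x hx
    have h3 : F x - x < F r - r := hinc ⟨hx.1, (hx.2.trans hr.2).le⟩ ⟨hr.1.le, hr.2.le⟩ hx.2
    linarith
  refine ⟨r, a, ?_, ?_, ?_, by linarith, by linarith, pos, ?_⟩
  · by_contra hcon
    rcases (not_lt.1 hcon).eq_or_lt with h | h
    · rw [h] at hFt
      linarith
    · exact lt_asymm hFt (neg2 t ⟨ht.1.le, h⟩)
  · by_contra hcon
    rcases (not_lt.1 hcon).eq_or_lt with h | h
    · rw [← h] at hFt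
      linarith
    · exact lt_asymm hFt (neg1 t ⟨h, ht.2.le⟩)
  · linarith [ha.2, hr.1]
  · intro x hx
    rcases le_or_gt x (xl + 1) with h | h
    · exact neg1 x ⟨hx.1, h⟩
    · have h3 := neg2 (x - 1) ⟨by linarith, by linarith [hx.2]⟩
      have h4 := hF (x - 1)
      rw [sub_add_cancel] at h4
      linarith

/-- the composition of a bi-Lipschitz map with a steep staircase. `R ζ + N'` is in the open flat
interval; for all small `μ`. PROOF: `xl`, `xh` are the points with `R xl + N' = ψ - μ`,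
`R xh + N' = ψ + μ`. On `[xh, xl+1]` the map `F` has difference quotients `≤ μ M < 1`, on `[xl, xh]` they are
`≥ (1-μ)/(2 μ M) > 1`. `F xh = ζ + μ (ψ + μ - υ) > xh` and `F xl = ζ - 1 + μ (ψ + 1 - μ - υ) < xl`
for small `μ` because `R ζ + N'` is in the open interval (use `BL M R`: e.g.
`ζ - xh ≥ (R ζ + N' - ψ - μ) / M`). Apply `two_fixed`. It is enough to prove this for one explicit
bound for `μ`, e.g. `μ ≤ d / (4 M)` and `μ ≤ 1 / (8 M)` where `d ≤ 1` is a lower bound for the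
distances of `R ζ + N'` to `U'` (hence to `ψ`) and to `ψ + 1`. -/
theorem stair_two {ψ ζ υ μ d M U' : ℝ} {β R : ℝ ≃o ℝ} {N' : ℤ} (hβ : ∀ x, β (x + 1) = β x + 1)
    (hβ1 : ∀ x ∈ Icc (ψ + μ) (ψ + 1 - μ), β x = ζ + μ * (x - υ))
    (hβ2 : ∀ x ∈ Icc (ψ - μ) (ψ + μ), ∀ y ∈ Icc (ψ - μ) (ψ + μ), x ≤ y →
        (1 - μ) / (2 * μ) * (y - x) ≤ β y - β x)
    (hR : ∀ x, R (x + 1) = R x + 1) (hM : 1 ≤ M) (hRM : BL M R) (hd : 0 < d) (hd1 : d ≤ 1)
    (hμ : 0 < μ) (hμ1 : μ ≤ d / (8 * M)) (hU1 : ψ + d ≤ U') (hU2 : U' + d ≤ υ) (hυ : υ + d ≤ ψ + 1)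
    (hρ1 : U' + d ≤ R ζ + N') (hρ2 : R ζ + N' + d ≤ ψ + 1) :
    ∃ r a : ℝ, r < β U' ∧ β U' < a ∧ a < r + 1 ∧ β (R r + N') = r ∧ β (R a + N') = a ∧
      (∀ x ∈ Ioo r a, x < β (R x + N')) ∧ ∀ x ∈ Ioo a (r + 1), β (R x + N') < x := by
  have hM0 : 0 < M := by linarith
  have hμM : μ * M ≤ d / 8 := by
    have h : d / (8 * M) * M = d / 8 := by field_simp
    rw [← h]
    exact mul_le_mul_of_nonneg_right hμ1 hM0.le
  have hμd : μ ≤ d / 8 := by nlinarith
  have hμM1 : μ * M ≤ 1 / 8 := by linarith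
  obtain ⟨F, hFd⟩ : ∃ F : ℝ ≃o ℝ, ∀ x, F x = β (R x + N') :=
    ⟨(R.trans (OrderIso.addRight (N' : ℝ))).trans β, fun x => rfl⟩
  have hF : ∀ x, F (x + 1) = F x + 1 := by
    intro x
    rw [hFd, hFd, hR, show R x + 1 + (N' : ℝ) = R x + N' + 1 by ring, hβ]
  obtain ⟨xl, hxl⟩ : ∃ xl, R xl = ψ - μ - N' := R.surjective _
  obtain ⟨xh, hxh⟩ : ∃ xh, R xh = ψ + μ - N' := R.surjective _
  have hxl1 : R (xl + 1) + N' = ψ + 1 - μ := by rw [hR, hxl]; ring
  have e1 : xl < xh := by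
    rw [← R.lt_iff_lt, hxl, hxh]
    linarith
  have e2 : xh < xl + 1 := by
    rw [← R.lt_iff_lt, hxh]
    linarith
  -- the point ζ
  have z1 : xh < ζ := by
    rw [← R.lt_iff_lt, hxh]
    linarith
  have z2 : ζ < xl + 1 := by
    rw [← R.lt_iff_lt]
    linarith
  have z3 : R ζ - R xh ≤ M * (ζ - xh) := (hRM xh ζ z1.le).2
  have z4 : R (xl + 1) - R ζ ≤ M * (xl + 1 - ζ) := (hRM ζ (xl + 1) z2.le).2
  have hU' : U' ∈ Icc (ψ + μ) (ψ + 1 - μ) := ⟨by linarith, by linarith⟩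
  have ht : β U' = ζ + μ * (U' - υ) := hβ1 U' hU'
  have ht1 : β U' < ζ := by
    rw [ht]
    nlinarith
  have ht2 : ζ - β U' ≤ μ := by
    rw [ht]
    nlinarith
  have ht3 : U' < R (β U') + N' := by
    have h3 := (hRM (β U') ζ ht1.le).2
    have h4 : M * (ζ - β U') ≤ M * μ := mul_le_mul_of_nonneg_left ht2 hM0.le
    nlinarith
  have inc : StrictMonoOn (fun x => F x - x) (Icc xl xh) := by
    intro x hx y hy hxy
    have h3 : R x + N' ∈ Icc (ψ - μ) (ψ + μ) := by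
      have h4 := R.monotone hx.1
      have h5 := R.monotone hx.2
      constructor <;> linarith
    have h3' : R y + N' ∈ Icc (ψ - μ) (ψ + μ) := by
      have h4 := R.monotone hy.1
      have h5 := R.monotone hy.2
      constructor <;> linarith
    have h6 := R.strictMono hxy
    have h7 := hβ2 _ h3 _ h3' (by linarith)
    have h8 := (hRM x y hxy.le).1
    have h9 : (y - x) < (1 - μ) / (2 * μ) * (R y + N' - (R x + N')) := by
      have h10 : R y + N' - (R x + N') = R y - R x := by ring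
      rw [h10, div_mul_eq_mul_div, lt_div_iff₀ (by linarith)]
      have h11 : (y - x) * (2 * μ) ≤ M * (R y - R x) * (2 * μ) :=
        mul_le_mul_of_nonneg_right h8 (by linarith)
      have h12 : M * (R y - R x) * (2 * μ) = 2 * (μ * M) * (R y - R x) := by ring
      have h13 : 2 * (μ * M) * (R y - R x) < (1 - μ) * (R y - R x) :=
        mul_lt_mul_of_pos_right (by linarith) (by linarith)
      linarith
    show F x - x < F y - y
    rw [hFd, hFd]
    linarith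
  have dec : StrictAntiOn (fun x => F x - x) (Icc xh (xl + 1)) := by
    intro x hx y hy hxy
    have h3 : R x + N' ∈ Icc (ψ + μ) (ψ + 1 - μ) := by
      have h4 := R.monotone hx.1
      have h5 := R.monotone hx.2
      constructor <;> linarith
    have h3' : R y + N' ∈ Icc (ψ + μ) (ψ + 1 - μ) := by
      have h4 := R.monotone hy.1
      have h5 := R.monotone hy.2
      constructor <;> linarith
    have h8 := (hRM x y hxy.le).2
    have h9 : μ * (R y - R x) ≤ μ * (M * (y - x)) := mul_le_mul_of_nonneg_left h8 hμ.le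
    have h10 : μ * (M * (y - x)) = μ * M * (y - x) := by ring
    have h11 : μ * M * (y - x) < 1 * (y - x) :=
      mul_lt_mul_of_pos_right (by linarith) (by linarith)
    show F y - y < F x - x
    rw [hFd, hFd, hβ1 _ h3, hβ1 _ h3']
    have h12 : μ * (R y + N' - υ) - μ * (R x + N' - υ) = μ * (R y - R x) := by ring
    linarith
  have hh : xh < F xh := by
    rw [hFd, hxh, sub_add_cancel, hβ1 (ψ + μ) ⟨le_rfl, by linarith⟩]
    have h3 : d < M * (ζ - xh) := by linarith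
    have h4 : μ * (υ - ψ - μ) ≤ μ * 1 := mul_le_mul_of_nonneg_left (by linarith) hμ.le
    have h5 : M * μ < M * (ζ - xh) := by nlinarith
    have h6 : μ < ζ - xh := lt_of_mul_lt_mul_left h5 hM0.le
    nlinarith
  have hl : F xl < xl := by
    have h0 := hF xl
    rw [hFd (xl + 1), hxl1, hβ1 (ψ + 1 - μ) ⟨by linarith, le_rfl⟩] at h0
    have h3 : d - μ ≤ M * (xl + 1 - ζ) := by linarith
    have h4 : μ * (ψ + 1 - μ - υ) ≤ μ * 1 := mul_le_mul_of_nonneg_left (by linarith) hμ.le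
    have h5 : M * μ < M * (xl + 1 - ζ) := by nlinarith
    have h6 : μ < xl + 1 - ζ := lt_of_mul_lt_mul_left h5 hM0.le
    linarith
  have htm : β U' ∈ Ioo xl (xl + 1) := by
    refine ⟨?_, ht1.trans z2⟩
    rw [← R.lt_iff_lt, hxl]
    linarith
  have hFt : β U' < F (β U') := by
    rw [hFd]
    exact β.strictMono ht3
  obtain ⟨r, a, c1, c2, c3, c4, c5, c6, c7⟩ := two_fixed hF e1 e2 inc dec hl hh htm hFt
  refine ⟨r, a, c1, c2, c3, ?_, ?_, ?_, ?_⟩
  · rw [← hFd, c4]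
  · rw [← hFd, c5]
  · intro x hx
    rw [← hFd]
    exact c6 x hx
  · intro x hx
    rw [← hFd]
    exact c7 x hx

end Pool.Agent.H.MP_1611f1_gt.PB
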