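import Pool.Agent.H.MP_1611f1_gt.PB.Zed

/-!
Joint continuity and the Lipschitz properties of the band maps.
-/

namespace Pool.Agent.H.MP_1611f1_gt.PB

open Set Filter Topology

theorem plf_mono {S : ℤ → ℝ} (hS : ∀ n, S n ≤ S (n + 1)) : Monotone (plf S) := by
  have hm : Monotone S := monotone_int_of_le_succ hS
  intro x y hxy
  have hfl : ⌊x⌋ ≤ ⌊y⌋ := Int.floor_mono hxy
  rcases eq_or_lt_of_le hfl with h | h
  · have h1 : Int.fract x ≤ Int.fract y := by
      rw [Int.fract, Int.fract, h]; linarith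
    rw [plf, plf, h]
    have h2 : 0 ≤ S (⌊y⌋ + 1) - S ⌊y⌋ := by linarith [hS ⌊y⌋]
    have := mul_le_mul_of_nonneg_left h1 h2
    linarith
  · have h1 : plf S x ≤ S (⌊x⌋ + 1) := by
      rw [plf]
      have h2 : 0 ≤ S (⌊x⌋ + 1) - S ⌊x⌋ := by linarith [hS ⌊x⌋]
      have h3 := (Int.fract_lt_one x).le
      have := mul_le_mul_of_nonneg_left h3 h2
      linarith
    have h2 : S ⌊y⌋ ≤ plf S y := by
      rw [plf]
      have h2 : 0 ≤ S (⌊y⌋ + 1) - S ⌊y⌋ := by linarith [hS ⌊y⌋]
      have h3 := Int.fract_nonneg y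
      have := mul_nonneg h2 h3
      linarith
    have h3 : S (⌊x⌋ + 1) ≤ S ⌊y⌋ := hm (by omega)
    linarith

/-- If `S (n+1) - S n` is between `a` and `b`, so are all difference quotients of `plf S`.
PROOF: `plf (fun n => S n - a * n) x = plf S x - a * x` and `plf` of a monotone sequence is
monotone (as in `plf_strictMono`, with `≤`); the same for `b * n - S n`. -/
theorem plf_lip {S : ℤ → ℝ} {a b : ℝ} (ha : ∀ n, a ≤ S (n + 1) - S n)
    (hb : ∀ n, S (n + 1) - S n ≤ b) {x y : ℝ} (hxy : x ≤ y) :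
    a * (y - x) ≤ plf S y - plf S x ∧ plf S y - plf S x ≤ b * (y - x) := by
  have e1 : ∀ z : ℝ, plf (fun n : ℤ => S n - a * n) z = plf S z - a * z := by
    intro z
    have := Int.floor_add_fract z
    have h2 : a * z = a * ⌊z⌋ + a * Int.fract z := by rw [← mul_add, this]
    rw [h2, plf, plf]; push_cast; ring
  have e2 : ∀ z : ℝ, plf (fun n : ℤ => b * n - S n) z = b * z - plf S z := by
    intro z
    have := Int.floor_add_fract z
    have h2 : b * z = b * ⌊z⌋ + b * Int.fract z := by rw [← mul_add, this]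
    rw [h2, plf, plf]; push_cast; ring
  have m1 : Monotone (plf (fun n : ℤ => S n - a * n)) := plf_mono (by
    intro n; have := ha n; push_cast; linarith)
  have m2 : Monotone (plf (fun n : ℤ => b * n - S n)) := plf_mono (by
    intro n; have := hb n; push_cast; linarith)
  have h1 := m1 hxy
  have h2 := m2 hxy
  rw [e1, e1] at h1
  rw [e2, e2] at h2
  constructor <;> linarith

/-- `f` has difference quotients between `1 / M` and `M` -/
def BL (M : ℝ) (f : ℝ → ℝ) : Prop :=
  ∀ x y, x ≤ y → (y - x) ≤ M * (f y - f x) ∧ f y - f x ≤ M * (y - x)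

theorem BL.id : BL 1 (fun x => x) := by
  intro x y _
  constructor <;> linarith

theorem BL.comp {M N : ℝ} {f g : ℝ → ℝ} (hM : 0 ≤ M) (hN : 0 ≤ N) (hgm : Monotone g)
    (hf : BL M f) (hg : BL N g) : BL (M * N) (fun x => f (g x)) := by
  intro x y hxy
  obtain ⟨a1, a2⟩ := hg x y hxy
  obtain ⟨b1, b2⟩ := hf (g x) (g y) (hgm hxy)
  constructor
  · calc y - x ≤ N * (g y - g x) := a1
      _ ≤ N * (M * (f (g y) - f (g x))) := mul_le_mul_of_nonneg_left b1 hN
      _ = M * N * (f (g y) - f (g x)) := by ring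
  · calc f (g y) - f (g x) ≤ M * (g y - g x) := b2
      _ ≤ M * (N * (y - x)) := mul_le_mul_of_nonneg_left a2 hM
      _ = M * N * (y - x) := by ring

theorem BL.symm {M : ℝ} {f : ℝ ≃o ℝ} (hf : BL M f) : BL M f.symm := by
  intro x y hxy
  obtain ⟨a1, a2⟩ := hf (f.symm x) (f.symm y) (f.symm.monotone hxy)
  rw [OrderIso.apply_symm_apply, OrderIso.apply_symm_apply] at a1 a2
  exact ⟨a2, a1⟩

theorem BL.add {M : ℝ} {f : ℝ → ℝ} (hf : BL M f) (c d : ℝ) : BL M (fun x => f (x + c) + d) := by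
  intro x y hxy
  obtain ⟨a1, a2⟩ := hf (x + c) (y + c) (by linarith)
  have e1 : y + c - (x + c) = y - x := by ring
  rw [e1] at a1 a2
  have e2 : f (y + c) + d - (f (x + c) + d) = f (y + c) - f (x + c) := by ring
  show y - x ≤ M * (f (y + c) + d - (f (x + c) + d)) ∧ f (y + c) + d - (f (x + c) + d) ≤ M * (y - x)
  rw [e2]
  exact ⟨a1, a2⟩

theorem BL.mono {M N : ℝ} {f : ℝ → ℝ} (hmono : Monotone f) (hf : BL M f) (hMN : M ≤ N) :
    BL N f := by
  intro x y hxy
  obtain ⟨a1, a2⟩ := hf x y hxy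
  have h1 : 0 ≤ f y - f x := by linarith [hmono hxy]
  have h2 : 0 ≤ y - x := by linarith
  exact ⟨a1.trans (mul_le_mul_of_nonneg_right hMN h1), a2.trans (mul_le_mul_of_nonneg_right hMN h2)⟩

theorem zS_diff (p : ℝ) (n : ℤ) :
    2 * ep p ≤ zS (ep p) (n + 1) - zS (ep p) n ∧ zS (ep p) (n + 1) - zS (ep p) n ≤ 1 := by
  have h0 := ep_pos p
  have h1 := ep_le p
  rcases Int.even_or_odd' n with ⟨k, rfl | rfl⟩
  · rw [zS_even, zS_odd]; constructor <;> linarith
  · rw [zS_odd, show 2 * k + 1 + 1 = 2 * (k + 1) by ring, zS_even]; push_cast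
    constructor <;> linarith

theorem zI_BL (p : ℝ) : BL (1 / (2 * ep p)) (zI p) := by
  have h0 := ep_pos p
  have h1 := ep_le p
  intro x y hxy
  obtain ⟨a1, a2⟩ := plf_lip (S := zS (ep p)) (fun n => (zS_diff p n).1) (fun n => (zS_diff p n).2)
    hxy
  rw [zI_apply, zI_apply]
  constructor
  · rw [div_mul_eq_mul_div, le_div_iff₀ (by linarith)]
    linarith
  · refine a2.trans (mul_le_mul_of_nonneg_right ?_ (by linarith))
    rw [le_div_iff₀ (by linarith)]
    linarith

/-- the band maps are bi-Lipschitz (`zI` has the slopes `2 ep p` and `1 - 2 ep p`) -/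
theorem bI_BL (p f : ℝ) : ∃ M, 1 ≤ M ∧ BL M (bI p f) := by
  have h0 := ep_pos p
  have h1 := ep_le p
  set M := 1 / (2 * ep p) with hM
  have hM1 : 1 ≤ M := by rw [hM, le_div_iff₀ (by linarith)]; linarith
  have hz : BL M (zI p) := zI_BL p
  have hs : BL M (fun x => (zI p).symm x + 1) := by
    have := hz.symm.add 0 1
    simpa using this
  have hh : BL (M * M) (fun x => zI p ((zI p).symm x + 1)) :=
    BL.comp (by linarith) (by linarith) (fun a b hab => by
      have := (zI p).symm.monotone hab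
      show (zI p).symm a + 1 ≤ (zI p).symm b + 1
      linarith) hz hs
  refine ⟨M * M, by nlinarith, ?_⟩
  have := hh.add (-f) f
  intro x y hxy
  have h := this x y hxy
  rw [bI_apply, bI_apply, hI_apply, hI_apply]
  simpa [← sub_eq_add_neg] using h

/-- `(p, x) ↦ zI p x` is continuous: `zS e n = n / 2 - 1 / 4 + (1 / 4 - e) * s n` with
`s n = ± 1`, so `plf (zS e) x = x / 2 - 1 / 4 + (1 / 4 - e) * plf s x`, and `plf s` is continuous
(solve this formula for `plf s x` with a fixed `p ≠ 0`: `zI p` is an order isomorphism). -/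
theorem zI_jcont : Continuous (fun q : ℝ × ℝ => zI q.1 q.2) := by
  set s : ℤ → ℝ := fun n => if n % 2 = 0 then 1 else -1 with hs
  have key : ∀ p x : ℝ, zI p x = x / 2 - 1 / 4 + (1 / 4 - ep p) * plf s x := by
    intro p x
    rw [zI_apply, plf, plf]
    have h := Int.floor_add_fract x
    have e1 : ∀ n : ℤ, zS (ep p) n = (n : ℝ) / 2 - 1 / 4 + (1 / 4 - ep p) * s n := fun n => rfl
    rw [e1, e1]
    push_cast
    have h2 : x / 2 = (⌊x⌋ : ℝ) / 2 + Int.fract x / 2 := by linarith
    rw [h2]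
    ring
  have hw : Continuous (plf s) := by
    have e : plf s = fun x => 20 * (zI 1 x - (x / 2 - 1 / 4)) := by
      funext x
      rw [key 1 x]
      have : ep 1 = 1 / 5 := by norm_num [ep]
      rw [this]; ring
    rw [e]
    have := (zI 1).continuous
    fun_prop
  have e : (fun q : ℝ × ℝ => zI q.1 q.2) =
      fun q : ℝ × ℝ => q.2 / 2 - 1 / 4 + (1 / 4 - ep q.1) * plf s q.2 := by
    funext q
    exact key q.1 q.2
  rw [e]
  have h1 := ep_cont
  have h2 : Continuous fun q : ℝ × ℝ => ep q.1 := h1.comp continuous_fst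
  have h3 : Continuous fun q : ℝ × ℝ => plf s q.2 := hw.comp continuous_snd
  fun_prop

/-- the inverses of a jointly continuous family of order isomorphisms are jointly continuous:
if `F q₀.1 (x₀ - d) < q₀.2 < F q₀.1 (x₀ + d)` then this holds for `q` near `q₀`. -/
theorem symm_jcont {F : ℝ → (ℝ ≃o ℝ)} (hF : Continuous (fun q : ℝ × ℝ => F q.1 q.2)) :
    Continuous (fun q : ℝ × ℝ => (F q.1).symm q.2) := by
  rw [continuous_iff_continuousAt]
  intro q0
  have hc : ∀ x : ℝ, Continuous fun q : ℝ × ℝ => F q.1 x := fun x =>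
    hF.comp (continuous_fst.prodMk continuous_const)
  rw [ContinuousAt, tendsto_order]
  constructor
  · intro a ha
    have h1 : F q0.1 a < q0.2 := by rwa [OrderIso.lt_symm_apply] at ha
    have h2 : ∀ᶠ q : ℝ × ℝ in 𝓝 q0, F q.1 a < q.2 :=
      (hc a).continuousAt.eventually_lt continuous_snd.continuousAt h1
    filter_upwards [h2] with q hq
    rwa [OrderIso.lt_symm_apply]
  · intro b hb
    have hb' : (F q0.1).symm q0.2 < b := hb
    have h1 : q0.2 < F q0.1 b := by rwa [OrderIso.symm_apply_lt] at hb'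
    have h2 : ∀ᶠ q : ℝ × ℝ in 𝓝 q0, q.2 < F q.1 b :=
      continuous_snd.continuousAt.eventually_lt (hc b).continuousAt h1
    filter_upwards [h2] with q hq
    rwa [OrderIso.symm_apply_lt]

theorem bI_jcont (f : ℝ) : Continuous (fun q : ℝ × ℝ => bI q.1 f q.2) := by
  have e : (fun q : ℝ × ℝ => bI q.1 f q.2) =
      fun q : ℝ × ℝ => zI q.1 ((zI q.1).symm (q.2 - f) + 1) + f := by
    funext q
    rw [bI_apply, hI_apply]
  rw [e]
  have g1 : Continuous fun q : ℝ × ℝ => ((q.1, q.2 - f) : ℝ × ℝ) :=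
    continuous_fst.prodMk (continuous_snd.sub continuous_const)
  have h1 : Continuous fun q : ℝ × ℝ => (zI q.1).symm (q.2 - f) :=
    Continuous.comp (g := fun q : ℝ × ℝ => (zI q.1).symm q.2)
      (f := fun q : ℝ × ℝ => ((q.1, q.2 - f) : ℝ × ℝ)) (symm_jcont (F := zI) zI_jcont) g1
  have g2 : Continuous fun q : ℝ × ℝ => ((q.1, (zI q.1).symm (q.2 - f) + 1) : ℝ × ℝ) :=
    continuous_fst.prodMk (h1.add continuous_const)
  have h2 : Continuous fun q : ℝ × ℝ => zI q.1 ((zI q.1).symm (q.2 - f) + 1) :=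
    Continuous.comp (g := fun q : ℝ × ℝ => zI q.1 q.2)
      (f := fun q : ℝ × ℝ => ((q.1, (zI q.1).symm (q.2 - f) + 1) : ℝ × ℝ)) zI_jcont g2
  exact h2.add continuous_const

end Pool.Agent.H.MP_1611f1_gt.PB
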