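import Pool.Agent.H.MP_1611f1_gt.G2.PlA

/-!
The one parameter family of piecewise linear homeomorphisms `Z`, `h` and the band maps
(section 2 of h49_1611f1_PB.md). The parameter `p` is an arbitrary real number, the small
number of the paper is `ep p = 1 / (4 + p ^ 2)`, which lies in `(0, 1/4]`.
-/

namespace Pool.Agent.H.MP_1611f1_gt.PB

open Set Filter Topology

/-- the small number -/
noncomputable def ep (p : ℝ) : ℝ := 1 / (4 + p ^ 2)

theorem ep_pos (p : ℝ) : 0 < ep p := by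
  unfold ep; positivity

theorem ep_le (p : ℝ) : ep p ≤ 1 / 4 := by
  unfold ep
  exact one_div_le_one_div_of_le (by norm_num) (by nlinarith [sq_nonneg p])

theorem ep_zero : ep 0 = 1 / 4 := by norm_num [ep]

theorem ep_cont : Continuous ep := by
  unfold ep
  refine continuous_const.div (by fun_prop) fun p => ?_
  positivity

theorem exists_ep_lt {d : ℝ} (hd : 0 < d) : ∃ p, ep p < d := by
  refine ⟨1 / d + 1, ?_⟩
  unfold ep
  rw [div_lt_iff₀ (by positivity)]
  have h1 : 0 < 1 / d := by positivity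
  have h2 : d * (1 / d) = 1 := by field_simp
  nlinarith [mul_pos hd h1, mul_pos hd (mul_pos h1 h1)]

/-- the breakpoints: `zS e (2 k) = k - e`, `zS e (2 k + 1) = k + e` -/
noncomputable def zS (e : ℝ) (n : ℤ) : ℝ :=
  (n : ℝ) / 2 - 1 / 4 + (1 / 4 - e) * (if n % 2 = 0 then 1 else -1)

theorem zS_even (e : ℝ) (k : ℤ) : zS e (2 * k) = k - e := by
  have h : (2 * k) % 2 = 0 := by omega
  rw [zS, if_pos h]; push_cast; ring

theorem zS_odd (e : ℝ) (k : ℤ) : zS e (2 * k + 1) = k + e := by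
  have h : ¬ (2 * k + 1) % 2 = 0 := by omega
  rw [zS, if_neg h]; push_cast; ring

theorem zS_lt {e : ℝ} (h0 : 0 < e) (h1 : e ≤ 1 / 4) (n : ℤ) : zS e n < zS e (n + 1) := by
  rcases Int.even_or_odd' n with ⟨k, rfl | rfl⟩
  · rw [zS_even, zS_odd]; linarith
  · rw [zS_odd, show 2 * k + 1 + 1 = 2 * (k + 1) by ring, zS_even]; push_cast; linarith

theorem zS_per (e : ℝ) (n : ℤ) : zS e (n + 2) = zS e n + 1 := by
  rcases Int.even_or_odd' n with ⟨k, rfl | rfl⟩
  · rw [show 2 * k + 2 = 2 * (k + 1) by ring, zS_even, zS_even]; push_cast; ring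
  · rw [show 2 * k + 1 + 2 = 2 * (k + 1) + 1 by ring, zS_odd, zS_odd]; push_cast; ring

/-- the homeomorphism `Z` -/
noncomputable def zI (p : ℝ) : ℝ ≃o ℝ :=
  plIso (zS (ep p)) (zS_lt (ep_pos p) (ep_le p)) 2 (by norm_num) 1 (zS_per (ep p))

theorem zI_apply (p x : ℝ) : zI p x = plf (zS (ep p)) x := rfl

theorem zI_add (p x : ℝ) : zI p (x + 2) = zI p x + 1 := by
  have := plf_shift (zS_per (ep p)) x
  push_cast at this
  exact this

theorem zI_symm_add (p x : ℝ) : (zI p).symm (x + 1) = (zI p).symm x + 2 := by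
  apply (zI p).injective
  rw [zI_add, OrderIso.apply_symm_apply, OrderIso.apply_symm_apply]

theorem zI_even (p : ℝ) (k : ℤ) {u : ℝ} (hu : u ∈ Icc (0 : ℝ) 1) :
    zI p (2 * k + u) = k - ep p + 2 * ep p * u := by
  have h := plf_add (zS (ep p)) (2 * k) u hu
  rw [zS_even, zS_odd] at h
  rw [zI_apply, show (2 * (k : ℝ) + u) = ((2 * k : ℤ) : ℝ) + u by push_cast; ring, h]
  ring

theorem zI_odd (p : ℝ) (k : ℤ) {u : ℝ} (hu : u ∈ Icc (0 : ℝ) 1) :
    zI p (2 * k + 1 + u) = k + ep p + (1 - 2 * ep p) * u := by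
  have h := plf_add (zS (ep p)) (2 * k + 1) u hu
  rw [show 2 * k + 1 + 1 = 2 * (k + 1) by ring, zS_even, zS_odd] at h
  rw [zI_apply, show (2 * (k : ℝ) + 1 + u) = ((2 * k + 1 : ℤ) : ℝ) + u by push_cast; ring, h]
  push_cast; ring

/-- the homeomorphism `h`, conjugate to the translation by `1` -/
noncomputable def hI (p : ℝ) : ℝ ≃o ℝ :=
  ((zI p).symm.trans (OrderIso.addRight (1 : ℝ))).trans (zI p)

theorem hI_apply (p x : ℝ) : hI p x = zI p ((zI p).symm x + 1) := rfl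

theorem hI_zI (p x : ℝ) : hI p (zI p x) = zI p (x + 1) := by
  rw [hI_apply, OrderIso.symm_apply_apply]

theorem hI_hI (p x : ℝ) : hI p (hI p x) = x + 1 := by
  rw [hI_apply, hI_apply, OrderIso.symm_apply_apply,
    show (zI p).symm x + 1 + 1 = (zI p).symm x + 2 by ring, zI_add, OrderIso.apply_symm_apply]

theorem hI_add (p x : ℝ) : hI p (x + 1) = hI p x + 1 := by
  rw [hI_apply, hI_apply, zI_symm_add,
    show (zI p).symm x + 2 + 1 = ((zI p).symm x + 1) + 2 by ring, zI_add]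

theorem hI_symm (p x : ℝ) : (hI p).symm x = hI p x - 1 := by
  rw [OrderIso.symm_apply_eq]
  have h := hI_add p (hI p x - 1)
  rw [sub_add_cancel, hI_hI] at h
  linarith

theorem hI_add_int (p x : ℝ) (k : ℤ) : hI p (x + k) = hI p x + k := by
  induction k using Int.induction_on with
  | zero => simp
  | succ i ih =>
    rw [show x + (((i : ℤ) + 1 : ℤ) : ℝ) = (x + ((i : ℤ) : ℝ)) + 1 by push_cast; ring, hI_add, ih]
    push_cast; ring
  | pred i ih =>
    have h := hI_add p (x + ((-(i : ℤ) - 1 : ℤ) : ℝ))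
    rw [show x + ((-(i : ℤ) - 1 : ℤ) : ℝ) + 1 = x + ((-(i : ℤ) : ℤ) : ℝ) by push_cast; ring, ih] at h
    push_cast at h ⊢
    linarith

theorem hI_ge (p : ℝ) (k : ℤ) {x : ℝ} (hx : k + ep p ≤ x) : k + 1 - ep p ≤ hI p x := by
  have h1 : hI p (k + ep p) = k + 1 - ep p := by
    have h2 : zI p (2 * k + 1 + 0) = k + ep p + (1 - 2 * ep p) * 0 :=
      zI_odd p k ⟨le_rfl, zero_le_one⟩
    have h3 : zI p (2 * ((k + 1 : ℤ) : ℝ) + 0) = ((k + 1 : ℤ) : ℝ) - ep p + 2 * ep p * 0 :=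
      zI_even p (k + 1) ⟨le_rfl, zero_le_one⟩
    have h4 : (k : ℝ) + ep p = zI p (2 * k + 1) := by
      rw [add_zero] at h2; rw [h2]; ring
    rw [h4, hI_zI, show (2 * (k : ℝ) + 1 + 1) = 2 * ((k + 1 : ℤ) : ℝ) + 0 by push_cast; ring, h3]
    push_cast; ring
  rw [← h1]
  exact (hI p).monotone hx

theorem hI_symm_ge (p : ℝ) (k : ℤ) {x : ℝ} (hx : k + ep p ≤ x) : k - ep p ≤ (hI p).symm x := by
  rw [hI_symm]
  linarith [hI_ge p k hx]

theorem hI_zero (x : ℝ) : hI 0 x = x + 1 / 2 := by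
  have key : ∀ y, zI 0 y = y / 2 - 1 / 4 := by
    intro y
    have h1 : ∀ n : ℤ, zS (ep 0) n = (n : ℝ) / 2 - 1 / 4 := by
      intro n; rw [zS, ep_zero]; ring
    rw [zI_apply, plf, h1, h1]
    have := Int.floor_add_fract y
    push_cast
    linarith
  rw [hI_apply, key]
  have h2 := key ((zI 0).symm x)
  rw [OrderIso.apply_symm_apply] at h2
  linarith

/-- the map of a band at the position `f` -/
noncomputable def bI (p f : ℝ) : ℝ ≃o ℝ :=
  ((OrderIso.addRight (-f)).trans (hI p)).trans (OrderIso.addRight f)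

theorem bI_apply (p f x : ℝ) : bI p f x = hI p (x - f) + f := by
  show hI p (x + -f) + f = _
  rw [← sub_eq_add_neg]

theorem bI_add (p f x : ℝ) : bI p f (x + 1) = bI p f x + 1 := by
  rw [bI_apply, bI_apply, show x + 1 - f = (x - f) + 1 by ring, hI_add]; ring

theorem bI_symm (p f x : ℝ) : (bI p f).symm x = bI p f x - 1 := by
  rw [OrderIso.symm_apply_eq, bI_apply, bI_apply,
    show hI p (x - f) + f - 1 - f = hI p (x - f) - 1 by ring]
  have h := hI_add p (hI p (x - f) - 1)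
  rw [sub_add_cancel, hI_hI] at h
  linarith

theorem bI_zero (f x : ℝ) : bI 0 f x = x + 1 / 2 := by
  rw [bI_apply, hI_zero]; ring

theorem bI_ge (p f : ℝ) (k : ℤ) {x : ℝ} (hx : f + k + ep p ≤ x) : f + (k + 1) - ep p ≤ bI p f x := by
  rw [bI_apply]
  linarith [hI_ge p k (x := x - f) (by linarith)]

theorem bI_symm_ge (p f : ℝ) (k : ℤ) {x : ℝ} (hx : f + k + ep p ≤ x) :
    f + k - ep p ≤ (bI p f).symm x := by
  rw [bI_symm]
  linarith [bI_ge p f k hx]

/-- the lower mark of two bands at the positions `f' ≤ f` -/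
noncomputable def mT (p f' f : ℝ) : ℝ := (1 - 2 * ep p) * f' + 2 * ep p * f - ep p

/-- the upper mark of two bands at the positions `f' ≤ f` -/
noncomputable def mU (p f' f : ℝ) : ℝ := (1 - 2 * ep p) * f + 2 * ep p * f' + ep p

theorem bI_mT_low (p : ℝ) {f' f : ℝ} (h1 : f' ≤ f) (h2 : f ≤ f' + 1) :
    bI p f' (mT p f' f) = mU p f' f := by
  have hd : f - f' ∈ Icc (0 : ℝ) 1 := ⟨by linarith, by linarith⟩
  have h3 := zI_even p 0 hd
  have h4 := zI_odd p 0 hd
  rw [bI_apply, show mT p f' f - f' = zI p (2 * ((0 : ℤ) : ℝ) + (f - f')) by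
    rw [h3, mT]; push_cast; ring, hI_zI,
    show 2 * ((0 : ℤ) : ℝ) + (f - f') + 1 = 2 * ((0 : ℤ) : ℝ) + 1 + (f - f') by ring, h4, mU]
  push_cast; ring

theorem bI_mT_high (p : ℝ) {f' f : ℝ} (h1 : f' ≤ f) (h2 : f ≤ f' + 1) :
    bI p f (mT p f' f) = mU p f' f := by
  have hd : 1 - (f - f') ∈ Icc (0 : ℝ) 1 := ⟨by linarith, by linarith⟩
  have h3 := zI_odd p (-1) hd
  have h4 := zI_even p 0 hd
  rw [bI_apply, show mT p f' f - f = zI p (2 * ((-1 : ℤ) : ℝ) + 1 + (1 - (f - f'))) by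
    rw [h3, mT]; push_cast; ring, hI_zI,
    show 2 * ((-1 : ℤ) : ℝ) + 1 + (1 - (f - f')) + 1 = 2 * ((0 : ℤ) : ℝ) + (1 - (f - f')) by
      push_cast; ring, h4, mU]
  push_cast; ring

end Pool.Agent.H.MP_1611f1_gt.PB
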